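import Pool.Agent.Lib_helper40.RND.Defs

set_option autoImplicit false

/-! From `Bir` data to transducers given by functions. -/

namespace RND40

open Equiv Equiv.Perm

/-- bireversible transducer, all three conditions -/
def BirT {n k : ℕ} (δ : Fin n → Fin k → Fin n) (out : Fin n → Fin k → Fin k) : Prop :=
  (∀ q, Function.Bijective (out q)) ∧ (∀ x, Function.Bijective (fun q => δ q x)) ∧
    Function.Bijective (fun s : Fin n × Fin k => (δ s.1 s.2, out s.1 s.2))

lemma conv_bir {n k : ℕ} (D : Fin k → Perm (Fin n)) (O : Fin n → Perm (Fin k)) :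
    Bir D O ↔ Function.Bijective (fun s : Fin n × Fin k => (D s.2 s.1, O s.1 s.2)) := by
  constructor
  · intro h
    rw [← Finite.injective_iff_bijective]
    rintro ⟨q, x⟩ ⟨q', x'⟩ hs
    simp only [Prod.mk.injEq] at hs
    obtain ⟨h1, h2⟩ := hs
    have h3 : (O q)⁻¹ (O q x) = x := by simp
    have h4 : (O q')⁻¹ (O q x) = x' := by rw [h2]; simp
    have h5 : q = q' := by
      apply (h (O q x)).1
      simp only [h3, h4, h1]
    subst h5
    have h6 : x = x' := (O q).injective h2
    rw [h6]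
  · intro h y
    rw [← Finite.injective_iff_bijective]
    intro q q' hq
    have : ((q, (O q)⁻¹ y) : Fin n × Fin k) = (q', (O q')⁻¹ y) := by
      apply h.1
      simp only [Prod.mk.injEq]
      exact ⟨hq, by simp⟩
    exact congrArg Prod.fst this

theorem conv_main (k : ℕ) (n : ℕ) (ε : ℝ) (hε : 0 ≤ ε)
    (h : (Nat.card {A : (Fin k → Perm (Fin n)) × (Fin n → Perm (Fin k)) //
      Bir A.1 A.2 ∧ ¬ alternatingGroup (Fin n) ≤ Subgroup.closure (Set.range A.1)} : ℝ) ≤
      ε * (Nat.card {A : (Fin k → Perm (Fin n)) × (Fin n → Perm (Fin k)) // Bir A.1 A.2} : ℝ)) :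
    (Nat.card {A : (Fin n → Fin k → Fin n) × (Fin n → Fin k → Fin k) //
      BirT A.1 A.2 ∧ ¬ alternatingGroup (Fin n) ≤
        Subgroup.closure {σ : Perm (Fin n) | ∃ x, ∀ q, σ q = A.1 q x}} : ℝ) ≤
      ε * (Nat.card {A : (Fin n → Fin k → Fin n) × (Fin n → Fin k → Fin k) //
        BirT A.1 A.2} : ℝ) := by
  have h1 : Nat.card {A : (Fin n → Fin k → Fin n) × (Fin n → Fin k → Fin k) //
      BirT A.1 A.2 ∧ ¬ alternatingGroup (Fin n) ≤
        Subgroup.closure {σ : Perm (Fin n) | ∃ x, ∀ q, σ q = A.1 q x}} ≤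
      Nat.card {A : (Fin k → Perm (Fin n)) × (Fin n → Perm (Fin k)) //
      Bir A.1 A.2 ∧ ¬ alternatingGroup (Fin n) ≤ Subgroup.closure (Set.range A.1)} := by
    let f : {A : (Fin n → Fin k → Fin n) × (Fin n → Fin k → Fin k) //
      BirT A.1 A.2 ∧ ¬ alternatingGroup (Fin n) ≤
        Subgroup.closure {σ : Perm (Fin n) | ∃ x, ∀ q, σ q = A.1 q x}} →
      {A : (Fin k → Perm (Fin n)) × (Fin n → Perm (Fin k)) //
      Bir A.1 A.2 ∧ ¬ alternatingGroup (Fin n) ≤ Subgroup.closure (Set.range A.1)} := fun A =>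
      ⟨(fun x => Equiv.ofBijective _ (A.2.1.2.1 x), fun q => Equiv.ofBijective _ (A.2.1.1 q)), by
        refine ⟨(conv_bir _ _).2 A.2.1.2.2, ?_⟩
        intro hle
        apply A.2.2
        refine le_trans hle ?_
        rw [Subgroup.closure_le]
        rintro _ ⟨x, rfl⟩
        apply Subgroup.subset_closure
        exact ⟨x, fun q => rfl⟩⟩
    apply Nat.card_le_card_of_injective f
    intro A B hAB
    have h2 := congrArg Subtype.val hAB
    apply Subtype.ext
    apply Prod.ext
    · funext q x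
      have h3 := congrArg (fun z => z.1 x q) h2
      exact h3
    · funext q x
      have h3 := congrArg (fun z => z.2 q x) h2
      exact h3
  have h2 : Nat.card {A : (Fin k → Perm (Fin n)) × (Fin n → Perm (Fin k)) // Bir A.1 A.2} ≤
      Nat.card {A : (Fin n → Fin k → Fin n) × (Fin n → Fin k → Fin k) // BirT A.1 A.2} := by
    let g : {A : (Fin k → Perm (Fin n)) × (Fin n → Perm (Fin k)) // Bir A.1 A.2} →
      {A : (Fin n → Fin k → Fin n) × (Fin n → Fin k → Fin k) // BirT A.1 A.2} := fun A =>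
      ⟨(fun q x => A.1.1 x q, fun q x => A.1.2 q x),
        fun q => (A.1.2 q).bijective, fun x => (A.1.1 x).bijective, (conv_bir _ _).1 A.2⟩
    apply Nat.card_le_card_of_injective g
    intro A B hAB
    have h2 := congrArg Subtype.val hAB
    apply Subtype.ext
    apply Prod.ext
    · funext x
      ext q
      have h3 := congrArg (fun z => z.1 q x) h2
      exact congrArg Fin.val h3
    · funext q
      ext x
      have h3 := congrArg (fun z => z.2 q x) h2
      exact congrArg Fin.val h3
  calc _ ≤ (Nat.card {A : (Fin k → Perm (Fin n)) × (Fin n → Perm (Fin k)) //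
      Bir A.1 A.2 ∧ ¬ alternatingGroup (Fin n) ≤ Subgroup.closure (Set.range A.1)} : ℝ) := by
        exact_mod_cast h1
    _ ≤ _ := h
    _ ≤ _ := mul_le_mul_of_nonneg_left (by exact_mod_cast h2) hε

end RND40
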