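import Mathlib

set_option autoImplicit false

/-! Random permutations: definitions for the generic part of MP_7da452_al. -/

namespace RND40

open Equiv Equiv.Perm

/-- fourth root of the binary logarithm -/
def tt (n : ℕ) : ℕ := Nat.sqrt (Nat.sqrt (Nat.log 2 n))

/-- number of cycles, fixed points included -/
noncomputable def ncyc {α : Type*} (s : Perm α) : ℕ := Nat.card (Quotient (SameCycle.setoid s))

/-- length of the cycle of `x` -/
noncomputable def len {α : Type*} (s : Perm α) (x : α) : ℕ := Function.minimalPeriod s x

/-- the cycle of `x` has a length in `L` and `q` of the length divides no other cycle length -/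
def Priv {α : Type*} (s : Perm α) (L : Finset ℕ) (q : ℕ → ℕ) (x : α) : Prop :=
  len s x ∈ L ∧ ∀ y, ¬ SameCycle s x y → ¬ q (len s x) ∣ len s y

/-- two powers with disjoint supports of sizes between `w` and `z` -/
def TwoSmall {α : Type*} [Fintype α] [DecidableEq α] (w z : ℕ) (a : Perm α) : Prop :=
  ∃ N N' : ℕ, _root_.Disjoint (a ^ N).support (a ^ N').support ∧
    w ≤ (a ^ N).support.card ∧ (a ^ N).support.card ≤ z ∧
    w ≤ (a ^ N').support.card ∧ (a ^ N').support.card ≤ z

/-- bireversible data: transitions `D x`, outputs `O q` -/
def Bir {Q X : Type*} (D : X → Perm Q) (O : Q → Perm X) : Prop :=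
  ∀ y : X, Function.Bijective (fun q => D ((O q)⁻¹ y) q)

end RND40
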