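import Mathlib
import Pool.Agent.Lib_helper40.RND.Defs

set_option autoImplicit false

/-! Block RA: the cycle length of a point is uniformly distributed. -/

namespace RND40

open Equiv Equiv.Perm

section general

variable {α : Type*} [Fintype α] [DecidableEq α]

omit [Fintype α] [DecidableEq α] in
theorem RA_inv_self (s : Perm α) (x : α) : s⁻¹ (s x) = x := s.symm_apply_apply x

open Classical in
theorem RA_gen {I J : Type*} [Fintype I] [Fintype J] (S : Perm α → Prop) (P : Perm α → I → α)
    (j : J → I) (b : J → α) (hinj : ∀ s, S s → Function.Injective (P s))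
    (hj : Function.Injective j) (hb : ∀ s, S s → ∀ k, P s (j k) = b k)
    (hag : ∀ s t, S s → S t → P s = P t → ∀ i, s (P s i) = t (P s i)) :
    Nat.card {s : Perm α // S s} ≤ (Fintype.card α - Fintype.card J).factorial := by
  by_cases hS : ∃ s, S s
  swap
  · have : IsEmpty {s : Perm α // S s} := ⟨fun s => hS ⟨s.1, s.2⟩⟩
    rw [Nat.card_eq_zero.2 (Or.inl this)]
    exact Nat.zero_le _
  obtain ⟨s₁, h₁⟩ := hS
  have hbinj : Function.Injective b := by
    intro k k' h
    apply hj
    apply hinj s₁ h₁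
    rw [hb s₁ h₁, hb s₁ h₁, h]
  have hIα : Fintype.card I ≤ Fintype.card α := Fintype.card_le_of_injective _ (hinj s₁ h₁)
  have hJI : Fintype.card J ≤ Fintype.card I := Fintype.card_le_of_injective _ hj
  have hK : Fintype.card {i : I // i ∉ Set.range j} = Fintype.card I - Fintype.card J := by
    rw [Fintype.card_subtype_compl, Fintype.card_congr (Equiv.ofInjective j hj).symm]
  have hβ : Fintype.card {z : α // z ∉ Set.range b} = Fintype.card α - Fintype.card J := by
    rw [Fintype.card_subtype_compl, Fintype.card_congr (Equiv.ofInjective b hbinj).symm]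
  let F : {s : Perm α // S s} → ({i : I // i ∉ Set.range j} ↪ {z : α // z ∉ Set.range b}) :=
    fun s => ⟨fun i => ⟨P s.1 i.1, by
      rintro ⟨k, hk⟩
      exact i.2 ⟨k, hinj s.1 s.2 (by rw [hb s.1 s.2 k, hk])⟩⟩, by
      intro i i' h
      exact Subtype.ext (hinj s.1 s.2 (congrArg Subtype.val h))⟩
  have hfib : ∀ e ∈ (Finset.univ : Finset ({i : I // i ∉ Set.range j} ↪ {z : α // z ∉ Set.range b})),
      (Finset.univ.filter fun s : {s : Perm α // S s} => F s = e).card ≤
        (Fintype.card α - Fintype.card I).factorial := by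
    intro e _
    by_cases he : ∃ s : {s : Perm α // S s}, F s = e
    swap
    · rw [Finset.filter_false_of_mem fun s _ h => he ⟨s, h⟩]
      exact Nat.zero_le _
    obtain ⟨s₀, h₀⟩ := he
    have hP : ∀ s : {s : Perm α // S s}, F s = e → P s.1 = P s₀.1 := by
      intro s hs
      funext i
      by_cases hi : i ∈ Set.range j
      · obtain ⟨k, rfl⟩ := hi
        rw [hb s.1 s.2, hb s₀.1 s₀.2]
      · have h2 : F s = F s₀ := hs.trans h₀.symm
        have h3 := congrArg (fun f => (f ⟨i, hi⟩).1) h2
        exact h3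
    have hT : Fintype.card {a : α // a ∉ Set.range (P s₀.1)} =
        Fintype.card α - Fintype.card I := by
      rw [Fintype.card_subtype_compl,
        Fintype.card_congr (Equiv.ofInjective _ (hinj s₀.1 s₀.2)).symm]
    rw [← hT, ← Fintype.card_perm, Fintype.card_congr
      (Equiv.Perm.subtypeEquivSubtypePerm fun a => a ∉ Set.range (P s₀.1)),
      ← Fintype.card_subtype]
    let G : {s : {s : Perm α // S s} // F s = e} →
        {f : Perm α // ∀ a, ¬ (a ∉ Set.range (P s₀.1)) → f a = a} := fun s =>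
      ⟨s₀.1⁻¹ * s.1.1, by
        intro a ha
        rw [not_not] at ha
        obtain ⟨i, rfl⟩ := ha
        have h4 := hP s.1 s.2
        have h5 := hag s.1.1 s₀.1 s.1.2 s₀.2 h4 i
        rw [h4] at h5
        rw [Equiv.Perm.mul_apply, h5, RA_inv_self]⟩
    refine Fintype.card_le_of_injective G ?_
    intro s s' h
    have h6 : s₀.1⁻¹ * s.1.1 = s₀.1⁻¹ * s'.1.1 := congrArg Subtype.val h
    exact Subtype.ext (Subtype.ext (mul_left_cancel h6))
  have h1 := Finset.card_le_mul_card_image_of_maps_to (f := F) (s := Finset.univ)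
    (t := Finset.univ) (fun _ _ => Finset.mem_univ _)
    ((Fintype.card α - Fintype.card I).factorial) hfib
  rw [Finset.card_univ, Finset.card_univ, Fintype.card_embedding_eq, hK, hβ] at h1
  have h2 : Fintype.card I - Fintype.card J ≤ Fintype.card α - Fintype.card J := by omega
  have h3 := Nat.factorial_mul_descFactorial h2
  have h4 : Fintype.card α - Fintype.card J - (Fintype.card I - Fintype.card J) =
      Fintype.card α - Fintype.card I := by omega
  rw [h4] at h3
  rw [Nat.card_eq_fintype_card]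
  exact h1.trans h3.le

omit [Fintype α] [DecidableEq α] in
theorem RA_pow_inj (s : Perm α) (x : α) {i k : ℕ} (hi : i < len s x) (hk : k < len s x)
    (h : (s ^ i) x = (s ^ k) x) : i = k := by
  rw [← Equiv.Perm.iterate_eq_pow, ← Equiv.Perm.iterate_eq_pow] at h
  exact Function.iterate_injOn_Iio_minimalPeriod hi hk h

omit [Fintype α] [DecidableEq α] in
theorem RA_pow_len (s : Perm α) (x : α) : (s ^ len s x) x = x := by
  rw [← Equiv.Perm.iterate_eq_pow]
  exact Function.iterate_minimalPeriod

omit [Fintype α] [DecidableEq α] in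
theorem RA_agree (s t : Perm α) (x : α) (l : ℕ) (hs : len s x = l) (ht : len t x = l)
    (h : ∀ i < l, (s ^ i) x = (t ^ i) x) (i : ℕ) (hi : i < l) :
    s ((s ^ i) x) = t ((s ^ i) x) := by
  rw [h i hi, ← h i hi, ← Equiv.Perm.mul_apply, ← pow_succ', h i hi, ← Equiv.Perm.mul_apply,
    ← pow_succ']
  rcases Nat.lt_or_ge (i + 1) l with h1 | h1
  · exact h _ h1
  · have h2 : i + 1 = l := by omega
    rw [h2]
    have h3 := RA_pow_len s x
    have h4 := RA_pow_len t x
    rw [hs] at h3
    rw [ht] at h4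
    rw [h3, h4]

theorem RA_le (x : α) (l : ℕ) (h1 : 1 ≤ l) :
    Nat.card {s : Perm α // len s x = l} ≤ (Fintype.card α - 1).factorial := by
  have h := RA_gen (α := α) (I := Fin l) (J := Unit) (fun s => len s x = l)
    (fun s i => (s ^ (i : ℕ)) x) (fun _ => ⟨0, h1⟩) (fun _ => x) ?_ ?_ ?_ ?_
  · simpa using h
  · intro s hs i k hik
    refine Fin.ext (RA_pow_inj s x ?_ ?_ hik)
    · rw [hs]; exact i.2
    · rw [hs]; exact k.2
  · intro a b _
    rfl
  · intro s hs k
    simp
  · intro s t hs ht hP i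
    exact RA_agree s t x l hs ht (fun i hi => congrFun hP ⟨i, hi⟩) i i.2

/-! ### RA -/

theorem card_period (x : α) (l : ℕ) (h1 : 1 ≤ l) (h2 : l ≤ Fintype.card α) :
    Nat.card {s : Perm α // len s x = l} = (Fintype.card α - 1).factorial := by
  classical
  have hle := fun m (hm : 1 ≤ m) => RA_le x m hm
  have hpos : 1 ≤ Fintype.card α := Fintype.card_pos_iff.2 ⟨x⟩
  have hmem : ∀ s : Perm α, len s x ∈ Finset.Icc 1 (Fintype.card α) := by
    intro s
    rw [Finset.mem_Icc]
    constructor
    · exact Function.minimalPeriod_pos_of_mem_periodicPts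
        (Function.mem_periodicPts.2 ⟨orderOf s, orderOf_pos s, by
          rw [Function.IsPeriodicPt, Function.IsFixedPt, Equiv.Perm.iterate_eq_pow,
            pow_orderOf_eq_one, Equiv.Perm.one_apply]⟩)
    · have hinj : Function.Injective (fun i : Fin (len s x) => (s ^ (i : ℕ)) x) := by
        intro i k hik
        exact Fin.ext (RA_pow_inj s x i.2 k.2 hik)
      simpa using Fintype.card_le_of_injective _ hinj
  have hsum : ∑ m ∈ Finset.Icc 1 (Fintype.card α), Nat.card {s : Perm α // len s x = m} =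
      ∑ m ∈ Finset.Icc 1 (Fintype.card α), (Fintype.card α - 1).factorial := by
    have e1 := Finset.card_eq_sum_card_fiberwise (f := fun s : Perm α => len s x)
      (s := Finset.univ) (t := Finset.Icc 1 (Fintype.card α)) (fun s _ => hmem s)
    rw [Finset.card_univ, Fintype.card_perm] at e1
    have e2 : ∀ m, Nat.card {s : Perm α // len s x = m} =
        (Finset.univ.filter fun s : Perm α => len s x = m).card := by
      intro m
      rw [Nat.card_eq_fintype_card, Fintype.card_subtype]
    simp only [e2]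
    rw [← e1, Finset.sum_const, Nat.card_Icc, smul_eq_mul, Nat.add_sub_cancel]
    exact (Nat.mul_factorial_pred (by omega)).symm
  have := (Finset.sum_eq_sum_iff_of_le (s := Finset.Icc 1 (Fintype.card α))
    (fun m hm => hle m (Finset.mem_Icc.1 hm).1)).1 hsum l (Finset.mem_Icc.2 ⟨h1, h2⟩)
  exact this

theorem card_two_periods (x y : α) (hxy : x ≠ y) (l m : ℕ) (hl : 1 ≤ l) (hm : 1 ≤ m) :
    Nat.card {s : Perm α // len s x = l ∧ len s y = m ∧ ¬ SameCycle s x y} ≤
      (Fintype.card α - 2).factorial := by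
  have h := RA_gen (α := α) (I := Fin l ⊕ Fin m) (J := Unit ⊕ Unit)
    (fun s => len s x = l ∧ len s y = m ∧ ¬ SameCycle s x y)
    (fun s => Sum.elim (fun i : Fin l => (s ^ (i : ℕ)) x) (fun i : Fin m => (s ^ (i : ℕ)) y))
    (Sum.map (fun _ => ⟨0, hl⟩) (fun _ => ⟨0, hm⟩)) (Sum.elim (fun _ => x) (fun _ => y))
    ?_ ?_ ?_ ?_
  · simpa using h
  · rintro s ⟨hs1, hs2, hs3⟩ (i | i) (k | k) hik
    · refine congrArg Sum.inl (Fin.ext (RA_pow_inj s x ?_ ?_ hik))
      · rw [hs1]; exact i.2
      · rw [hs1]; exact k.2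
    · exfalso
      apply hs3
      have h1 : (s ^ (i : ℕ)) x = (s ^ (k : ℕ)) y := hik
      refine ⟨(i : ℤ) - k, ?_⟩
      have h2 : (s ^ (k : ℕ))⁻¹ ((s ^ (i : ℕ)) x) = y := by
        rw [h1, RA_inv_self]
      rw [← h2, zpow_sub, zpow_natCast, zpow_natCast, ← Equiv.Perm.mul_apply]
      congr 1
      exact ((Commute.refl s).pow_pow _ _).inv_right.eq
    · exfalso
      apply hs3
      have h1 : (s ^ (i : ℕ)) y = (s ^ (k : ℕ)) x := hik
      refine ⟨(k : ℤ) - i, ?_⟩
      have h2 : (s ^ (i : ℕ))⁻¹ ((s ^ (k : ℕ)) x) = y := by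
        rw [← h1, RA_inv_self]
      rw [← h2, zpow_sub, zpow_natCast, zpow_natCast, ← Equiv.Perm.mul_apply]
      congr 1
      exact ((Commute.refl s).pow_pow _ _).inv_right.eq
    · refine congrArg Sum.inr (Fin.ext (RA_pow_inj s y ?_ ?_ hik))
      · rw [hs2]; exact i.2
      · rw [hs2]; exact k.2
  · rintro (a | a) (b | b) hab
    · rfl
    · simp at hab
    · simp at hab
    · rfl
  · rintro s _ (k | k)
    · simp
    · simp
  · rintro s t ⟨hs1, hs2, _⟩ ⟨ht1, ht2, _⟩ hP (i | i)
    · exact RA_agree s t x l hs1 ht1 (fun i hi => congrFun hP (Sum.inl ⟨i, hi⟩)) i i.2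
    · exact RA_agree s t y m hs2 ht2 (fun i hi => congrFun hP (Sum.inr ⟨i, hi⟩)) i i.2

end general

end RND40
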