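import Mathlib
import Pool.Agent.Lib_helper40.RND.Defs
import Pool.Agent.Lib_helper40.RND.RA

set_option autoImplicit false

/-! Block RB: the number of cycles (helper37). -/

namespace RND40

open Equiv Equiv.Perm

section general

variable {α : Type*} [Fintype α] [DecidableEq α]

omit [DecidableEq α] in
private theorem RB_card_sameCycle (s : Perm α) (x : α) :
    Nat.card {y // SameCycle s x y} = len s x := by
  classical
  unfold len
  have h2 := MulAction.minimalPeriod_eq_card (a := s) (b := x)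
  have h3 : Function.minimalPeriod s x =
      Fintype.card (MulAction.orbit (Subgroup.zpowers s) x) := h2
  rw [h3, ← Nat.card_eq_fintype_card]
  refine Nat.card_congr (Equiv.subtypeEquivRight fun y => ?_)
  constructor
  · rintro ⟨i, hi⟩
    exact ⟨⟨s ^ i, i, rfl⟩, hi⟩
  · rintro ⟨⟨g, i, rfl⟩, hg⟩
    exact ⟨i, hg⟩

private theorem RB_len_pos (s : Perm α) (x : α) : 1 ≤ len s x := by
  rw [← RB_card_sameCycle]
  have : Nonempty {y // SameCycle s x y} := ⟨⟨x, SameCycle.refl s x⟩⟩
  exact Nat.card_pos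

private theorem RB_len_le (s : Perm α) (x : α) : len s x ≤ Fintype.card α := by
  rw [← RB_card_sameCycle, ← Nat.card_eq_fintype_card]
  exact Nat.card_le_card_of_injective _ Subtype.val_injective

private theorem RB_len_eq (s : Perm α) {x y : α} (h : SameCycle s x y) : len s x = len s y := by
  rw [← RB_card_sameCycle, ← RB_card_sameCycle]
  exact Nat.card_congr (Equiv.subtypeEquivRight fun z =>
    ⟨fun hz => h.symm.trans hz, fun hz => h.trans hz⟩)

theorem ncyc_eq_sum (s : Perm α) : (ncyc s : ℝ) = ∑ x, (1 : ℝ) / (len s x : ℝ) := by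
  classical
  have h1 : ∑ x, (1 : ℝ) / (len s x : ℝ) =
      ∑ c : Quotient (SameCycle.setoid s),
        ∑ x ∈ Finset.univ.filter (fun x => (Quotient.mk (SameCycle.setoid s) x) = c),
          (1 : ℝ) / (len s x : ℝ) :=
    (Finset.sum_fiberwise _ _ _).symm
  rw [h1]
  have h2 : ∀ c : Quotient (SameCycle.setoid s),
      ∑ x ∈ Finset.univ.filter (fun x => (Quotient.mk (SameCycle.setoid s) x) = c),
          (1 : ℝ) / (len s x : ℝ) = 1 := by
    intro c
    obtain ⟨x0, rfl⟩ := Quotient.exists_rep c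
    have h3 : ∀ x, Quotient.mk (SameCycle.setoid s) x = Quotient.mk (SameCycle.setoid s) x0 ↔
        SameCycle s x0 x := by
      intro x
      rw [Quotient.eq]
      exact ⟨fun h => SameCycle.symm h, fun h => SameCycle.symm h⟩
    have h4 : ∀ x ∈ Finset.univ.filter (fun x => Quotient.mk (SameCycle.setoid s) x =
        Quotient.mk (SameCycle.setoid s) x0), (1 : ℝ) / (len s x : ℝ) =
          1 / (len s x0 : ℝ) := by
      intro x hx
      rw [RB_len_eq s ((h3 x).1 (Finset.mem_filter.1 hx).2)]
    rw [Finset.sum_congr rfl h4, Finset.sum_const, nsmul_eq_mul]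
    have h5 : (Finset.univ.filter (fun x => Quotient.mk (SameCycle.setoid s) x =
        Quotient.mk (SameCycle.setoid s) x0)).card = len s x0 := by
      rw [← RB_card_sameCycle, Nat.card_eq_fintype_card, Fintype.card_subtype]
      congr 1
      ext x
      simp only [Finset.mem_filter, Finset.mem_univ, true_and]
      exact h3 x
    rw [h5]
    have h6 : (len s x0 : ℝ) ≠ 0 := by
      have := RB_len_pos s x0
      have h7 : (0 : ℝ) < len s x0 := by exact_mod_cast this
      exact h7.ne'
    field_simp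
  rw [Finset.sum_congr rfl fun c _ => h2 c, Finset.sum_const, Finset.card_univ, nsmul_eq_mul,
    mul_one, ncyc, Nat.card_eq_fintype_card]

theorem sum_ncyc_le (h : 1 ≤ Fintype.card α) :
    ∑ s : Perm α, (ncyc s : ℝ) ≤
      ((Fintype.card α).factorial : ℝ) * (1 + Real.log (Fintype.card α : ℝ)) := by
  classical
  set n := Fintype.card α with hn
  have h1 : ∀ x : α, ∑ s : Perm α, (1 : ℝ) / (len s x : ℝ) =
      ((n - 1).factorial : ℝ) * ∑ l ∈ Finset.Icc 1 n, (1 : ℝ) / (l : ℝ) := by
    intro x
    have h2 : ∑ s : Perm α, (1 : ℝ) / (len s x : ℝ) = ∑ l ∈ Finset.Icc 1 n,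
        ∑ s ∈ Finset.univ.filter (fun s : Perm α => len s x = l), (1 : ℝ) / (len s x : ℝ) := by
      refine (Finset.sum_fiberwise_of_maps_to (s := Finset.univ) (t := Finset.Icc 1 n)
        (g := fun s : Perm α => len s x) (fun s _ => ?_) _).symm
      exact Finset.mem_Icc.2 ⟨RB_len_pos s x, RB_len_le s x⟩
    rw [h2, Finset.mul_sum]
    refine Finset.sum_congr rfl fun l hl => ?_
    obtain ⟨hl1, hl2⟩ := Finset.mem_Icc.1 hl
    have h3 : ∀ s ∈ Finset.univ.filter (fun s : Perm α => len s x = l),
        (1 : ℝ) / (len s x : ℝ) = 1 / (l : ℝ) := by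
      intro s hs
      rw [(Finset.mem_filter.1 hs).2]
    rw [Finset.sum_congr rfl h3, Finset.sum_const, nsmul_eq_mul]
    congr 2
    rw [← card_period x l hl1 hl2, Nat.card_eq_fintype_card, Fintype.card_subtype]
  have h2 : ∑ s : Perm α, (ncyc s : ℝ) =
      (n : ℝ) * (((n - 1).factorial : ℝ) * ∑ l ∈ Finset.Icc 1 n, (1 : ℝ) / (l : ℝ)) := by
    rw [Finset.sum_congr rfl fun s _ => ncyc_eq_sum s, Finset.sum_comm,
      Finset.sum_congr rfl fun x _ => h1 x, Finset.sum_const, Finset.card_univ, nsmul_eq_mul]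
  have h3 : (n.factorial : ℝ) = (n : ℝ) * ((n - 1).factorial : ℝ) := by
    have := Nat.mul_factorial_pred (by omega : n ≠ 0)
    exact_mod_cast this.symm
  have h4 : ∑ l ∈ Finset.Icc 1 n, (1 : ℝ) / (l : ℝ) ≤ 1 + Real.log (n : ℝ) := by
    have h5 := harmonic_le_one_add_log n
    have h6 : (harmonic n : ℝ) = ∑ l ∈ Finset.Icc 1 n, (1 : ℝ) / (l : ℝ) := by
      rw [harmonic_eq_sum_Icc]
      push_cast
      exact Finset.sum_congr rfl fun l _ => (one_div _).symm
    rw [← h6]
    exact h5
  rw [h2, h3, ← mul_assoc]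
  exact mul_le_mul_of_nonneg_left h4 (by positivity)

theorem exists_long (s : Perm α) (h : 1 ≤ Fintype.card α) :
    ∃ x, Fintype.card α ≤ ncyc s * len s x := by
  classical
  by_contra hcon
  push Not at hcon
  have hne : (Finset.univ : Finset α).Nonempty := by
    rw [← Finset.card_pos, Finset.card_univ]
    omega
  have hn : (0 : ℝ) < Fintype.card α := by exact_mod_cast h
  have h1 : ∀ x ∈ (Finset.univ : Finset α),
      (ncyc s : ℝ) / (Fintype.card α : ℝ) < (1 : ℝ) / (len s x : ℝ) := by
    intro x _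
    have h2 : (0 : ℝ) < len s x := by exact_mod_cast RB_len_pos s x
    rw [div_lt_div_iff₀ hn h2, one_mul]
    exact_mod_cast hcon x
  have h2 := Finset.sum_lt_sum_of_nonempty hne h1
  rw [← ncyc_eq_sum, Finset.sum_const, Finset.card_univ, nsmul_eq_mul,
    mul_div_cancel₀ _ hn.ne'] at h2
  exact lt_irrefl _ h2

end general

end RND40
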