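import Mathlib
import Pool.Agent.Lib_helper40.RND.Defs

set_option autoImplicit false

/-! Block RD (helper97). -/

namespace RND40

open Equiv Equiv.Perm

variable {α : Type*} [Fintype α] [DecidableEq α]

theorem card_sameCycle (s : Perm α) (x : α) : Nat.card {y // SameCycle s x y} = len s x := by
  classical
  unfold len
  have h1 : (fun y => s • y) = (s : α → α) := rfl
  have h2 := MulAction.minimalPeriod_eq_card (a := s) (b := x)
  have h3 : Function.minimalPeriod s x =
      Fintype.card (MulAction.orbit (Subgroup.zpowers s) x) := h2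
  rw [h3, ← Nat.card_eq_fintype_card]
  refine Nat.card_congr (Equiv.subtypeEquivRight fun y => ?_)
  constructor
  · rintro ⟨i, hi⟩
    exact ⟨⟨s ^ i, i, rfl⟩, hi⟩
  · rintro ⟨⟨g, i, rfl⟩, hg⟩
    exact ⟨i, hg⟩

private theorem RD_len_eq (s : Perm α) {x y : α} (h : SameCycle s x y) : len s x = len s y := by
  rw [← card_sameCycle, ← card_sameCycle]
  exact Nat.card_congr (Equiv.subtypeEquivRight fun z =>
    ⟨fun hz => h.symm.trans hz, fun hz => h.trans hz⟩)

private theorem RD_len_pos (s : Perm α) (x : α) : 1 ≤ len s x := by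
  rw [← card_sameCycle]
  have : Nonempty {y // SameCycle s x y} := ⟨⟨x, SameCycle.refl s x⟩⟩
  exact Nat.card_pos

private theorem RD_len_le (s : Perm α) (x : α) : len s x ≤ Fintype.card α := by
  rw [← card_sameCycle, ← Nat.card_eq_fintype_card]
  exact Nat.card_le_card_of_injective _ Subtype.val_injective

private theorem RD_pow (s : Perm α) (x : α) (N : ℕ) : (s ^ N) x = x ↔ len s x ∣ N := by
  unfold len
  rw [← Function.isPeriodicPt_iff_minimalPeriod_dvd, Function.IsPeriodicPt,
    Function.IsFixedPt, ← Equiv.Perm.iterate_eq_pow]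

theorem exists_pow (s : Perm α) (x : α) (p : ℕ) (hp : p.Prime) (hx : p ∣ len s x)
    (hy : ∀ y, ¬ SameCycle s x y → ¬ p ∣ len s y) :
    ∃ N : ℕ, ∀ y, (s ^ N) y ≠ y ↔ SameCycle s x y := by
  refine ⟨∏ j ∈ (Finset.Icc 1 (Fintype.card α)).filter (fun j => ¬ p ∣ j), j, fun y => ?_⟩
  rw [Ne, RD_pow]
  constructor
  · intro h
    by_contra hc
    refine h (Finset.dvd_prod_of_mem _ ?_)
    exact Finset.mem_filter.2 ⟨Finset.mem_Icc.2 ⟨RD_len_pos s y, RD_len_le s y⟩, hy y hc⟩
  · intro h hd
    rw [← RD_len_eq s h] at hd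
    obtain ⟨j, hj, hpj⟩ := (Prime.dvd_finsetProd_iff hp.prime _).1 (hx.trans hd)
    exact (Finset.mem_filter.1 hj).2 hpj

end RND40
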