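import Mathlib
import Pool.Agent.Lib_helper40.RND.Defs

set_option autoImplicit false

/-! Block RE: numbers with a large prime factor (helper37). -/

namespace RND40

open Finset

/-- the Euler product over the primes below `w` -/
private noncomputable def RE_f (w : ℕ) : ℝ := ∏ p ∈ w.primesBelow, (1 - (p : ℝ)⁻¹)⁻¹

private lemma RE_factor {p : ℕ} (hp : 2 ≤ p) :
    (0 : ℝ) < (1 - (p : ℝ)⁻¹)⁻¹ ∧ (1 - (p : ℝ)⁻¹)⁻¹ = (p : ℝ) / ((p : ℝ) - 1) := by
  have h1 : (2 : ℝ) ≤ p := by exact_mod_cast hp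
  have h2 : (0 : ℝ) < p := by linarith
  have h3 : (0 : ℝ) < (p : ℝ) - 1 := by linarith
  have h4 : (1 : ℝ) - (p : ℝ)⁻¹ = ((p : ℝ) - 1) / p := by field_simp
  rw [h4, inv_div]
  exact ⟨div_pos h2 h3, rfl⟩

private lemma RE_f_pos (w : ℕ) : 0 < RE_f w :=
  Finset.prod_pos fun _ hp => (RE_factor (Nat.prime_of_mem_primesBelow hp).two_le).1

private lemma RE_f_succ (w : ℕ) (hw : ¬ w.Prime) : RE_f (w + 1) = RE_f w := by
  unfold RE_f
  rw [Nat.primesBelow_succ, if_neg hw]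

private lemma RE_f_succ' (w : ℕ) (hw : w.Prime) :
    RE_f (w + 1) = (w : ℝ) / ((w : ℝ) - 1) * RE_f w := by
  unfold RE_f
  rw [Nat.primesBelow_succ, if_pos hw, Finset.prod_insert, (RE_factor hw.two_le).2]
  intro h
  exact lt_irrefl _ (Nat.lt_of_mem_primesBelow h)

private lemma RE_f_succ_le (w : ℕ) (hw : 2 ≤ w) :
    RE_f (w + 1) ≤ (w : ℝ) / ((w : ℝ) - 1) * RE_f w := by
  by_cases h : w.Prime
  · exact (RE_f_succ' w h).le
  · rw [RE_f_succ w h]
    have h1 : (2 : ℝ) ≤ w := by exact_mod_cast hw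
    have h2 : 1 ≤ (w : ℝ) / ((w : ℝ) - 1) := by
      rw [one_le_div (by linarith)]
      linarith
    nlinarith [RE_f_pos w]

private lemma RE_odd (j : ℕ) : RE_f (2 * j + 3) ^ 2 ≤ 4 * (2 * (j : ℝ) + 1) := by
  induction j with
  | zero =>
    have h1 : RE_f 3 = 2 := by
      have h2 : RE_f 3 = ((2 : ℕ) : ℝ) / (((2 : ℕ) : ℝ) - 1) * RE_f 2 := RE_f_succ' 2 Nat.prime_two
      have h3 : RE_f 2 = RE_f 1 := RE_f_succ 1 Nat.not_prime_one
      have h4 : RE_f 1 = RE_f 0 := RE_f_succ 0 Nat.not_prime_zero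
      have h5 : RE_f 0 = 1 := by simp [RE_f, Nat.primesBelow]
      rw [h2, h3, h4, h5]
      norm_num
    rw [show 2 * 0 + 3 = 3 from rfl, h1]
    norm_num
  | succ j ih =>
    have hw : (2 * j + 3 + 1) = 2 * j + 4 := rfl
    have h1 : RE_f (2 * j + 4 + 1) = RE_f (2 * j + 4) := by
      apply RE_f_succ
      intro h
      have := (Nat.prime_dvd_prime_iff_eq Nat.prime_two h).1 ⟨j + 2, by ring⟩
      omega
    have h2 := RE_f_succ_le (2 * j + 3) (by omega)
    rw [hw, ← h1] at h2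
    have h3 : (2 * (j + 1) + 3) = 2 * j + 4 + 1 := by ring
    rw [h3]
    push_cast at h2 ⊢
    have hj : (0 : ℝ) ≤ j := Nat.cast_nonneg j
    have h4 : (0 : ℝ) < 2 * j + 2 := by linarith
    have h5 : (2 * (j : ℝ) + 3) - 1 = 2 * j + 2 := by ring
    rw [h5] at h2
    have h6 := RE_f_pos (2 * j + 4 + 1)
    calc RE_f (2 * j + 4 + 1) ^ 2 ≤ ((2 * (j : ℝ) + 3) / (2 * j + 2) * RE_f (2 * j + 3)) ^ 2 :=
          pow_le_pow_left₀ h6.le h2 2
      _ = ((2 * (j : ℝ) + 3) / (2 * j + 2)) ^ 2 * RE_f (2 * j + 3) ^ 2 := by rw [mul_pow]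
      _ ≤ ((2 * (j : ℝ) + 3) / (2 * j + 2)) ^ 2 * (4 * (2 * (j : ℝ) + 1)) :=
          mul_le_mul_of_nonneg_left ih (sq_nonneg _)
      _ ≤ 4 * (2 * ((j : ℝ) + 1) + 1) := by
          rw [div_pow, div_mul_eq_mul_div, div_le_iff₀ (by positivity)]
          nlinarith

private lemma RE_f_le (w : ℕ) (hw : 1 ≤ w) : RE_f w ≤ 2 * Real.sqrt w := by
  have key : RE_f w ^ 2 ≤ 4 * (w : ℝ) := by
    rcases Nat.even_or_odd' w with ⟨j, rfl | rfl⟩
    · rcases Nat.lt_or_ge j 2 with h | h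
      · have hj : j = 1 := by omega
        subst hj
        have h3 : RE_f 2 = RE_f 1 := RE_f_succ 1 Nat.not_prime_one
        have h4 : RE_f 1 = RE_f 0 := RE_f_succ 0 Nat.not_prime_zero
        have h5 : RE_f 0 = 1 := by simp [RE_f, Nat.primesBelow]
        rw [show 2 * 1 = 2 from rfl, h3, h4, h5]
        norm_num
      · obtain ⟨i, rfl⟩ : ∃ i, j = i + 2 := ⟨j - 2, by omega⟩
        have h1 := RE_odd (i + 1)
        have h2 : RE_f (2 * (i + 2) + 1) = RE_f (2 * (i + 2)) := by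
          apply RE_f_succ
          intro h
          have := (Nat.prime_dvd_prime_iff_eq Nat.prime_two h).1 ⟨i + 2, rfl⟩
          omega
        have h3 : 2 * (i + 1) + 3 = 2 * (i + 2) + 1 := by ring
        rw [h3, h2] at h1
        refine h1.trans ?_
        push_cast
        linarith
    · rcases Nat.eq_zero_or_pos j with rfl | hj
      · have h4 : RE_f 1 = RE_f 0 := RE_f_succ 0 Nat.not_prime_zero
        have h5 : RE_f 0 = 1 := by simp [RE_f, Nat.primesBelow]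
        rw [show 2 * 0 + 1 = 1 from rfl, h4, h5]
        norm_num
      · obtain ⟨i, rfl⟩ : ∃ i, j = i + 1 := ⟨j - 1, by omega⟩
        have h1 := RE_odd i
        have h3 : 2 * (i + 1) + 1 = 2 * i + 3 := by ring
        rw [h3]
        refine h1.trans ?_
        push_cast
        linarith
  have h1 : RE_f w = Real.sqrt (RE_f w ^ 2) := (Real.sqrt_sq (RE_f_pos w).le).symm
  rw [h1]
  calc Real.sqrt (RE_f w ^ 2) ≤ Real.sqrt (4 * (w : ℝ)) := Real.sqrt_le_sqrt key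
    _ = 2 * Real.sqrt w := by
      rw [Real.sqrt_mul (by norm_num)]
      congr 1
      rw [show (4 : ℝ) = 2 ^ 2 by norm_num]
      exact Real.sqrt_sq (by norm_num)

private lemma RE_smooth (w z : ℕ) :
    ∑ l ∈ (Finset.Icc 1 z).filter (fun l => l ∈ Nat.smoothNumbers w), (1 : ℝ) / (l : ℝ) ≤
      RE_f w := by
  classical
  set f : ℕ →* ℝ :=
    { toFun := fun n => (n : ℝ)⁻¹
      map_one' := by simp
      map_mul' := fun a b => by push_cast; rw [mul_inv] } with hf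
  have hlt : ∀ {p : ℕ}, p.Prime → ‖f p‖ < 1 := by
    intro p hp
    have h1 : (1 : ℝ) < p := by exact_mod_cast hp.one_lt
    show ‖((p : ℝ))⁻¹‖ < 1
    rw [norm_inv, Real.norm_natCast]
    exact inv_lt_one_of_one_lt₀ h1
  obtain ⟨-, h2⟩ := EulerProduct.summable_and_hasSum_smoothNumbers_prod_primesBelow_geometric
    hlt w
  have h3 : RE_f w = ∏ p ∈ w.primesBelow, (1 - f p)⁻¹ := rfl
  rw [h3]
  set s := (Finset.Icc 1 z).filter (fun l => l ∈ Nat.smoothNumbers w) with hs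
  have hmem : ∀ l ∈ s, l ∈ Nat.smoothNumbers w := fun l hl => (Finset.mem_filter.1 hl).2
  have h4 := sum_le_hasSum (s.attach.image fun l => (⟨l.1, hmem l.1 l.2⟩ : Nat.smoothNumbers w))
    (fun m _ => by
      show (0 : ℝ) ≤ ((m : ℕ) : ℝ)⁻¹
      positivity) h2
  refine le_trans (le_of_eq ?_) h4
  rw [Finset.sum_image]
  · rw [Finset.sum_attach s (fun l => f l)]
    refine Finset.sum_congr rfl fun l _ => ?_
    rw [one_div]
    rfl
  · intro a _ b _ hab
    exact Subtype.ext (congrArg (fun m : Nat.smoothNumbers w => (m : ℕ)) hab)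

open Classical in
theorem euler_bound (w z : ℕ) (hw : 1 ≤ w) (hz : 1 ≤ z) :
    Real.log (z : ℝ) - 2 * Real.sqrt (w : ℝ) ≤
      ∑ l ∈ (Finset.Icc 1 z).filter (fun l => ∃ p, p.Prime ∧ w ≤ p ∧ p ∣ l), (1 : ℝ) / (l : ℝ) := by
  have h1 : Real.log (z : ℝ) ≤ ∑ l ∈ Finset.Icc 1 z, (1 : ℝ) / (l : ℝ) := by
    have h2 := log_add_one_le_harmonic z
    have h3 : (harmonic z : ℝ) = ∑ l ∈ Finset.Icc 1 z, (1 : ℝ) / (l : ℝ) := by
      rw [harmonic_eq_sum_Icc]
      push_cast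
      exact Finset.sum_congr rfl fun l _ => (one_div _).symm
    rw [← h3]
    refine le_trans (Real.log_le_log (by exact_mod_cast hz) ?_) h2
    push_cast
    linarith
  have h2 := Finset.sum_filter_add_sum_filter_not (Finset.Icc 1 z)
    (fun l => ∃ p, p.Prime ∧ w ≤ p ∧ p ∣ l) (fun l => (1 : ℝ) / (l : ℝ))
  have h3 : ∑ l ∈ (Finset.Icc 1 z).filter (fun l => ¬ ∃ p, p.Prime ∧ w ≤ p ∧ p ∣ l),
      (1 : ℝ) / (l : ℝ) ≤ 2 * Real.sqrt w := by
    refine le_trans (le_trans ?_ (RE_smooth w z)) (RE_f_le w hw)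
    refine Finset.sum_le_sum_of_subset_of_nonneg ?_ fun l _ _ => by positivity
    intro l hl
    rw [Finset.mem_filter] at hl ⊢
    refine ⟨hl.1, ?_⟩
    rw [Nat.mem_smoothNumbers']
    intro p hp hpl
    by_contra hcon
    push Not at hcon
    exact hl.2 ⟨p, hp, hcon, hpl⟩
  linarith

end RND40
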