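import Pool.Agent.Lib_helper40.RND.Defs

set_option autoImplicit false

/-! Block RF (helper39): the number of equivalence relations preserved by a permutation. -/

namespace RND40

open Equiv Equiv.Perm

section rf

variable {α : Type*} [Fintype α] [DecidableEq α]

private theorem rf_pow {τ : Perm α} {r : Setoid α} (h : ∀ x y, r x y → r (τ x) (τ y)) (k : ℕ)
    {x y : α} (hxy : r x y) : r ((τ ^ k) x) ((τ ^ k) y) := by
  induction k with
  | zero => simpa using hxy
  | succ k ih =>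
    rw [pow_succ', Perm.mul_apply, Perm.mul_apply]
    exact h _ _ ih

private theorem rf_inv (τ : Perm α) (k : ℕ) : ∃ k' : ℕ, τ ^ k' * τ ^ k = 1 := by
  refine ⟨(orderOf τ - 1) * k, ?_⟩
  rw [← pow_add]
  have h1 : 1 ≤ orderOf τ := orderOf_pos τ
  have h2 : (orderOf τ - 1) * k + k = orderOf τ * k := by
    obtain ⟨m, hm⟩ : ∃ m, orderOf τ = m + 1 := ⟨orderOf τ - 1, by omega⟩
    rw [hm, Nat.add_sub_cancel]
    ring
  rw [h2, pow_mul, pow_orderOf_eq_one, one_pow]

private def rfS (τ : Perm α) (r : Setoid α) (x : α) : Set α := {y | ∃ t : ℕ, r x ((τ ^ t) y)}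

private theorem rfS_self (τ : Perm α) (r : Setoid α) (x : α) : (rfS τ r x).Nonempty :=
  ⟨x, 0, by simpa using r.refl x⟩

private theorem rfS_eq {τ : Perm α} {r : Setoid α} (h : ∀ x y, r x y → r (τ x) (τ y)) {x x' : α}
    {k : ℕ} (hk : r x ((τ ^ k) x')) : rfS τ r x = rfS τ r x' := by
  ext y
  constructor
  · rintro ⟨t, ht⟩
    obtain ⟨k', hk'⟩ := rf_inv τ k
    refine ⟨k' + t, ?_⟩
    have h1 := rf_pow h k' (r.trans (r.symm hk) ht)
    rw [← Perm.mul_apply, hk', Perm.one_apply] at h1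
    rwa [pow_add, Perm.mul_apply]
  · rintro ⟨t, ht⟩
    refine ⟨k + t, ?_⟩
    have h1 := rf_pow h k ht
    rw [pow_add, Perm.mul_apply]
    exact r.trans hk h1

private noncomputable def rfY (τ : Perm α) (r : Setoid α) (x : α) : α :=
  Classical.epsilon (h := ⟨x⟩) fun y => y ∈ rfS τ r x

private theorem rfY_mem (τ : Perm α) (r : Setoid α) (x : α) : rfY τ r x ∈ rfS τ r x :=
  Classical.epsilon_spec_aux (h := ⟨x⟩) (fun y => y ∈ rfS τ r x) (rfS_self τ r x)

private theorem rfY_eq {τ : Perm α} {r : Setoid α} {x x' : α} (h : rfS τ r x = rfS τ r x') :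
    rfY τ r x = rfY τ r x' := by
  unfold rfY
  rw [h]

private theorem rfZ_ex (τ : Perm α) (r : Setoid α) (x : α) :
    ∃ z, r x z ∧ ∃ t : ℕ, z = (τ ^ t) (rfY τ r x) := by
  obtain ⟨t, ht⟩ := rfY_mem τ r x
  exact ⟨_, ht, t, rfl⟩

private noncomputable def rfZ (τ : Perm α) (r : Setoid α) (x : α) : α := (rfZ_ex τ r x).choose

private def rfT {τ : Perm α} {r : Setoid α} (h : ∀ x y, r x y → r (τ x) (τ y)) :
    Quotient r → Quotient r := Quotient.map τ h

private theorem rfT_iter {τ : Perm α} {r : Setoid α} (h : ∀ x y, r x y → r (τ x) (τ y)) (k : ℕ)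
    (x : α) : (rfT h)^[k] (Quotient.mk r x) = Quotient.mk r ((τ ^ k) x) := by
  induction k with
  | zero => simp
  | succ k ih =>
    rw [Function.iterate_succ_apply', ih, pow_succ', Perm.mul_apply]
    rfl

private theorem rf_key {τ : Perm α} {r : Setoid α} (h : ∀ x y, r x y → r (τ x) (τ y)) (x : α)
    (a b : ℕ) : r ((τ ^ a) x) ((τ ^ b) x) ↔
      a % Function.minimalPeriod (rfT h) (Quotient.mk r x) =
        b % Function.minimalPeriod (rfT h) (Quotient.mk r x) := by
  have hpos : 0 < Function.minimalPeriod (rfT h) (Quotient.mk r x) := by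
    refine Function.IsPeriodicPt.minimalPeriod_pos (orderOf_pos τ) ?_
    show (rfT h)^[orderOf τ] (Quotient.mk r x) = _
    rw [rfT_iter, pow_orderOf_eq_one, Perm.one_apply]
  have h1 : r ((τ ^ a) x) ((τ ^ b) x) ↔
      (rfT h)^[a] (Quotient.mk r x) = (rfT h)^[b] (Quotient.mk r x) := by
    rw [rfT_iter, rfT_iter]
    exact (Quotient.eq (r := r)).symm
  rw [h1, ← Function.iterate_mod_minimalPeriod_eq (n := a),
    ← Function.iterate_mod_minimalPeriod_eq (n := b)]
  constructor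
  · intro h2
    exact Function.iterate_injOn_Iio_minimalPeriod (Nat.mod_lt _ hpos) (Nat.mod_lt _ hpos) h2
  · intro h2
    rw [h2]

private theorem rf_D_le {τ : Perm α} {r : Setoid α} (h : ∀ x y, r x y → r (τ x) (τ y)) (x : α) :
    Function.minimalPeriod (rfT h) (Quotient.mk r x) < Fintype.card α + 1 := by
  classical
  have h1 : (Finset.range (Function.minimalPeriod (rfT h) (Quotient.mk r x))).card ≤
      (Finset.univ : Finset α).card := by
    refine Finset.card_le_card_of_injOn (fun k => (τ ^ k) x) (fun _ _ => Finset.mem_univ _) ?_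
    intro a ha b hb hab
    have h2 := (rf_key h x a b).1 (by
      have : (τ ^ a) x = (τ ^ b) x := hab
      rw [this])
    rw [Finset.coe_range] at ha hb
    rwa [Nat.mod_eq_of_lt ha, Nat.mod_eq_of_lt hb] at h2
  rw [Finset.card_range, Finset.card_univ] at h1
  omega

private noncomputable def rfF (τ : Perm α) (r : {r : Setoid α // ∀ x y, r x y → r (τ x) (τ y)}) :
    Quotient (SameCycle.setoid τ) → α × α × Fin (Fintype.card α + 1) := fun c =>
  (rfY τ r.1 c.out, rfZ τ r.1 c.out,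
    ⟨Function.minimalPeriod (rfT r.2) (Quotient.mk r.1 (rfY τ r.1 c.out)), rf_D_le r.2 _⟩)

private theorem rfF_le (τ : Perm α) (r r' : {r : Setoid α // ∀ x y, r x y → r (τ x) (τ y)})
    (h : rfF τ r = rfF τ r') (x x' : α) (hx : r.1 x x') : r'.1 x x' := by
  have key : ∀ x : α, ∃ i j : ℕ, x = (τ ^ i) (Quotient.mk (SameCycle.setoid τ) x).out ∧
      (τ ^ j) x = (Quotient.mk (SameCycle.setoid τ) x).out := by
    intro x
    have h1 : SameCycle τ (Quotient.mk (SameCycle.setoid τ) x).out x :=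
      Quotient.exact (Quotient.out_eq (Quotient.mk (SameCycle.setoid τ) x))
    obtain ⟨i, hi⟩ := h1.exists_nat_pow_eq
    obtain ⟨j, hj⟩ := h1.symm.exists_nat_pow_eq
    exact ⟨i, j, hi.symm, hj⟩
  obtain ⟨i, i', hi, hi'⟩ := key x
  obtain ⟨j, _, hj, _⟩ := key x'
  set c := Quotient.mk (SameCycle.setoid τ) x with hc
  set c' := Quotient.mk (SameCycle.setoid τ) x' with hc'
  have h1 : r.1 c.out ((τ ^ (i' + j)) c'.out) := by
    have := rf_pow r.2 i' hx
    rw [hi', hj, ← Perm.mul_apply, ← pow_add] at this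
    exact this
  have h2 : rfY τ r.1 c.out = rfY τ r.1 c'.out := rfY_eq (rfS_eq r.2 h1)
  have hc1 := congrFun h c
  have hc2 := congrFun h c'
  simp only [rfF, Prod.mk.injEq, Fin.mk.injEq] at hc1 hc2
  obtain ⟨hy1, hz1, hd1⟩ := hc1
  obtain ⟨hy2, hz2, _⟩ := hc2
  obtain ⟨ha, a, ha'⟩ := (rfZ_ex τ r.1 c.out).choose_spec
  obtain ⟨hb, b, hb'⟩ := (rfZ_ex τ r.1 c'.out).choose_spec
  have ha2 := (rfZ_ex τ r'.1 c.out).choose_spec.1
  have hb2 := (rfZ_ex τ r'.1 c'.out).choose_spec.1
  change r.1 c.out (rfZ τ r.1 c.out) at ha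
  change r.1 c'.out (rfZ τ r.1 c'.out) at hb
  change r'.1 c.out (rfZ τ r'.1 c.out) at ha2
  change r'.1 c'.out (rfZ τ r'.1 c'.out) at hb2
  change rfZ τ r.1 c.out = _ at ha'
  change rfZ τ r.1 c'.out = _ at hb'
  rw [← hz1, ha'] at ha2
  rw [← hz2, hb', ← h2] at hb2
  rw [ha'] at ha
  rw [hb', ← h2] at hb
  set y := rfY τ r.1 c.out with hy
  have h3 : r.1 ((τ ^ (i + a)) y) ((τ ^ (j + b)) y) := by
    have e1 := rf_pow r.2 i ha
    have e2 := rf_pow r.2 j hb
    rw [← hi, ← Perm.mul_apply, ← pow_add] at e1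
    rw [← hj, ← Perm.mul_apply, ← pow_add] at e2
    exact r.1.trans (r.1.symm e1) (r.1.trans hx e2)
  rw [rf_key r.2] at h3
  rw [hd1, ← hy1, ← rf_key r'.2] at h3
  have e1 := rf_pow r'.2 i ha2
  have e2 := rf_pow r'.2 j hb2
  rw [← hi, ← Perm.mul_apply, ← pow_add] at e1
  rw [← hj, ← Perm.mul_apply, ← pow_add] at e2
  exact r'.1.trans e1 (r'.1.trans h3 (r'.1.symm e2))

theorem card_inv_setoid (τ : Perm α) :
    Nat.card {r : Setoid α // ∀ x y, r x y → r (τ x) (τ y)} ≤
      (Fintype.card α + 1) ^ (3 * ncyc τ) := by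
  classical
  have hinj : Function.Injective (rfF τ) := by
    intro r r' h
    refine Subtype.ext (Setoid.ext fun x x' => ⟨fun hx => ?_, fun hx => ?_⟩)
    · exact rfF_le τ r r' h x x' hx
    · exact rfF_le τ r' r h.symm x x' hx
  have h1 := Nat.card_le_card_of_injective _ hinj
  refine h1.trans ?_
  rw [Nat.card_fun, Nat.card_prod, Nat.card_prod, Nat.card_eq_fintype_card (α := α), Nat.card_fin,
    pow_mul]
  refine Nat.pow_le_pow_left ?_ _
  calc Fintype.card α * (Fintype.card α * (Fintype.card α + 1)) ≤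
      (Fintype.card α + 1) * ((Fintype.card α + 1) * (Fintype.card α + 1)) := by gcongr <;> omega
    _ = (Fintype.card α + 1) ^ 3 := by ring

end rf

end RND40
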