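import Mathlib

set_option autoImplicit false

/-! Random permutations, block RG: permutations preserving an equivalence relation. -/

namespace RND40

open Equiv Equiv.Perm

variable {α : Type*} [Fintype α] [DecidableEq α]

private theorem RG_pow (r : Setoid α) (a : Perm α) (h : ∀ x y, r x y → r (a x) (a y)) (k : ℕ)
    (x y : α) (hxy : r x y) : r ((a ^ k) x) ((a ^ k) y) := by
  induction k with
  | zero => simpa using hxy
  | succ k ih =>
    rw [pow_succ', Perm.mul_apply, Perm.mul_apply]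
    exact h _ _ ih

private theorem RG_inv (r : Setoid α) (a : Perm α) (h : ∀ x y, r x y → r (a x) (a y))
    (x y : α) (hxy : r x y) : r (a⁻¹ x) (a⁻¹ y) := by
  have h1 : a⁻¹ = a ^ (Fintype.card (Perm α) - 1) := by
    rw [inv_eq_iff_mul_eq_one, ← pow_succ']
    rw [Nat.sub_add_cancel Fintype.card_pos, pow_card_eq_one]
  rw [h1]
  exact RG_pow r a h _ x y hxy

private theorem RG_iff (r : Setoid α) (a : Perm α) (h : ∀ x y, r x y → r (a x) (a y))
    (x y : α) : r (a⁻¹ x) (a⁻¹ y) ↔ r x y := by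
  refine ⟨fun h1 => ?_, RG_inv r a h x y⟩
  have := h _ _ h1
  simpa using this

private theorem RG_choose (r : Setoid α) (h1 : ∀ x, ∃ y, y ≠ x ∧ r x y)
    (h2 : ∀ x, 2 * Nat.card {y // r x y} ≤ Fintype.card α) (U : Finset α) (j : ℕ)
    (hU : U.card ≤ 3 * j) (hj : 6 * (j + 1) ≤ Fintype.card α) :
    ∃ x y z, x ∉ U ∧ y ∉ U ∧ z ∉ U ∧ x ≠ y ∧ r x y ∧ ¬ r z y := by
  classical
  have hW : Fintype.card α ≤ Uᶜ.card + 3 * j := by
    rw [Finset.card_compl]
    have := U.card_le_univ
    omega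
  obtain ⟨x, hx, y, hy, hxy, hr⟩ : ∃ x ∈ Uᶜ, ∃ y ∈ Uᶜ, x ≠ y ∧ r x y := by
    by_contra hcon
    push_neg at hcon
    choose f hf1 hf2 using h1
    have hmap : ∀ w ∈ Uᶜ, f w ∈ U := by
      intro w hw
      by_contra hfw
      exact hcon w hw (f w) (Finset.mem_compl.mpr hfw) (hf1 w).symm (hf2 w)
    have hinj : Set.InjOn f (Uᶜ : Finset α) := by
      intro w hw w' hw' hww
      by_contra hne
      have h3 : r w w' := by
        have h4 : r w' (f w) := by rw [hww]; exact hf2 w'
        exact r.trans (hf2 w) (r.symm h4)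
      exact hcon w hw w' hw' hne h3
    have := Finset.card_le_card_of_injOn f hmap hinj
    omega
  obtain ⟨z, hz, hzr⟩ : ∃ z ∈ Uᶜ, ¬ r z y := by
    by_contra hcon
    push_neg at hcon
    have h3 : Uᶜ ⊆ Finset.univ.filter (fun z => r y z) := by
      intro z hz
      exact Finset.mem_filter.mpr ⟨Finset.mem_univ _, r.symm (hcon z hz)⟩
    have h4 := Finset.card_le_card h3
    have h5 := h2 y
    rw [Nat.card_eq_fintype_card, Fintype.card_subtype] at h5
    omega
  exact ⟨x, y, z, Finset.mem_compl.mp hx, Finset.mem_compl.mp hy, Finset.mem_compl.mp hz,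
    hxy, hr, hzr⟩

private theorem RG_step (r : Setoid α) (h1 : ∀ x, ∃ y, y ≠ x ∧ r x y)
    (h2 : ∀ x, 2 * Nat.card {y // r x y} ≤ Fintype.card α) (N : ℕ)
    (h0 : ∃ T : Finset (Perm α), T.card = N ∧ ∀ b ∈ T, ∀ p q, (r (b⁻¹ p) (b⁻¹ q) ↔ r p q))
    (j : ℕ) (hj : 6 * j ≤ Fintype.card α) :
    ∃ (T : Finset (Perm α)) (U : Finset α), U.card ≤ 3 * j ∧ T.card = N * 2 ^ j ∧
      ∀ b ∈ T, ∀ p q, p ∉ U → q ∉ U → (r (b⁻¹ p) (b⁻¹ q) ↔ r p q) := by
  classical
  induction j with
  | zero =>
    obtain ⟨T, hT, hb⟩ := h0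
    exact ⟨T, ∅, by simp, by simpa using hT, fun b hb' p q _ _ => hb b hb' p q⟩
  | succ j ih =>
    obtain ⟨T, U, hU, hT, hb⟩ := ih (by omega)
    obtain ⟨x, y, z, hx, hy, hz, hxy, hr, hzr⟩ := RG_choose r h1 h2 U j hU hj
    have hyz : y ≠ z := by
      rintro rfl
      exact hzr (r.refl y)
    refine ⟨T ∪ T.image (fun b => swap x z * b), insert x (insert y (insert z U)), ?_, ?_, ?_⟩
    · have c1 := Finset.card_insert_le x (insert y (insert z U))
      have c2 := Finset.card_insert_le y (insert z U)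
      have c3 := Finset.card_insert_le z U
      omega
    · rw [Finset.card_union_of_disjoint, Finset.card_image_of_injective _ (mul_right_injective _),
        hT, pow_succ]
      · ring
      · rw [Finset.disjoint_left]
        intro b hbT hbi
        obtain ⟨c, hc, rfl⟩ := Finset.mem_image.mp hbi
        have e1 := (hb _ hbT x y hx hy).mpr hr
        rw [mul_inv_rev, swap_inv, Perm.mul_apply, Perm.mul_apply, swap_apply_left,
          swap_apply_of_ne_of_ne hxy.symm hyz] at e1
        exact hzr ((hb c hc z y hz hy).mp e1)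
    · intro b hbT p q hp hq
      simp only [Finset.mem_insert, not_or] at hp hq
      rcases Finset.mem_union.mp hbT with h | h
      · exact hb b h p q hp.2.2.2 hq.2.2.2
      · obtain ⟨c, hc, rfl⟩ := Finset.mem_image.mp h
        rw [mul_inv_rev, swap_inv, Perm.mul_apply, Perm.mul_apply,
          swap_apply_of_ne_of_ne hp.1 hp.2.2.1, swap_apply_of_ne_of_ne hq.1 hq.2.2.1]
        exact hb c hc p q hp.2.2.2 hq.2.2.2

theorem card_pres_setoid (r : Setoid α) (h1 : ∀ x, ∃ y, y ≠ x ∧ r x y)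
    (h2 : ∀ x, 2 * Nat.card {y // r x y} ≤ Fintype.card α) :
    Nat.card {a : Perm α // ∀ x y, r x y → r (a x) (a y)} * 2 ^ (Fintype.card α / 6) ≤
      (Fintype.card α).factorial := by
  classical
  obtain ⟨T, U, -, hT, -⟩ := RG_step r h1 h2
    (Nat.card {a : Perm α // ∀ x y, r x y → r (a x) (a y)})
    ⟨Finset.univ.filter (fun a : Perm α => ∀ x y, r x y → r (a x) (a y)),
      by rw [Nat.card_eq_fintype_card, Fintype.card_subtype],
      fun b hb p q => RG_iff r b (Finset.mem_filter.mp hb).2 p q⟩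
    (Fintype.card α / 6) (Nat.mul_div_le _ _)
  rw [← hT, ← Fintype.card_perm]
  exact T.card_le_univ

end RND40
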