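import Mathlib
import Pool.Agent.Lib_helper40.RND.Defs

set_option autoImplicit false

namespace RND40

open Equiv Equiv.Perm

section general

variable {α : Type*} [Fintype α] [DecidableEq α]

/-- the permutations with `a x = y` -/
private theorem RH_one (x y : α) :
    ((Finset.univ : Finset (Perm α)).filter (fun a => a x = y)).card * Fintype.card α ≤
      (Fintype.card α).factorial := by
  set B := (Finset.univ : Finset (Perm α)).filter (fun a => a x = y) with hB
  have h1 : (B ×ˢ (Finset.univ : Finset α)).card ≤ (Finset.univ : Finset (Perm α)).card := by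
    apply Finset.card_le_card_of_injOn (fun p : Perm α × α => swap y p.2 * p.1)
    · intro p _
      simp
    · rintro ⟨π, z⟩ hp ⟨π', z'⟩ hp' he
      simp only [Finset.coe_product, Set.mem_prod, Finset.mem_coe, hB, Finset.mem_filter,
        Finset.mem_univ, true_and, and_true] at hp hp'
      simp only at he
      have e1 : (swap y z * π) x = z := by rw [Perm.mul_apply, hp, swap_apply_left]
      have e2 : (swap y z' * π') x = z' := by rw [Perm.mul_apply, hp', swap_apply_left]
      have hzz : z = z' := by rw [← e1, ← e2, he]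
      subst hzz
      have : π = π' := mul_left_cancel he
      rw [this]
  rw [Finset.card_product, Finset.card_univ, Finset.card_univ, Fintype.card_perm] at h1
  exact h1

/-- the permutations which map `T` into itself -/
private theorem RH_set (T : Finset α) :
    ((Finset.univ : Finset (Perm α)).filter (fun a => ∀ x ∈ T, a x ∈ T)).card *
      (Fintype.card α).choose T.card ≤ (Fintype.card α).factorial := by
  classical
  have hex : ∀ S : Finset α, ∃ g : Perm α, S.card = T.card → ∀ x ∈ T, g x ∈ S := by
    intro S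
    by_cases hS : S.card = T.card
    · have e : {x // x ∈ T} ≃ {x // x ∈ S} :=
        Fintype.equivOfCardEq (by rw [Fintype.card_coe, Fintype.card_coe, hS])
      exact ⟨e.extendSubtype, fun _ x hx => e.extendSubtype_mem x hx⟩
    · exact ⟨1, fun h => absurd h hS⟩
  choose g hg using hex
  set B := (Finset.univ : Finset (Perm α)).filter (fun a => ∀ x ∈ T, a x ∈ T) with hB
  have himg : ∀ a ∈ B, ∀ S : Finset α, S.card = T.card → T.image (g S * a) = S := by
    intro a ha S hS
    apply Finset.eq_of_subset_of_card_le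
    · intro y hy
      obtain ⟨x, hx, rfl⟩ := Finset.mem_image.1 hy
      exact hg S hS _ ((Finset.mem_filter.1 ha).2 x hx)
    · rw [Finset.card_image_of_injective _ (g S * a).injective, hS]
  have h1 : (B ×ˢ ((Finset.univ : Finset α).powersetCard T.card)).card ≤
      (Finset.univ : Finset (Perm α)).card := by
    apply Finset.card_le_card_of_injOn (fun p : Perm α × Finset α => g p.2 * p.1)
    · intro p _
      simp
    · rintro ⟨a, S⟩ hp ⟨a', S'⟩ hp' he
      simp only [Finset.coe_product, Set.mem_prod, Finset.mem_coe, Finset.mem_powersetCard] at hp hp'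
      simp only at he
      have hSS : S = S' := by
        rw [← himg a hp.1 S hp.2.2, ← himg a' hp'.1 S' hp'.2.2, he]
      subst hSS
      have : a = a' := mul_left_cancel he
      rw [this]
  rw [Finset.card_product, Finset.card_powersetCard, Finset.card_univ, Finset.card_univ,
    Fintype.card_perm] at h1
  exact h1

/-- the length of a cycle is at most the size of an invariant set -/
private theorem RH_len_le (s : Perm α) (T : Finset α) (hT : ∀ x ∈ T, s x ∈ T) (x : α)
    (hx : x ∈ T) : len s x ≤ T.card := by
  have h0 : ∀ i : ℕ, s^[i] x ∈ T := by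
    intro i
    induction i with
    | zero => exact hx
    | succ i ih =>
      rw [Function.iterate_succ_apply']
      exact hT _ ih
  have h : (Finset.range (len s x)).card ≤ T.card := by
    apply Finset.card_le_card_of_injOn (fun i => s^[i] x)
    · intro i _
      exact h0 i
    · intro i hi j hj he
      rw [Finset.coe_range, Set.mem_Iio] at hi hj
      exact (Function.iterate_injOn_Iio_minimalPeriod (f := s) (x := x)) hi hj he
  rwa [Finset.card_range] at h

private theorem RH_len_pos (s : Perm α) (x : α) : 0 < len s x := by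
  apply Function.minimalPeriod_pos_of_mem_periodicPts
  refine Function.mk_mem_periodicPts (orderOf_pos s) ?_
  show (⇑s)^[orderOf s] x = x
  rw [Equiv.Perm.iterate_eq_pow, pow_orderOf_eq_one]
  rfl

open Classical in
private theorem RH_cycle_le (s : Perm α) (x : α) :
    ((Finset.univ : Finset α).filter (fun y => SameCycle s x y)).card ≤ len s x := by
  have h : ((Finset.univ : Finset α).filter (fun y => SameCycle s x y)) ⊆
      (Finset.range (len s x)).image (fun i => s^[i] x) := by
    intro y hy
    obtain ⟨i, -, hi⟩ := (Finset.mem_filter.1 hy).2.exists_pow_eq'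
    rw [Finset.mem_image]
    refine ⟨i % len s x, Finset.mem_range.2 (Nat.mod_lt _ (RH_len_pos s x)), ?_⟩
    rw [← hi, ← Equiv.Perm.iterate_eq_pow]
    exact Function.iterate_mod_minimalPeriod_eq
  refine (Finset.card_le_card h).trans (Finset.card_image_le.trans ?_)
  rw [Finset.card_range]

private theorem RH_choose (n t : ℕ) (h : 2 * t ≤ n) : 2 ^ t ≤ n.choose t := by
  have h1 : ∀ t : ℕ, 2 ^ t ≤ Nat.centralBinom t := by
    intro t
    induction t with
    | zero => simp
    | succ t ih =>
      have h2 := Nat.succ_mul_centralBinom_succ t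
      have h3 : (t + 1) * 2 ^ (t + 1) ≤ (t + 1) * Nat.centralBinom (t + 1) := by
        rw [h2, pow_succ]
        nlinarith
      exact Nat.le_of_mul_le_mul_left h3 (by omega)
  exact (h1 t).trans (Nat.choose_le_choose t h)

open Classical in
private theorem RH_U (τ : Perm α) (c : ℕ) (hc : ncyc τ ≤ c) :
    ((Finset.univ : Finset α).filter (fun x => len τ x ≤ 2 * c)).card ≤ 2 * c * c := by
  set U := (Finset.univ : Finset α).filter (fun x => len τ x ≤ 2 * c) with hU
  have h1 := Finset.card_le_mul_card_image (f := fun x => (Quotient.mk (SameCycle.setoid τ) x)) U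
    (2 * c) (by
      intro q hq
      obtain ⟨x, hx, rfl⟩ := Finset.mem_image.1 hq
      refine le_trans (Finset.card_le_card (t := (Finset.univ : Finset α).filter
        (fun y => SameCycle τ x y)) ?_) ((RH_cycle_le τ x).trans (Finset.mem_filter.1 hx).2)
      intro y hy
      rw [Finset.mem_filter] at hy ⊢
      exact ⟨Finset.mem_univ _, (Quotient.exact hy.2).symm⟩)
  refine h1.trans (Nat.mul_le_mul_left _ ?_)
  refine le_trans (Finset.card_le_univ _) ?_
  rw [← Nat.card_eq_fintype_card]
  exact hc

open Classical in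
private theorem RH_inv (τ : Perm α) (c : ℕ) (hc : ncyc τ ≤ c) :
    ((Finset.univ : Finset (Finset α)).filter (fun T => ∀ x ∈ T, τ x ∈ T)).card ≤ 2 ^ c := by
  have hpow : ∀ T : Finset α, (∀ x ∈ T, τ x ∈ T) → ∀ x ∈ T, ∀ i : ℕ, (τ ^ i) x ∈ T := by
    intro T hT x hx i
    induction i with
    | zero => simpa using hx
    | succ i ih =>
      rw [pow_succ', Perm.mul_apply]
      exact hT _ ih
  have h1 : ((Finset.univ : Finset (Finset α)).filter (fun T => ∀ x ∈ T, τ x ∈ T)).card ≤
      (Finset.univ : Finset (Finset (Quotient (SameCycle.setoid τ)))).card := by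
    apply Finset.card_le_card_of_injOn
      (fun T => T.image (fun x => (Quotient.mk (SameCycle.setoid τ) x)))
    · intro p _
      simp
    · intro T hT T' hT' he
      rw [Finset.mem_coe, Finset.mem_filter] at hT hT'
      have key : ∀ T T' : Finset α, (∀ x ∈ T', τ x ∈ T') →
          T.image (fun x => (Quotient.mk (SameCycle.setoid τ) x)) =
            T'.image (fun x => (Quotient.mk (SameCycle.setoid τ) x)) → T ⊆ T' := by
        intro T T' hT' he x hx
        have hx' : (Quotient.mk (SameCycle.setoid τ) x) ∈
            T'.image (fun x => (Quotient.mk (SameCycle.setoid τ) x)) := by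
          rw [← he]
          exact Finset.mem_image_of_mem _ hx
        obtain ⟨y, hy, hyx⟩ := Finset.mem_image.1 hx'
        have hs : SameCycle τ y x := Quotient.exact hyx
        obtain ⟨i, -, hi⟩ := hs.exists_pow_eq'
        rw [← hi]
        exact hpow T' hT' y hy i
      exact Finset.Subset.antisymm (key T T' hT'.2 he) (key T' T hT.2 he.symm)
  refine h1.trans ?_
  rw [Finset.card_univ, Fintype.card_finset, ← Nat.card_eq_fintype_card]
  exact Nat.pow_le_pow_right (by norm_num) hc

theorem card_not_transitive (τ : Perm α) (c : ℕ) (hc : ncyc τ ≤ c) (h : 1 ≤ Fintype.card α) :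
    (Nat.card {a : Perm α //
      ¬ MulAction.IsPretransitive (Subgroup.closure ({a, τ} : Set (Perm α))) α} : ℝ) ≤
      ((Fintype.card α).factorial : ℝ) *
        ((2 * (c : ℝ) ^ 2) ^ 2 / (Fintype.card α : ℝ) + 1 / 2 ^ c) := by
  classical
  set n := Fintype.card α with hn
  set U := (Finset.univ : Finset α).filter (fun x => len τ x ≤ 2 * c) with hU
  set TT := ((Finset.univ : Finset (Finset α)).filter (fun T => ∀ x ∈ T, τ x ∈ T)).filter
    (fun T => 2 * c < T.card ∧ 2 * T.card ≤ n) with hTT
  let B1 : α × α → Finset (Perm α) := fun p =>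
    (Finset.univ : Finset (Perm α)).filter (fun a => a p.1 = p.2)
  let B2 : Finset α → Finset (Perm α) := fun T =>
    (Finset.univ : Finset (Perm α)).filter (fun a => ∀ x ∈ T, a x ∈ T)
  rw [Nat.card_eq_fintype_card, Fintype.card_subtype]
  have hsub : (Finset.univ : Finset (Perm α)).filter (fun a =>
      ¬ MulAction.IsPretransitive (Subgroup.closure ({a, τ} : Set (Perm α))) α) ⊆
      (U ×ˢ U).biUnion B1 ∪ TT.biUnion B2 := by
    intro a ha
    rw [Finset.mem_filter] at ha
    have h1 := ha.2
    rw [MulAction.isPretransitive_iff] at h1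
    push Not at h1
    obtain ⟨x, y, hxy⟩ := h1
    -- an invariant set
    obtain ⟨T, hT0, hTa, hTτ, hTn⟩ : ∃ T : Finset α, T.Nonempty ∧ (∀ z ∈ T, a z ∈ T) ∧
        (∀ z ∈ T, τ z ∈ T) ∧ 2 * T.card ≤ n := by
      have horb : ∀ x : α, ∀ z ∈ (Finset.univ : Finset α).filter
          (fun z => z ∈ MulAction.orbit (Subgroup.closure ({a, τ} : Set (Perm α))) x),
          ∀ b ∈ ({a, τ} : Set (Perm α)), b z ∈ (Finset.univ : Finset α).filter
          (fun z => z ∈ MulAction.orbit (Subgroup.closure ({a, τ} : Set (Perm α))) x) := by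
        intro x z hz b hb
        rw [Finset.mem_filter] at hz ⊢
        refine ⟨Finset.mem_univ _, ?_⟩
        obtain ⟨g, hg⟩ := hz.2
        exact ⟨⟨b, Subgroup.subset_closure hb⟩ * g, by
          show (⟨b, Subgroup.subset_closure hb⟩ * g : Subgroup.closure ({a, τ} : Set (Perm α))) • x
            = b z
          rw [mul_smul, ← hg]
          rfl⟩
      set Tx := (Finset.univ : Finset α).filter
          (fun z => z ∈ MulAction.orbit (Subgroup.closure ({a, τ} : Set (Perm α))) x) with hTx
      set Ty := (Finset.univ : Finset α).filter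
          (fun z => z ∈ MulAction.orbit (Subgroup.closure ({a, τ} : Set (Perm α))) y) with hTy
      have hdis : _root_.Disjoint Tx Ty := by
        rw [Finset.disjoint_left]
        intro z hz hz'
        rw [hTx, Finset.mem_filter] at hz
        rw [hTy, Finset.mem_filter] at hz'
        obtain ⟨g, hg⟩ := hz.2
        obtain ⟨g', hg'⟩ := hz'.2
        apply hxy (g'⁻¹ * g)
        simp only at hg hg'
        rw [mul_smul, hg, ← hg', inv_smul_smul]
      have hcard : Tx.card + Ty.card ≤ n := by
        rw [← Finset.card_union_of_disjoint hdis]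
        exact Finset.card_le_univ _
      by_cases hle : 2 * Tx.card ≤ n
      · exact ⟨Tx, ⟨x, Finset.mem_filter.2 ⟨Finset.mem_univ _, MulAction.mem_orbit_self _⟩⟩,
          fun z hz => horb x z hz a (by simp), fun z hz => horb x z hz τ (by simp), hle⟩
      · exact ⟨Ty, ⟨y, Finset.mem_filter.2 ⟨Finset.mem_univ _, MulAction.mem_orbit_self _⟩⟩,
          fun z hz => horb y z hz a (by simp), fun z hz => horb y z hz τ (by simp), by omega⟩
    rw [Finset.mem_union, Finset.mem_biUnion, Finset.mem_biUnion]
    by_cases hs : T.card ≤ 2 * c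
    · left
      obtain ⟨z, hz⟩ := hT0
      have hTU : ∀ z ∈ T, z ∈ U := fun z hz =>
        Finset.mem_filter.2 ⟨Finset.mem_univ _, (RH_len_le τ T hTτ z hz).trans hs⟩
      exact ⟨(z, a z), Finset.mem_product.2 ⟨hTU z hz, hTU _ (hTa z hz)⟩,
        Finset.mem_filter.2 ⟨Finset.mem_univ _, rfl⟩⟩
    · right
      exact ⟨T, Finset.mem_filter.2 ⟨Finset.mem_filter.2 ⟨Finset.mem_univ _, hTτ⟩,
        not_le.1 hs, hTn⟩, Finset.mem_filter.2 ⟨Finset.mem_univ _, hTa⟩⟩
  have hnpos : (0 : ℝ) < n := by exact_mod_cast h
  have hc1 : ((((U ×ˢ U).biUnion B1).card : ℕ) : ℝ) ≤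
      (n.factorial : ℝ) * ((2 * (c : ℝ) ^ 2) ^ 2 / (n : ℝ)) := by
    have h1 : ((U ×ˢ U).biUnion B1).card * n ≤ (U.card * U.card) * n.factorial := by
      calc ((U ×ˢ U).biUnion B1).card * n ≤ (∑ p ∈ U ×ˢ U, (B1 p).card) * n :=
            Nat.mul_le_mul_right _ Finset.card_biUnion_le
        _ = ∑ p ∈ U ×ˢ U, (B1 p).card * n := by rw [Finset.sum_mul]
        _ ≤ ∑ _p ∈ U ×ˢ U, n.factorial := Finset.sum_le_sum fun p _ => RH_one p.1 p.2
        _ = _ := by rw [Finset.sum_const, Finset.card_product, smul_eq_mul]
    have h2 := RH_U τ c hc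
    have h3 : ((U ×ˢ U).biUnion B1).card * n ≤ ((2 * c * c) * (2 * c * c)) * n.factorial :=
      h1.trans (Nat.mul_le_mul_right _ (Nat.mul_le_mul h2 h2))
    rw [← mul_div_assoc, le_div_iff₀ hnpos]
    have h4 : ((((U ×ˢ U).biUnion B1).card * n : ℕ) : ℝ) ≤
        ((((2 * c * c) * (2 * c * c)) * n.factorial : ℕ) : ℝ) := by exact_mod_cast h3
    push_cast at h4
    calc _ ≤ _ := h4
      _ = _ := by ring
  have hc2 : (((TT.biUnion B2).card : ℕ) : ℝ) ≤ (n.factorial : ℝ) * (1 / 2 ^ c) := by
    have h1 : (TT.biUnion B2).card * (2 ^ c * 2 ^ c) ≤ 2 ^ c * n.factorial := by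
      calc (TT.biUnion B2).card * (2 ^ c * 2 ^ c) ≤ (∑ T ∈ TT, (B2 T).card) * (2 ^ c * 2 ^ c) :=
            Nat.mul_le_mul_right _ Finset.card_biUnion_le
        _ = ∑ T ∈ TT, (B2 T).card * (2 ^ c * 2 ^ c) := by rw [Finset.sum_mul]
        _ ≤ ∑ _T ∈ TT, n.factorial := by
            apply Finset.sum_le_sum
            intro T hT
            obtain ⟨h2, h3⟩ := (Finset.mem_filter.1 hT).2
            have h4 : 2 ^ c * 2 ^ c ≤ n.choose T.card := by
              rw [← pow_add]
              exact (Nat.pow_le_pow_right (by norm_num) (by omega)).trans (RH_choose n T.card h3)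
            exact (Nat.mul_le_mul_left _ h4).trans (RH_set T)
        _ = TT.card * n.factorial := by rw [Finset.sum_const, smul_eq_mul]
        _ ≤ 2 ^ c * n.factorial := by
            apply Nat.mul_le_mul_right
            exact (Finset.card_filter_le _ _).trans (RH_inv τ c hc)
    rw [mul_one_div, le_div_iff₀ (by positivity)]
    have h2 : (TT.biUnion B2).card * 2 ^ c ≤ n.factorial := by
      have h3 : 2 ^ c * ((TT.biUnion B2).card * 2 ^ c) ≤ 2 ^ c * n.factorial := by
        calc _ = (TT.biUnion B2).card * (2 ^ c * 2 ^ c) := by ring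
          _ ≤ _ := h1
      exact Nat.le_of_mul_le_mul_left h3 (by positivity)
    exact_mod_cast h2
  have h1 : (((Finset.univ : Finset (Perm α)).filter (fun a =>
      ¬ MulAction.IsPretransitive (Subgroup.closure ({a, τ} : Set (Perm α))) α)).card : ℝ) ≤
      ((((U ×ˢ U).biUnion B1).card : ℕ) : ℝ) + (((TT.biUnion B2).card : ℕ) : ℝ) := by
    exact_mod_cast (Finset.card_le_card hsub).trans (Finset.card_union_le _ _)
  rw [mul_add]
  exact h1.trans (add_le_add hc1 hc2)

end general

end RND40
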