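import Mathlib
import Pool.Agent.Lib_helper40.RND.Defs
import Pool.Agent.Lib_helper40.RND.RF
import Pool.Agent.Lib_helper40.RND.RG
import Pool.Agent.Lib_helper40.RND.RH

set_option autoImplicit false

namespace RND40

open Equiv Equiv.Perm

section general

variable {α : Type*} [Fintype α] [DecidableEq α]

/-! ### stubs of the blocks RF, RG, RH -/




end general

/-! ### block RI -/

open scoped Pointwise in
/-- from a nontrivial block to an invariant equivalence relation -/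
theorem RI_setoid {n : ℕ} (G : Subgroup (Perm (Fin n))) (ht : MulAction.IsPretransitive G (Fin n))
    (h : ¬ MulAction.IsPreprimitive G (Fin n)) :
    ∃ r : Setoid (Fin n), (∀ g ∈ G, ∀ x y, r x y → r (g x) (g y)) ∧
      (∀ x, ∃ y, y ≠ x ∧ r x y) ∧
      (∀ x, 2 * Nat.card {y // r x y} ≤ Fintype.card (Fin n)) := by
  have hB : ∃ B : Set (Fin n), MulAction.IsBlock G B ∧ ¬ MulAction.IsTrivialBlock B := by
    by_contra hcon
    push Not at hcon
    exact h ⟨fun {B} hB => hcon B hB⟩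
  obtain ⟨B, hB, hnt⟩ := hB
  unfold MulAction.IsTrivialBlock at hnt
  push Not at hnt
  obtain ⟨hns, hnu⟩ := hnt
  obtain ⟨a, ha, b, hb, hab⟩ := hns
  have heq : ∀ (g g' : G) (y : Fin n), y ∈ g • B → y ∈ g' • B → g • B = g' • B := by
    intro g g' y h1 h2
    by_contra hne
    exact (Set.disjoint_left.1 (hB hne)) h1 h2
  have hcov : ∀ x, ∃ g : G, x ∈ g • B := by
    intro x
    obtain ⟨g, hg⟩ := ht.exists_smul_eq a x
    exact ⟨g, a, ha, hg⟩
  let r : Setoid (Fin n) :=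
    { r := fun x y => ∃ g : G, x ∈ g • B ∧ y ∈ g • B
      iseqv := ⟨fun x => by
          obtain ⟨g, hg⟩ := hcov x
          exact ⟨g, hg, hg⟩,
        fun {x y} ⟨g, h1, h2⟩ => ⟨g, h2, h1⟩,
        fun {x y z} ⟨g, h1, h2⟩ ⟨g', h3, h4⟩ => ⟨g, h1, by
          rw [heq g g' y h2 h3]; exact h4⟩⟩ }
  refine ⟨r, ?_, ?_, ?_⟩
  · rintro g hg x y ⟨g', h1, h2⟩
    refine ⟨⟨g, hg⟩ * g', ?_, ?_⟩
    · rw [mul_smul]
      exact Set.smul_mem_smul_set h1
    · rw [mul_smul]
      exact Set.smul_mem_smul_set h2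
  · intro x
    obtain ⟨g, hg⟩ := hcov x
    have h1 : g • a ∈ g • B := Set.smul_mem_smul_set ha
    have h2 : g • b ∈ g • B := Set.smul_mem_smul_set hb
    by_cases hx : g • a = x
    · refine ⟨g • b, ?_, g, hg, h2⟩
      rw [← hx]
      intro h3
      exact hab (smul_left_cancel g h3).symm
    · exact ⟨g • a, hx, g, hg, h1⟩
  · intro x
    obtain ⟨g, hg⟩ := hcov x
    have h1 : Nat.card {y // r x y} = B.ncard := by
      have h2 : {y | r x y} = g • B := by
        ext y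
        constructor
        · rintro ⟨g', h3, h4⟩
          rw [heq g g' x hg h3]
          exact h4
        · intro h3
          exact ⟨g, hg, h3⟩
      rw [← Set.ncard_smul_set g B, ← h2]
      rfl
    rw [h1]
    obtain ⟨x0, hx0⟩ := (Set.ne_univ_iff_exists_notMem B).1 hnu
    obtain ⟨g0, hg0⟩ := hcov x0
    have hne : (1 : G) • B ≠ g0 • B := by
      rw [one_smul]
      intro h3
      rw [← h3] at hg0
      exact hx0 hg0
    have hdis := hB hne
    rw [one_smul] at hdis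
    have h4 := Set.ncard_union_eq hdis (Set.toFinite _) (Set.toFinite _)
    rw [Set.ncard_smul_set] at h4
    have h5 : (B ∪ g0 • B).ncard ≤ Nat.card (Fin n) := by
      exact Set.ncard_le_card _
    rw [h4, Nat.card_eq_fintype_card] at h5
    omega

theorem RI_count {n : ℕ} (hn : 1 ≤ n) (τ : Perm (Fin n)) (c : ℕ) (hc : ncyc τ ≤ c) :
    (Nat.card {a : Perm (Fin n) //
      ¬ MulAction.IsPreprimitive (Subgroup.closure ({a, τ} : Set (Perm (Fin n)))) (Fin n)} : ℝ) ≤
      (n.factorial : ℝ) * ((2 * (c : ℝ) ^ 2) ^ 2 / (n : ℝ) + 1 / 2 ^ c +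
        ((n : ℝ) + 1) ^ (3 * c) / 2 ^ (n / 6)) := by
  classical
  have hfin : Finite (Setoid (Fin n)) := by
    apply Finite.of_injective (fun r : Setoid (Fin n) => (fun x y => r x y))
    intro r r' h
    ext x y
    exact iff_of_eq (congrFun (congrFun h x) y)
  have : Fintype (Setoid (Fin n)) := Fintype.ofFinite _
  set R : Finset (Setoid (Fin n)) := Finset.univ.filter fun r =>
    (∀ x y, r x y → r (τ x) (τ y)) ∧ (∀ x, ∃ y, y ≠ x ∧ r x y) ∧
      (∀ x, 2 * Nat.card {y // r x y} ≤ Fintype.card (Fin n)) with hR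
  have hRcard : R.card ≤ (n + 1) ^ (3 * c) := by
    calc R.card ≤ (Finset.univ.filter fun r : Setoid (Fin n) =>
          ∀ x y, r x y → r (τ x) (τ y)).card := by
          apply Finset.card_le_card
          intro r hr
          rw [hR, Finset.mem_filter] at hr
          rw [Finset.mem_filter]
          exact ⟨hr.1, hr.2.1⟩
      _ = Nat.card {r : Setoid (Fin n) // ∀ x y, r x y → r (τ x) (τ y)} := by
          rw [Nat.card_eq_fintype_card, Fintype.card_subtype]
      _ ≤ (Fintype.card (Fin n) + 1) ^ (3 * ncyc τ) := card_inv_setoid τ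
      _ ≤ (n + 1) ^ (3 * c) := by
          rw [Fintype.card_fin]
          exact Nat.pow_le_pow_right (by omega) (by omega)
  have hpres : ∀ r ∈ R, ((Finset.univ.filter fun a : Perm (Fin n) =>
      ∀ x y, r x y → r (a x) (a y)).card : ℝ) ≤ (n.factorial : ℝ) / 2 ^ (n / 6) := by
    intro r hr
    rw [hR, Finset.mem_filter] at hr
    have h1 := card_pres_setoid r hr.2.2.1 hr.2.2.2
    rw [Nat.card_eq_fintype_card, Fintype.card_subtype, Fintype.card_fin] at h1
    rw [le_div_iff₀ (by positivity)]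
    exact_mod_cast h1
  set T : Finset (Perm (Fin n)) := Finset.univ.filter fun a =>
    ¬ MulAction.IsPretransitive (Subgroup.closure ({a, τ} : Set (Perm (Fin n)))) (Fin n) with hT
  have hTcard : (T.card : ℝ) ≤ (n.factorial : ℝ) * ((2 * (c : ℝ) ^ 2) ^ 2 / (n : ℝ) + 1 / 2 ^ c) := by
    have h1 := card_not_transitive τ c hc (by rw [Fintype.card_fin]; exact hn)
    rw [Nat.card_eq_fintype_card, Fintype.card_subtype, Fintype.card_fin] at h1
    exact h1
  have hsub : (Finset.univ.filter fun a : Perm (Fin n) =>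
      ¬ MulAction.IsPreprimitive (Subgroup.closure ({a, τ} : Set (Perm (Fin n)))) (Fin n)) ⊆
      T ∪ R.biUnion fun r => Finset.univ.filter fun a : Perm (Fin n) =>
        ∀ x y, r x y → r (a x) (a y) := by
    intro a ha
    rw [Finset.mem_filter] at ha
    rw [Finset.mem_union]
    by_cases ht : MulAction.IsPretransitive (Subgroup.closure ({a, τ} : Set (Perm (Fin n)))) (Fin n)
    · right
      obtain ⟨r, h1, h2, h3⟩ := RI_setoid _ ht ha.2
      rw [Finset.mem_biUnion]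
      refine ⟨r, ?_, ?_⟩
      · rw [hR, Finset.mem_filter]
        exact ⟨Finset.mem_univ _, h1 τ (Subgroup.subset_closure (by simp)), h2, h3⟩
      · rw [Finset.mem_filter]
        exact ⟨Finset.mem_univ _, h1 a (Subgroup.subset_closure (by simp))⟩
    · left
      rw [hT, Finset.mem_filter]
      exact ⟨Finset.mem_univ _, ht⟩
  rw [Nat.card_eq_fintype_card, Fintype.card_subtype]
  calc ((Finset.univ.filter fun a : Perm (Fin n) => ¬ MulAction.IsPreprimitive
        (Subgroup.closure ({a, τ} : Set (Perm (Fin n)))) (Fin n)).card : ℝ)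
      ≤ ((T ∪ R.biUnion fun r => Finset.univ.filter fun a : Perm (Fin n) =>
        ∀ x y, r x y → r (a x) (a y)).card : ℝ) := by
        exact_mod_cast Finset.card_le_card hsub
    _ ≤ (T.card : ℝ) + ((R.biUnion fun r => Finset.univ.filter fun a : Perm (Fin n) =>
        ∀ x y, r x y → r (a x) (a y)).card : ℝ) := by
        exact_mod_cast Finset.card_union_le _ _
    _ ≤ (T.card : ℝ) + ∑ r ∈ R, ((Finset.univ.filter fun a : Perm (Fin n) =>
        ∀ x y, r x y → r (a x) (a y)).card : ℝ) := by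
        gcongr
        exact_mod_cast Finset.card_biUnion_le
    _ ≤ (T.card : ℝ) + ∑ r ∈ R, (n.factorial : ℝ) / 2 ^ (n / 6) := by
        gcongr with r hr
        exact hpres r hr
    _ = (T.card : ℝ) + (R.card : ℝ) * ((n.factorial : ℝ) / 2 ^ (n / 6)) := by
        rw [Finset.sum_const, nsmul_eq_mul]
    _ ≤ (n.factorial : ℝ) * ((2 * (c : ℝ) ^ 2) ^ 2 / (n : ℝ) + 1 / 2 ^ c) +
        ((n : ℝ) + 1) ^ (3 * c) * ((n.factorial : ℝ) / 2 ^ (n / 6)) := by
        gcongr
        exact_mod_cast hRcard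
    _ = _ := by ring

theorem RI_tt_le (n : ℕ) : tt n ^ 4 ≤ Nat.log 2 n := by
  unfold tt
  have h1 := Nat.sqrt_le' (Nat.sqrt (Nat.log 2 n))
  have h2 := Nat.sqrt_le' (Nat.log 2 n)
  calc (Nat.sqrt (Nat.sqrt (Nat.log 2 n))) ^ 4 = ((Nat.sqrt (Nat.sqrt (Nat.log 2 n))) ^ 2) ^ 2 := by
        ring
    _ ≤ (Nat.sqrt (Nat.log 2 n)) ^ 2 := Nat.pow_le_pow_left h1 2
    _ ≤ Nat.log 2 n := h2

theorem RI_le_tt (n t : ℕ) (h : t ^ 4 ≤ Nat.log 2 n) : t ≤ tt n := by
  unfold tt
  rw [Nat.le_sqrt', Nat.le_sqrt']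
  calc (t ^ 2) ^ 2 = t ^ 4 := by ring
    _ ≤ _ := h

theorem card_not_primitive (η : ℝ) (hη : 0 < η) : ∃ n0 : ℕ, ∀ n ≥ n0, ∀ τ : Perm (Fin n),
    ncyc τ ≤ tt n ^ 5 →
    (Nat.card {a : Perm (Fin n) //
      ¬ MulAction.IsPreprimitive (Subgroup.closure ({a, τ} : Set (Perm (Fin n)))) (Fin n)} : ℝ) ≤
      η * (n.factorial : ℝ) := by
  -- asymptotics in L = log_2 n
  have hA : ∀ᶠ L : ℕ in Filter.atTop, 4 * ((L : ℝ) ^ 8 / 2 ^ L) ≤ η / 3 := by
    have h1 := tendsto_pow_const_div_const_pow_of_one_lt 8 (one_lt_two : (1 : ℝ) < 2)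
    have h2 := h1.const_mul 4
    rw [mul_zero] at h2
    exact (h2.eventually (gt_mem_nhds (by positivity : (0 : ℝ) < η / 3))).mono fun L hL => hL.le
  have hB : ∀ᶠ L : ℕ in Filter.atTop, 60 * ((L : ℝ) ^ 3 / 2 ^ L) ≤ 1 := by
    have h1 := tendsto_pow_const_div_const_pow_of_one_lt 3 (one_lt_two : (1 : ℝ) < 2)
    have h2 := h1.const_mul 60
    rw [mul_zero] at h2
    exact (h2.eventually (gt_mem_nhds one_pos)).mono fun L hL => hL.le
  have hC : ∀ᶠ t : ℕ in Filter.atTop, (1 : ℝ) / 2 ^ t ≤ η / 3 := by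
    have h1 := tendsto_pow_const_div_const_pow_of_one_lt 0 (one_lt_two : (1 : ℝ) < 2)
    simp only [pow_zero] at h1
    exact (h1.eventually (gt_mem_nhds (by positivity : (0 : ℝ) < η / 3))).mono fun L hL => hL.le
  obtain ⟨L1, hL1⟩ := Filter.eventually_atTop.1 hA
  obtain ⟨L2, hL2⟩ := Filter.eventually_atTop.1 hB
  obtain ⟨t0, ht0⟩ := Filter.eventually_atTop.1 hC
  set L0 : ℕ := L1 + L2 + (t0 + 1) ^ 4 + 6 with hL0
  refine ⟨2 ^ L0, fun n hn τ hτ => ?_⟩
  have hn1 : 1 ≤ n := le_trans Nat.one_le_two_pow hn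
  set L : ℕ := Nat.log 2 n with hL
  have hLL0 : L0 ≤ L := Nat.le_log_of_pow_le one_lt_two hn
  have hpow1 : 2 ^ L ≤ n := Nat.pow_log_le_self 2 (by omega)
  have hpow2 : n < 2 ^ (L + 1) := Nat.lt_pow_succ_log_self one_lt_two n
  have htt : t0 + 1 ≤ tt n := RI_le_tt n (t0 + 1) (by rw [← hL]; omega)
  have httL : tt n ^ 4 ≤ L := RI_tt_le n
  set c : ℕ := tt n ^ 5 with hc
  have htt1 : 1 ≤ tt n := by omega
  have hcL : c ≤ L ^ 2 := by
    have h1 : tt n ≤ tt n ^ 4 := Nat.le_self_pow (by norm_num) _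
    calc c = tt n ^ 4 * tt n := by rw [hc]; ring
      _ ≤ L * L := Nat.mul_le_mul httL (h1.trans httL)
      _ = L ^ 2 := by ring
  have htc : t0 ≤ c := by
    have h1 : tt n ≤ c := Nat.le_self_pow (by norm_num) _
    omega
  have h := RI_count hn1 τ c hτ
  refine h.trans ?_
  rw [mul_comm η]
  apply mul_le_mul_of_nonneg_left _ (by positivity)
  have hLpos : (0 : ℝ) < L := by
    have : 0 < L := by omega
    exact_mod_cast this
  have hnR : (2 : ℝ) ^ L ≤ n := by exact_mod_cast hpow1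
  have hnpos : (0 : ℝ) < n := lt_of_lt_of_le (by positivity) hnR
  have hcR : (c : ℝ) ≤ (L : ℝ) ^ 2 := by exact_mod_cast hcL
  have e1 : (2 * (c : ℝ) ^ 2) ^ 2 / (n : ℝ) ≤ η / 3 := by
    refine le_trans ?_ (hL1 L (by omega))
    calc (2 * (c : ℝ) ^ 2) ^ 2 / (n : ℝ) = 4 * ((c : ℝ) ^ 4 / n) := by ring
      _ ≤ 4 * (((L : ℝ) ^ 2) ^ 4 / 2 ^ L) := by gcongr
      _ = 4 * ((L : ℝ) ^ 8 / 2 ^ L) := by rw [← pow_mul]
  have e2 : (1 : ℝ) / 2 ^ c ≤ η / 3 := ht0 c htc
  have e3 : ((n : ℝ) + 1) ^ (3 * c) / 2 ^ (n / 6) ≤ η / 3 := by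
    -- exponents
    have h60 : 60 * L ^ 3 ≤ 2 ^ L := by
      have h1 := hL2 L (by omega)
      have h2 : 60 * (L : ℝ) ^ 3 ≤ 2 ^ L := by
        have h3 : 60 * ((L : ℝ) ^ 3 / 2 ^ L) = 60 * (L : ℝ) ^ 3 / 2 ^ L := by ring
        rw [h3, div_le_one (by positivity)] at h1
        exact h1
      exact_mod_cast h2
    have hL6 : 6 ≤ L := by omega
    have hexp : (L + 1) * (3 * c) + t0 ≤ n / 6 := by
      rw [Nat.le_div_iff_mul_le (by norm_num)]
      refine le_trans ?_ hpow1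
      refine le_trans ?_ h60
      have h4 : t0 ≤ L := by
        have : t0 + 1 ≤ (t0 + 1) ^ 4 := Nat.le_self_pow (by norm_num) _
        omega
      have h5 : (L + 1) * (3 * c) ≤ (L + 1) * (3 * L ^ 2) := by gcongr
      have h6 : L ^ 2 ≤ L ^ 3 := Nat.pow_le_pow_right (by omega) (by norm_num)
      have h7 : L ≤ L ^ 3 := Nat.le_self_pow (by norm_num) _
      nlinarith
    have hb : ((n : ℝ) + 1) ≤ 2 ^ (L + 1) := by exact_mod_cast hpow2
    calc ((n : ℝ) + 1) ^ (3 * c) / 2 ^ (n / 6) ≤ (2 ^ (L + 1)) ^ (3 * c) / 2 ^ (n / 6) := by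
          gcongr
      _ = 2 ^ ((L + 1) * (3 * c)) / 2 ^ (n / 6) := by rw [← pow_mul]
      _ ≤ 2 ^ ((L + 1) * (3 * c)) / 2 ^ ((L + 1) * (3 * c) + t0) := by
          gcongr
          norm_num
      _ = 1 / 2 ^ t0 := by
          rw [pow_add]
          field_simp
      _ ≤ η / 3 := ht0 t0 le_rfl
  linarith

end RND40
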