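import Mathlib
import Pool.Agent.Lib_helper40.RND.Defs

set_option autoImplicit false

namespace RND40

open Equiv Equiv.Perm

section general

variable {α : Type*} [Fintype α] [DecidableEq α]

/-- the hit lemma -/
private theorem RJ_hit (C Z : Finset α) :
    ((Finset.univ : Finset (Perm α)).filter (fun π => ∀ c ∈ C, π c ∉ Z)).card *
      (C.card * Z.card) ≤ (Fintype.card α).factorial * Fintype.card α := by
  set B := (Finset.univ : Finset (Perm α)).filter (fun π => ∀ c ∈ C, π c ∉ Z) with hB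
  have h1 : (B ×ˢ (C ×ˢ Z)).card ≤ (Finset.univ : Finset (Perm α × α)).card := by
    apply Finset.card_le_card_of_injOn
      (fun p : Perm α × (α × α) => (swap (p.1 p.2.1) p.2.2 * p.1, p.1 p.2.1))
    · intro p _
      simp
    · rintro ⟨π, c, z⟩ hp ⟨π', c', z'⟩ hp' he
      simp only [Finset.coe_product, Set.mem_prod, Finset.mem_coe, hB, Finset.mem_filter,
        Finset.mem_univ, true_and] at hp hp'
      obtain ⟨hπ, hc, hz⟩ := hp
      obtain ⟨hπ', hc', hz'⟩ := hp'
      simp only [Prod.mk.injEq] at he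
      obtain ⟨he1, he2⟩ := he
      have e1 : (swap (π c) z * π) c = z := by simp
      have e2 : (swap (π' c') z' * π') c' = z' := by simp
      have e3 : ∀ d ∈ C, d ≠ c → (swap (π c) z * π) d ∉ Z := by
        intro d hd hdc
        have : (swap (π c) z * π) d = π d := by
          rw [Perm.mul_apply, swap_apply_of_ne_of_ne]
          · exact fun h => hdc (π.injective h)
          · exact fun h => hπ d hd (h ▸ hz)
        rw [this]
        exact hπ d hd
      have hcc : c = c' := by
        by_contra hne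
        have h := e3 c' hc' (Ne.symm hne)
        rw [he1, e2] at h
        exact h hz'
      subst hcc
      have hzz : z = z' := by rw [← e1, ← e2, he1]
      subst hzz
      rw [he2] at he1
      have : π = π' := mul_left_cancel he1
      rw [this]
  rw [Finset.card_product, Finset.card_product, Finset.card_univ, Fintype.card_prod,
    Fintype.card_perm] at h1
  exact h1

/-- the switch lemma -/
private theorem RJ_switch (B : Finset (Perm α)) (a : α) (F : Perm α → α)
    (W : Perm α → Finset α) (m : ℕ) (hW : ∀ π ∈ B, (W π).card ≤ m)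
    (h1 : ∀ π ∈ B, π a = F π) (h2 : ∀ π ∈ B, ∀ z ∉ W π, F (swap (F π) z * π) = F π) :
    B.card * (Fintype.card α - m) ≤ (Fintype.card α).factorial := by
  have h3 : (B.sigma (fun π => (W π)ᶜ)).card ≤ (Finset.univ : Finset (Perm α)).card := by
    apply Finset.card_le_card_of_injOn (fun p : (_ : Perm α) × α => swap (F p.1) p.2 * p.1)
    · intro p _
      simp
    · rintro ⟨π, z⟩ hp ⟨π', z'⟩ hp' he
      simp only [Finset.coe_sigma, Set.mem_sigma_iff, Finset.mem_coe, Finset.mem_compl] at hp hp'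
      simp only at he
      have e0 : F π = F π' := by
        rw [← h2 π hp.1 z hp.2, he, h2 π' hp'.1 z' hp'.2]
      have e1 : (swap (F π) z * π) a = z := by
        rw [Perm.mul_apply, h1 π hp.1, swap_apply_left]
      have e2 : (swap (F π') z' * π') a = z' := by
        rw [Perm.mul_apply, h1 π' hp'.1, swap_apply_left]
      have hzz : z = z' := by rw [← e1, ← e2, he]
      subst hzz
      rw [e0] at he
      have : π = π' := mul_left_cancel he
      rw [this]
  rw [Finset.card_univ, Fintype.card_perm, Finset.card_sigma] at h3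
  refine le_trans ?_ h3
  rw [← smul_eq_mul, ← Finset.sum_const]
  apply Finset.sum_le_sum
  intro π hπ
  rw [Finset.card_compl]
  exact Nat.sub_le_sub_left (hW π hπ) _

private theorem RJ_len (s : Perm α) (x : α) :
    len s x ≤ ((Finset.univ : Finset α).filter (fun y => SameCycle s x y)).card := by
  have h : (Finset.range (len s x)).card ≤
      ((Finset.univ : Finset α).filter (fun y => SameCycle s x y)).card := by
    apply Finset.card_le_card_of_injOn (fun i => s^[i] x)
    · intro i _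
      simp only [Finset.coe_filter, Finset.mem_univ, true_and, Set.mem_ofPred_eq]
      exact ⟨(i : ℤ), by rw [zpow_natCast, Equiv.Perm.iterate_eq_pow]⟩
    · intro i hi j hj he
      rw [Finset.coe_range, Set.mem_Iio] at hi hj
      exact (Function.iterate_injOn_Iio_minimalPeriod (f := s) (x := x)) hi hj he
  rwa [Finset.card_range] at h

theorem position (τ : Perm α) (x0 : α) (C C' : Finset α) (hd : _root_.Disjoint C C')
    (hC : C.Nonempty) (hC' : C'.Nonempty) (h4 : 4 ≤ Fintype.card α) :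
    (Nat.card {π : Perm α // ¬ ∃ i : ℕ,
      (C.image (fun x => (τ ^ i) (π x)) ∩ C'.image (fun x => π x)).card = 1} : ℝ) ≤
      ((Fintype.card α).factorial : ℝ) *
        ((Fintype.card α : ℝ) / ((C.card : ℝ) * (len τ x0 : ℝ)) +
         (Fintype.card α : ℝ) / ((C'.card : ℝ) * (len τ x0 : ℝ)) +
         ((C.card : ℝ) * (C'.card : ℝ)) ^ 2 / ((Fintype.card α : ℝ) - 3)) := by
  classical
  set n := Fintype.card α with hn
  set Z : Finset α := (Finset.univ : Finset α).filter (fun y => SameCycle τ x0 y) with hZ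
  have hlen : 0 < len τ x0 := by
    apply Function.minimalPeriod_pos_of_mem_periodicPts
    refine Function.mk_mem_periodicPts (orderOf_pos τ) ?_
    show (⇑τ)^[orderOf τ] x0 = x0
    rw [Equiv.Perm.iterate_eq_pow, pow_orderOf_eq_one]
    rfl
  have hZl : len τ x0 ≤ Z.card := RJ_len τ x0
  have hhit : ∀ D : Finset α, D.Nonempty →
      ((((Finset.univ : Finset (Perm α)).filter (fun π => ∀ c ∈ D, π c ∉ Z)).card : ℕ) : ℝ) ≤
        (n.factorial : ℝ) * ((n : ℝ) / ((D.card : ℝ) * (len τ x0 : ℝ))) := by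
    intro D hD
    have h1 := RJ_hit D Z
    have hDp : (0 : ℝ) < D.card := by exact_mod_cast hD.card_pos
    have hlp : (0 : ℝ) < len τ x0 := by exact_mod_cast hlen
    rw [← mul_div_assoc, le_div_iff₀ (by positivity)]
    have h2 : ((Finset.univ : Finset (Perm α)).filter (fun π => ∀ c ∈ D, π c ∉ Z)).card *
        (D.card * len τ x0) ≤ n.factorial * n :=
      le_trans (Nat.mul_le_mul_left _ (Nat.mul_le_mul_left _ hZl)) h1
    exact_mod_cast h2
  let iF : α → α → ℕ := fun x y => if h : ∃ i : ℕ, (τ ^ i) x = y then h.choose else 0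
  let Fq : (α × α) × (α × α) → Perm α → α := fun q π =>
    (τ ^ iF (π q.1.1) (π q.1.2))⁻¹ (π q.2.2)
  let Q : Finset ((α × α) × (α × α)) :=
    ((C ×ˢ C') ×ˢ (C ×ˢ C')).filter (fun q => q.2.1 ≠ q.1.1)
  let B3 : (α × α) × (α × α) → Finset (Perm α) := fun q =>
    (Finset.univ : Finset (Perm α)).filter (fun π => π q.2.1 = Fq q π)
  have hB3 : ∀ q ∈ Q, (((B3 q).card : ℕ) : ℝ) ≤ (n.factorial : ℝ) / ((n : ℝ) - 3) := by
    rintro ⟨⟨a1, a2⟩, ⟨a3, a4⟩⟩ hq
    simp only [Q, Finset.mem_filter, Finset.mem_product] at hq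
    obtain ⟨⟨⟨h1, h2⟩, h3, h5⟩, h6⟩ := hq
    have h32 : a3 ≠ a2 := fun h => (Finset.disjoint_left.1 hd h3) (h ▸ h2)
    have h34 : a3 ≠ a4 := fun h => (Finset.disjoint_left.1 hd h3) (h ▸ h5)
    have h7 := RJ_switch (B3 ((a1, a2), (a3, a4))) a3 (Fq ((a1, a2), (a3, a4)))
      (fun π => {π a1, π a2, π a4}) 3 (fun π _ => Finset.card_le_three)
      (fun π hπ => (Finset.mem_filter.1 hπ).2) (by
        intro π hπ z hz
        have hπ3 : π a3 = Fq ((a1, a2), (a3, a4)) π := (Finset.mem_filter.1 hπ).2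
        simp only [Finset.mem_insert, Finset.mem_singleton, not_or] at hz
        have key : ∀ b, b ≠ a3 → z ≠ π b →
            (swap (Fq ((a1, a2), (a3, a4)) π) z * π) b = π b := by
          intro b hb hzb
          rw [Perm.mul_apply, ← hπ3, swap_apply_of_ne_of_ne]
          · exact fun h => hb (π.injective h)
          · exact Ne.symm hzb
        show (τ ^ iF ((swap (Fq ((a1, a2), (a3, a4)) π) z * π) a1)
          ((swap (Fq ((a1, a2), (a3, a4)) π) z * π) a2))⁻¹
          ((swap (Fq ((a1, a2), (a3, a4)) π) z * π) a4) = _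
        rw [key a1 (Ne.symm h6) hz.1, key a2 (Ne.symm h32) hz.2.1, key a4 (Ne.symm h34) hz.2.2])
    have hn3 : (0 : ℝ) < (n : ℝ) - 3 := by
      have : (4 : ℝ) ≤ n := by exact_mod_cast h4
      linarith
    rw [le_div_iff₀ hn3]
    have h8 : (((B3 ((a1, a2), (a3, a4))).card * (n - 3) : ℕ) : ℝ) ≤ (n.factorial : ℝ) := by
      exact_mod_cast h7
    rw [Nat.cast_mul, Nat.cast_sub (by omega)] at h8
    exact_mod_cast h8
  have hQ : ((Q.card : ℕ) : ℝ) ≤ ((C.card : ℝ) * (C'.card : ℝ)) ^ 2 := by
    have h1 : Q.card ≤ (C.card * C'.card) * (C.card * C'.card) := by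
      refine (Finset.card_filter_le _ _).trans ?_
      rw [Finset.card_product, Finset.card_product]
    calc ((Q.card : ℕ) : ℝ) ≤ (((C.card * C'.card) * (C.card * C'.card) : ℕ) : ℝ) := by
          exact_mod_cast h1
      _ = _ := by push_cast; ring
  rw [Nat.card_eq_fintype_card, Fintype.card_subtype]
  have hsub : (Finset.univ : Finset (Perm α)).filter (fun π => ¬ ∃ i : ℕ,
      (C.image (fun x => (τ ^ i) (π x)) ∩ C'.image (fun x => π x)).card = 1) ⊆
      ((Finset.univ : Finset (Perm α)).filter (fun π => ∀ c ∈ C, π c ∉ Z)) ∪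
      (((Finset.univ : Finset (Perm α)).filter (fun π => ∀ c ∈ C', π c ∉ Z)) ∪ Q.biUnion B3) := by
    intro π hπ
    rw [Finset.mem_filter] at hπ
    rw [Finset.mem_union, Finset.mem_union, Finset.mem_filter, Finset.mem_filter,
      Finset.mem_biUnion]
    by_cases hb1 : ∀ c ∈ C, π c ∉ Z
    · exact Or.inl ⟨Finset.mem_univ _, hb1⟩
    by_cases hb2 : ∀ c ∈ C', π c ∉ Z
    · exact Or.inr (Or.inl ⟨Finset.mem_univ _, hb2⟩)
    refine Or.inr (Or.inr ?_)
    push Not at hb1 hb2
    obtain ⟨a1, h1, h1'⟩ := hb1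
    obtain ⟨a2, h2, h2'⟩ := hb2
    have hs : SameCycle τ (π a1) (π a2) :=
      ((Finset.mem_filter.1 h1').2.symm).trans (Finset.mem_filter.1 h2').2
    have hex : ∃ i : ℕ, (τ ^ i) (π a1) = π a2 := by
      obtain ⟨i, -, hi⟩ := hs.exists_pow_eq'
      exact ⟨i, hi⟩
    have hi : (τ ^ iF (π a1) (π a2)) (π a1) = π a2 := by
      simp only [iF, dif_pos hex]
      exact hex.choose_spec
    set i := iF (π a1) (π a2) with hidef
    have hmem : π a2 ∈ C.image (fun x => (τ ^ i) (π x)) ∩ C'.image (fun x => π x) := by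
      rw [Finset.mem_inter, Finset.mem_image, Finset.mem_image]
      exact ⟨⟨a1, h1, hi⟩, a2, h2, rfl⟩
    have hcard : 1 < (C.image (fun x => (τ ^ i) (π x)) ∩ C'.image (fun x => π x)).card := by
      have h5 := Finset.card_pos.2 ⟨_, hmem⟩
      have h6 : (C.image (fun x => (τ ^ i) (π x)) ∩ C'.image (fun x => π x)).card ≠ 1 :=
        fun h => hπ.2 ⟨i, h⟩
      omega
    obtain ⟨w, hw, hwne⟩ := Finset.exists_mem_ne hcard (π a2)
    rw [Finset.mem_inter, Finset.mem_image, Finset.mem_image] at hw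
    obtain ⟨⟨a3, h3, h3'⟩, a4, h5, h5'⟩ := hw
    have h31 : a3 ≠ a1 := by
      rintro rfl
      exact hwne (h3'.symm.trans hi)
    refine ⟨((a1, a2), (a3, a4)), ?_, ?_⟩
    · simp only [Q, Finset.mem_filter, Finset.mem_product]
      exact ⟨⟨⟨h1, h2⟩, h3, h5⟩, h31⟩
    · simp only [B3, Fq, Finset.mem_filter, Finset.mem_univ, true_and]
      rw [Perm.eq_inv_iff_eq]
      exact h3'.trans h5'.symm
  have hc1 : (((Finset.univ : Finset (Perm α)).filter (fun π => ¬ ∃ i : ℕ,
      (C.image (fun x => (τ ^ i) (π x)) ∩ C'.image (fun x => π x)).card = 1)).card : ℝ) ≤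
      (((Finset.univ : Finset (Perm α)).filter (fun π => ∀ c ∈ C, π c ∉ Z)).card : ℝ) +
      ((((Finset.univ : Finset (Perm α)).filter (fun π => ∀ c ∈ C', π c ∉ Z)).card : ℝ) +
        ((∑ q ∈ Q, (B3 q).card : ℕ) : ℝ)) := by
    have := (Finset.card_le_card hsub).trans ((Finset.card_union_le _ _).trans
      (Nat.add_le_add_left ((Finset.card_union_le _ _).trans
        (Nat.add_le_add_left Finset.card_biUnion_le _)) _))
    exact_mod_cast this
  have hc2 : ((∑ q ∈ Q, (B3 q).card : ℕ) : ℝ) ≤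
      (n.factorial : ℝ) * (((C.card : ℝ) * (C'.card : ℝ)) ^ 2 / ((n : ℝ) - 3)) := by
    have hn3 : (0 : ℝ) < (n : ℝ) - 3 := by
      have : (4 : ℝ) ≤ n := by exact_mod_cast h4
      linarith
    push_cast
    calc ∑ q ∈ Q, ((B3 q).card : ℝ) ≤ ∑ _q ∈ Q, (n.factorial : ℝ) / ((n : ℝ) - 3) :=
          Finset.sum_le_sum hB3
      _ = (Q.card : ℝ) * ((n.factorial : ℝ) / ((n : ℝ) - 3)) := by
          rw [Finset.sum_const, nsmul_eq_mul]
      _ ≤ ((C.card : ℝ) * (C'.card : ℝ)) ^ 2 * ((n.factorial : ℝ) / ((n : ℝ) - 3)) := by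
          apply mul_le_mul_of_nonneg_right hQ
          positivity
      _ = _ := by ring
  have h1 := hhit C hC
  have h2 := hhit C' hC'
  refine hc1.trans ?_
  rw [mul_add, mul_add, add_assoc]
  exact add_le_add h1 (add_le_add h2 hc2)

end general

end RND40
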