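import Mathlib

set_option autoImplicit false

namespace RND40

open Equiv Equiv.Perm

variable {α : Type*} [Fintype α] [DecidableEq α]

theorem isThreeCycle_commutator (f g : Perm α) (x : α) (h : f.support ∩ g.support = {x}) :
    IsThreeCycle (f * g * f⁻¹ * g⁻¹) := by
  have hx : x ∈ f.support ∩ g.support := by rw [h]; exact Finset.mem_singleton_self x
  rw [Finset.mem_inter, mem_support, mem_support] at hx
  obtain ⟨hf, hg⟩ := hx
  have key : ∀ y, f y ≠ y → g y ≠ y → y = x := by
    intro y h1 h2
    have : y ∈ f.support ∩ g.support := by
      rw [Finset.mem_inter, mem_support, mem_support]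
      exact ⟨h1, h2⟩
    rw [h] at this
    exact Finset.mem_singleton.mp this
  have hfa : f (f x) ≠ f x := fun hh => hf (f.injective hh)
  have hgb : g (g x) ≠ g x := fun hh => hg (g.injective hh)
  have hga : g (f x) = f x := by
    by_contra hne
    exact hf (key _ hfa hne)
  have hfb : f (g x) = g x := by
    by_contra hne
    exact hg (key _ hne hgb)
  have hab : f x ≠ g x := by
    intro hh
    rw [← hh] at hfb
    exact hfa hfb
  have heq : f * g * f⁻¹ * g⁻¹ = swap (f x) x * swap (f x) (g x) := by
    ext y
    have hz : ∃ z, y = g z := ⟨g⁻¹ y, by simp⟩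
    obtain ⟨z, rfl⟩ := hz
    have h1 : (f * g * f⁻¹ * g⁻¹) (g z) = f (g (f⁻¹ z)) := by
      simp [Perm.mul_apply]
    rw [h1]
    obtain ⟨w, hw⟩ : ∃ w, z = f w := ⟨f⁻¹ z, by simp⟩
    rw [hw]
    have h2 : f⁻¹ (f w) = w := by simp
    rw [h2, Perm.mul_apply]
    -- claim : f (g w) = swap (f x) x (swap (f x) (g x) (g (f w)))
    by_cases hgw : g w = w
    · rw [hgw]
      by_cases hgfw : g (f w) = f w
      · rw [hgfw]
        -- f w ≠ x as g x ≠ x; f w ≠ f x as g w = w ; f w ≠ g x as g g x ≠ g x
        have e1 : f w ≠ f x := by
          intro hh
          have := f.injective hh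
          rw [this] at hgw
          exact hg hgw
        have e2 : f w ≠ g x := by
          intro hh
          rw [hh] at hgfw
          exact hgb hgfw
        have e3 : f w ≠ x := by
          intro hh
          rw [hh] at hgfw
          exact hg hgfw
        rw [swap_apply_of_ne_of_ne e1 e2, swap_apply_of_ne_of_ne e1 e3]
      · -- f w ∈ supp g
        by_cases hffw : f (f w) = f w
        · have hfw : f w = w := f.injective hffw
          exact absurd (by rw [hfw]; exact hgw) hgfw
        · have e0 : f w = x := key _ hffw hgfw
          rw [e0, swap_apply_right, swap_apply_left]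
    · -- g w ≠ w
      by_cases hfw : f w = w
      · rw [hfw]
        have hggw : g (g w) ≠ g w := fun hh => hgw (g.injective hh)
        by_cases hfgw : f (g w) = g w
        · have e1 : g w ≠ f x := by
            intro hh
            rw [hh] at hfgw
            exact hfa hfgw
          have e2 : g w ≠ g x := by
            intro hh
            have := g.injective hh
            rw [this] at hfw
            exact hf hfw
          have e3 : g w ≠ x := by
            intro hh
            rw [hh] at hfgw
            exact hf hfgw
          rw [hfgw, swap_apply_of_ne_of_ne e1 e2, swap_apply_of_ne_of_ne e1 e3]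
        · have e0 : g w = x := key _ hfgw hggw
          rw [e0, swap_apply_of_ne_of_ne (Ne.symm hf) (Ne.symm hg), swap_apply_right]
      · have e0 : w = x := key _ hfw hgw
        subst e0
        rw [hfb, hga, swap_apply_left, swap_apply_of_ne_of_ne (Ne.symm hab) hg]
  rw [heq]
  exact isThreeCycle_swap_mul_swap_same hf hab (Ne.symm hg)

end RND40
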