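import Mathlib
import Pool.Agent.Lib_helper40.RND.Defs

set_option autoImplicit false

/-! Block RK2: a generic permutation together with a permutation of few cycles generates at least
the alternating group. -/

namespace RND40

open Equiv Equiv.Perm

section RK2

theorem RK2_support_conj {α : Type*} [Fintype α] [DecidableEq α] (p f : Perm α) :
    (p * f * p⁻¹).support = f.support.image (fun x => p x) := by
  ext y
  simp only [mem_support, Finset.mem_image, Perm.mul_apply]
  constructor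
  · intro h
    refine ⟨p⁻¹ y, ?_, by simp⟩
    intro h'
    apply h
    rw [h']
    simp
  · rintro ⟨a, ha, rfl⟩ h
    apply ha
    have : p (f a) = p a := by simpa using h
    exact p.injective this

/-- the group theoretic step -/
theorem RK2_group {α : Type*} [Fintype α] [DecidableEq α] (τ b : Perm α)
    (hprim : MulAction.IsPreprimitive (Subgroup.closure ({b, τ} : Set (Perm α))) α)
    (hcomm : ∀ (f g : Perm α) (x : α), f.support ∩ g.support = {x} →
      IsThreeCycle (f * g * f⁻¹ * g⁻¹))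
    (N N' i : ℕ)
    (h : ((b ^ N).support.image (fun x => (τ ^ i) x) ∩ (b ^ N').support).card = 1) :
    alternatingGroup α ≤ Subgroup.closure ({b, τ} : Set (Perm α)) := by
  obtain ⟨x, hx⟩ := Finset.card_eq_one.mp h
  have hb : b ∈ Subgroup.closure ({b, τ} : Set (Perm α)) := Subgroup.subset_closure (by simp)
  have ht : τ ∈ Subgroup.closure ({b, τ} : Set (Perm α)) := Subgroup.subset_closure (by simp)
  have hs : (τ ^ i * b ^ N * (τ ^ i)⁻¹).support ∩ (b ^ N').support = {x} := by
    rw [← hx, RK2_support_conj]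
  have h3 := hcomm _ _ x hs
  have hf : τ ^ i * b ^ N * (τ ^ i)⁻¹ ∈ Subgroup.closure ({b, τ} : Set (Perm α)) :=
    mul_mem (mul_mem (pow_mem ht _) (pow_mem hb _)) (inv_mem (pow_mem ht _))
  have hg : b ^ N' ∈ Subgroup.closure ({b, τ} : Set (Perm α)) := pow_mem hb _
  exact alternatingGroup_le_of_isPreprimitive_of_isThreeCycle_mem hprim h3
    (mul_mem (mul_mem (mul_mem hf hg) (inv_mem hf)) (inv_mem hg))

theorem RK2_card {β : Type*} [Fintype β] (p : β → Prop) [DecidablePred p] :
    (Nat.card {a // p a} : ℝ) = ∑ a, if p a then (1 : ℝ) else 0 := by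
  rw [Nat.card_eq_fintype_card, Fintype.card_subtype, Finset.card_filter]
  push_cast
  rfl

/-- double counting over pairs `(a, π)` -/
theorem RK2_double {G : Type*} [Group G] [Fintype G] (bad two prim : G → Prop)
    (R : G → G → Prop) (s p r : ℝ) (hr : 0 ≤ r)
    (h : ∀ a π, bad (π * a * π⁻¹) → ¬ two a ∨ ¬ prim (π * a * π⁻¹) ∨ (two a ∧ R a π))
    (hs : (Nat.card {a // ¬ two a} : ℝ) ≤ s * (Nat.card G : ℝ))
    (hp : (Nat.card {a // ¬ prim a} : ℝ) ≤ p * (Nat.card G : ℝ))
    (hR : ∀ a, two a → (Nat.card {π // R a π} : ℝ) ≤ r * (Nat.card G : ℝ)) :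
    (Nat.card {a // bad a} : ℝ) ≤ (s + p + r) * (Nat.card G : ℝ) := by
  classical
  have hN : (0 : ℝ) < (Nat.card G : ℝ) := by exact_mod_cast Nat.card_pos
  have hcard : ((Finset.univ : Finset G).card : ℝ) = (Nat.card G : ℝ) := by
    rw [Nat.card_eq_fintype_card]; rfl
  rw [RK2_card] at hs hp ⊢
  have hconj : ∀ (q : G → Prop) [DecidablePred q] (π : G),
      ∑ a, (if q (π * a * π⁻¹) then (1 : ℝ) else 0) = ∑ a, if q a then (1 : ℝ) else 0 := by
    intro q _ π
    exact (MulAut.conj π).toEquiv.sum_comp (fun a => if q a then (1 : ℝ) else 0)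
  have key : (Nat.card G : ℝ) * (∑ a, if bad a then (1 : ℝ) else 0) ≤
      (Nat.card G : ℝ) * ((s + p + r) * (Nat.card G : ℝ)) := by
    calc (Nat.card G : ℝ) * (∑ a, if bad a then (1 : ℝ) else 0)
        = ∑ π : G, ∑ a, (if bad (π * a * π⁻¹) then (1 : ℝ) else 0) := by
          rw [Finset.sum_congr rfl (fun π _ => hconj bad π), Finset.sum_const, nsmul_eq_mul, hcard]
      _ ≤ ∑ π : G, ∑ a, ((if ¬ two a then (1 : ℝ) else 0) +
            (if ¬ prim (π * a * π⁻¹) then (1 : ℝ) else 0) +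
            (if two a then (if R a π then (1 : ℝ) else 0) else 0)) := by
          refine Finset.sum_le_sum fun π _ => Finset.sum_le_sum fun a _ => ?_
          have h0 : ∀ q : Prop, [Decidable q] → (0 : ℝ) ≤ if q then (1 : ℝ) else 0 := by
            intro q _; split <;> norm_num
          by_cases hb : bad (π * a * π⁻¹)
          · rw [if_pos hb]
            rcases h a π hb with h1 | h1 | ⟨h1, h2⟩
            · rw [if_pos h1, if_neg (c := two a) h1]
              have := h0 (¬ prim (π * a * π⁻¹))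
              linarith
            · rw [if_pos h1]
              have := h0 (¬ two a)
              have : (0 : ℝ) ≤ if two a then (if R a π then (1 : ℝ) else 0) else 0 := by
                split
                · exact h0 _
                · exact le_refl _
              linarith
            · rw [if_pos h1, if_pos h2]
              have := h0 (¬ two a)
              have := h0 (¬ prim (π * a * π⁻¹))
              linarith
          · rw [if_neg hb]
            have := h0 (¬ two a)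
            have := h0 (¬ prim (π * a * π⁻¹))
            have : (0 : ℝ) ≤ if two a then (if R a π then (1 : ℝ) else 0) else 0 := by
              split
              · exact h0 _
              · exact le_refl _
            linarith
      _ = (Nat.card G : ℝ) * (∑ a, if ¬ two a then (1 : ℝ) else 0) +
            (Nat.card G : ℝ) * (∑ a, if ¬ prim a then (1 : ℝ) else 0) +
            ∑ a, (if two a then (∑ π : G, if R a π then (1 : ℝ) else 0) else 0) := by
          simp_rw [Finset.sum_add_distrib]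
          congr 1
          · congr 1
            · rw [Finset.sum_const, nsmul_eq_mul, hcard]
            · rw [Finset.sum_congr rfl (fun π _ => hconj (fun x => ¬ prim x) π), Finset.sum_const,
                nsmul_eq_mul, hcard]
          · rw [Finset.sum_comm]
            refine Finset.sum_congr rfl fun a _ => ?_
            split
            · rfl
            · simp
      _ ≤ (Nat.card G : ℝ) * (s * (Nat.card G : ℝ)) + (Nat.card G : ℝ) * (p * (Nat.card G : ℝ)) +
            ∑ _a : G, (r * (Nat.card G : ℝ)) := by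
          refine add_le_add (add_le_add (mul_le_mul_of_nonneg_left hs hN.le)
            (mul_le_mul_of_nonneg_left hp hN.le)) (Finset.sum_le_sum fun a _ => ?_)
          split
          · rename_i ha
            have := hR a ha
            rw [RK2_card] at this
            exact this
          · positivity
      _ = (Nat.card G : ℝ) * ((s + p + r) * (Nat.card G : ℝ)) := by
          rw [Finset.sum_const, nsmul_eq_mul, hcard]
          ring
  exact le_of_mul_le_mul_left key hN

theorem RK2_tt (K n : ℕ) (h : 2 ^ (K ^ 4) ≤ n) : K ≤ tt n := by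
  unfold tt
  have hn : n ≠ 0 := by
    have : 0 < 2 ^ (K ^ 4) := by positivity
    omega
  have h1 : K ^ 4 ≤ Nat.log 2 n := (Nat.le_log_iff_pow_le (by norm_num) hn).mpr h
  rw [Nat.le_sqrt, Nat.le_sqrt]
  calc K * K * (K * K) = K ^ 4 := by ring
    _ ≤ _ := h1

theorem RK2_log (n : ℕ) : tt n ^ 4 ≤ Nat.log 2 n := by
  unfold tt
  have h1 := Nat.sqrt_le (Nat.sqrt (Nat.log 2 n))
  have h2 := Nat.sqrt_le (Nat.log 2 n)
  calc Nat.sqrt (Nat.sqrt (Nat.log 2 n)) ^ 4
      = (Nat.sqrt (Nat.sqrt (Nat.log 2 n)) * Nat.sqrt (Nat.sqrt (Nat.log 2 n))) *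
        (Nat.sqrt (Nat.sqrt (Nat.log 2 n)) * Nat.sqrt (Nat.sqrt (Nat.log 2 n))) := by ring
    _ ≤ Nat.sqrt (Nat.log 2 n) * Nat.sqrt (Nat.log 2 n) := Nat.mul_le_mul h1 h1
    _ ≤ Nat.log 2 n := h2

/-- the last term -/
theorem RK2_last (n : ℕ) (ht : 2 ≤ tt n) :
    (6 : ℝ) ≤ n ∧ (((2 : ℝ) ^ (Nat.log 2 n / 8)) ^ 4) / ((n : ℝ) - 3) ≤ 2 / (tt n : ℝ) := by
  set L := Nat.log 2 n with hL
  have h1 : tt n ^ 4 ≤ L := RK2_log n
  have hL16 : 16 ≤ L := le_trans (by
    calc 16 = 2 ^ 4 := by norm_num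
      _ ≤ tt n ^ 4 := Nat.pow_le_pow_left ht 4) h1
  have hn0 : n ≠ 0 := by
    rintro rfl
    simp at hL
    omega
  have h2 : 2 ^ L ≤ n := Nat.pow_log_le_self 2 hn0
  have h3 : 2 ^ 16 ≤ n := le_trans (Nat.pow_le_pow_right (by norm_num) hL16) h2
  have h6 : (6 : ℝ) ≤ n := by
    have : 6 ≤ n := by omega
    exact_mod_cast this
  refine ⟨h6, ?_⟩
  have h4 : tt n ≤ L / 2 := by
    have : tt n * 8 ≤ tt n ^ 4 := by
      calc tt n * 8 = tt n * 2 ^ 3 := by norm_num
        _ ≤ tt n * tt n ^ 3 := Nat.mul_le_mul_left _ (Nat.pow_le_pow_left ht 3)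
        _ = tt n ^ 4 := by ring
    omega
  have h5 : tt n ≤ 2 ^ (L / 2) := le_trans h4 (Nat.lt_two_pow_self).le
  have ht0 : (0 : ℝ) < (tt n : ℝ) := by
    have : 0 < tt n := by omega
    exact_mod_cast this
  have h7 : ((2 : ℝ) ^ (L / 8)) ^ 4 ≤ 2 ^ (L / 2) := by
    rw [← pow_mul]
    exact pow_le_pow_right₀ (by norm_num) (by omega)
  have h8 : (2 : ℝ) ^ (L / 2) * (tt n : ℝ) ≤ n := by
    have : 2 ^ (L / 2) * tt n ≤ n := by
      calc 2 ^ (L / 2) * tt n ≤ 2 ^ (L / 2) * 2 ^ (L / 2) := Nat.mul_le_mul_left _ h5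
        _ = 2 ^ (L / 2 + L / 2) := by rw [pow_add]
        _ ≤ 2 ^ L := Nat.pow_le_pow_right (by norm_num) (by omega)
        _ ≤ n := h2
    exact_mod_cast this
  rw [div_le_div_iff₀ (by linarith) ht0]
  calc ((2 : ℝ) ^ (L / 8)) ^ 4 * (tt n : ℝ) ≤ 2 ^ (L / 2) * (tt n : ℝ) :=
        mul_le_mul_of_nonneg_right h7 ht0.le
    _ ≤ n := h8
    _ ≤ 2 * ((n : ℝ) - 3) := by linarith

/-- RK2, with the other blocks as hypotheses. -/
theorem RK2_generic_pair
    (hts : ∀ η : ℝ, 0 < η → ∃ n0 : ℕ, ∀ n ≥ n0,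
      (Nat.card {s : Perm (Fin n) // ¬ TwoSmall (tt n ^ 6) (2 ^ (Nat.log 2 n / 8)) s} : ℝ) ≤
        η * (n.factorial : ℝ))
    (hpr : ∀ η : ℝ, 0 < η → ∃ n0 : ℕ, ∀ n ≥ n0, ∀ τ : Perm (Fin n),
      ncyc τ ≤ tt n ^ 5 →
      (Nat.card {a : Perm (Fin n) //
        ¬ MulAction.IsPreprimitive (Subgroup.closure ({a, τ} : Set (Perm (Fin n)))) (Fin n)} : ℝ) ≤
        η * (n.factorial : ℝ))
    (hpos : ∀ (n : ℕ) (τ : Perm (Fin n)) (x0 : Fin n) (C C' : Finset (Fin n)),
      _root_.Disjoint C C' → C.Nonempty → C'.Nonempty → 4 ≤ Fintype.card (Fin n) →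
      (Nat.card {π : Perm (Fin n) // ¬ ∃ i : ℕ,
        (C.image (fun x => (τ ^ i) (π x)) ∩ C'.image (fun x => π x)).card = 1} : ℝ) ≤
        ((Fintype.card (Fin n)).factorial : ℝ) *
          ((Fintype.card (Fin n) : ℝ) / ((C.card : ℝ) * (len τ x0 : ℝ)) +
           (Fintype.card (Fin n) : ℝ) / ((C'.card : ℝ) * (len τ x0 : ℝ)) +
           ((C.card : ℝ) * (C'.card : ℝ)) ^ 2 / ((Fintype.card (Fin n) : ℝ) - 3)))
    (hcomm : ∀ (n : ℕ) (f g : Perm (Fin n)) (x : Fin n), f.support ∩ g.support = {x} →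
      IsThreeCycle (f * g * f⁻¹ * g⁻¹))
    (hlong : ∀ (n : ℕ) (s : Perm (Fin n)), 1 ≤ Fintype.card (Fin n) →
      ∃ x, Fintype.card (Fin n) ≤ ncyc s * len s x)
    (η : ℝ) (hη : 0 < η) : ∃ n0 : ℕ, ∀ n ≥ n0, ∀ τ : Perm (Fin n),
    ncyc τ ≤ tt n ^ 5 →
    (Nat.card {a : Perm (Fin n) //
      ¬ alternatingGroup (Fin n) ≤ Subgroup.closure ({a, τ} : Set (Perm (Fin n)))} : ℝ) ≤
      η * (n.factorial : ℝ) := by
  obtain ⟨n1, h1⟩ := hts (η / 3) (by positivity)
  obtain ⟨n2, h2⟩ := hpr (η / 3) (by positivity)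
  obtain ⟨K, hK⟩ := exists_nat_ge (12 / η)
  refine ⟨max (max n1 n2) (2 ^ ((max K 2) ^ 4)), fun n hn τ hτ => ?_⟩
  have hn1 : n1 ≤ n := le_trans (le_trans (le_max_left _ _) (le_max_left _ _)) hn
  have hn2 : n2 ≤ n := le_trans (le_trans (le_max_right _ _) (le_max_left _ _)) hn
  have htK : max K 2 ≤ tt n := RK2_tt _ _ (le_trans (le_max_right _ _) hn)
  have ht2 : 2 ≤ tt n := le_trans (le_max_right _ _) htK
  have htK' : 12 / η ≤ (tt n : ℝ) := le_trans hK (by exact_mod_cast le_trans (le_max_left _ _) htK)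
  obtain ⟨h6, hlast⟩ := RK2_last n ht2
  have ht0 : (0 : ℝ) < (tt n : ℝ) := by
    have : 0 < tt n := by omega
    exact_mod_cast this
  have h6' : 6 ≤ n := by exact_mod_cast h6
  obtain ⟨x0, hx0⟩ := hlong n τ (by simp; omega)
  rw [Fintype.card_fin] at hx0
  have hcardG : (Nat.card (Perm (Fin n)) : ℝ) = (n.factorial : ℝ) := by
    rw [Nat.card_perm, Nat.card_eq_fintype_card, Fintype.card_fin]
  have hlen : 0 < len τ x0 := by
    rcases Nat.eq_zero_or_pos (len τ x0) with h0 | h0
    · rw [h0, mul_zero] at hx0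
      omega
    · exact h0
  have hlen' : (0 : ℝ) < (len τ x0 : ℝ) := by exact_mod_cast hlen
  -- each of the first two terms
  have hfirst : ∀ c : ℕ, tt n ^ 6 ≤ c → (n : ℝ) / ((c : ℝ) * (len τ x0 : ℝ)) ≤ 1 / (tt n : ℝ) := by
    intro c hc
    have hc0 : 0 < c := lt_of_lt_of_le (by positivity) hc
    have hc0' : (0 : ℝ) < (c : ℝ) := by exact_mod_cast hc0
    rw [div_le_div_iff₀ (by positivity) ht0]
    have : n * tt n ≤ 1 * (c * len τ x0) := by
      calc n * tt n ≤ (ncyc τ * len τ x0) * tt n := Nat.mul_le_mul_right _ hx0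
        _ ≤ (tt n ^ 5 * len τ x0) * tt n :=
            Nat.mul_le_mul_right _ (Nat.mul_le_mul_right _ hτ)
        _ = tt n ^ 6 * len τ x0 := by ring
        _ ≤ c * len τ x0 := Nat.mul_le_mul_right _ hc
        _ = 1 * (c * len τ x0) := by ring
    exact_mod_cast this
  -- choose the exponents
  classical
  have hch : ∀ a : Perm (Fin n), ∃ NN : ℕ × ℕ,
      TwoSmall (tt n ^ 6) (2 ^ (Nat.log 2 n / 8)) a →
      _root_.Disjoint (a ^ NN.1).support (a ^ NN.2).support ∧
      tt n ^ 6 ≤ (a ^ NN.1).support.card ∧ (a ^ NN.1).support.card ≤ 2 ^ (Nat.log 2 n / 8) ∧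
      tt n ^ 6 ≤ (a ^ NN.2).support.card ∧ (a ^ NN.2).support.card ≤ 2 ^ (Nat.log 2 n / 8) := by
    intro a
    by_cases h : TwoSmall (tt n ^ 6) (2 ^ (Nat.log 2 n / 8)) a
    · obtain ⟨N, N', h⟩ := h
      exact ⟨(N, N'), fun _ => h⟩
    · exact ⟨(0, 0), fun h' => absurd h' h⟩
  choose NN hNN using hch
  have main := RK2_double (G := Perm (Fin n))
    (bad := fun a => ¬ alternatingGroup (Fin n) ≤ Subgroup.closure ({a, τ} : Set (Perm (Fin n))))
    (two := fun a => TwoSmall (tt n ^ 6) (2 ^ (Nat.log 2 n / 8)) a)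
    (prim := fun a =>
      MulAction.IsPreprimitive (Subgroup.closure ({a, τ} : Set (Perm (Fin n)))) (Fin n))
    (R := fun a π => ¬ ∃ i : ℕ, ((a ^ (NN a).1).support.image (fun x => (τ ^ i) (π x)) ∩
      (a ^ (NN a).2).support.image (fun x => π x)).card = 1)
    (s := η / 3) (p := η / 3) (r := 4 / (tt n : ℝ)) (by positivity)
    (by
      intro a π hbad
      by_contra hcon
      push Not at hcon
      obtain ⟨c1, c2, c3⟩ := hcon
      obtain ⟨i, hi⟩ := c3 c1
      apply hbad
      refine RK2_group τ (π * a * π⁻¹) c2 (hcomm n) (NN a).1 (NN a).2 i ?_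
      have e1 : ∀ M : ℕ, (π * a * π⁻¹) ^ M = π * a ^ M * π⁻¹ := fun M => by
        rw [conj_pow]
      rw [e1, e1, RK2_support_conj, RK2_support_conj, Finset.image_image]
      exact hi)
    (by rw [hcardG]; exact h1 n hn1)
    (by rw [hcardG]; exact h2 n hn2 τ hτ)
    (by
      intro a ha
      obtain ⟨d1, d2, d3, d4, d5⟩ := hNN a ha
      have hw : 0 < tt n ^ 6 := by positivity
      have hp := hpos n τ x0 (a ^ (NN a).1).support (a ^ (NN a).2).support d1
        (Finset.card_pos.mp (lt_of_lt_of_le hw d2)) (Finset.card_pos.mp (lt_of_lt_of_le hw d4))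
        (by rw [Fintype.card_fin]; omega)
      rw [Fintype.card_fin] at hp
      rw [hcardG]
      refine le_trans hp ?_
      rw [mul_comm]
      refine mul_le_mul_of_nonneg_right ?_ (by positivity)
      have e1 := hfirst _ d2
      have e2 := hfirst _ d4
      have e3 : (((a ^ (NN a).1).support.card : ℝ) * ((a ^ (NN a).2).support.card : ℝ)) ^ 2 /
          ((n : ℝ) - 3) ≤ 2 / (tt n : ℝ) := by
        refine le_trans ?_ hlast
        refine div_le_div_of_nonneg_right ?_ (by linarith)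
        have f1 : ((a ^ (NN a).1).support.card : ℝ) ≤ 2 ^ (Nat.log 2 n / 8) := by exact_mod_cast d3
        have f2 : ((a ^ (NN a).2).support.card : ℝ) ≤ 2 ^ (Nat.log 2 n / 8) := by exact_mod_cast d5
        calc (((a ^ (NN a).1).support.card : ℝ) * ((a ^ (NN a).2).support.card : ℝ)) ^ 2
            ≤ ((2 : ℝ) ^ (Nat.log 2 n / 8) * (2 : ℝ) ^ (Nat.log 2 n / 8)) ^ 2 := by
              gcongr
          _ = ((2 : ℝ) ^ (Nat.log 2 n / 8)) ^ 4 := by ring
      have e4 : 4 / (tt n : ℝ) = 1 / (tt n : ℝ) + 1 / (tt n : ℝ) + 2 / (tt n : ℝ) := by ring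
      rw [e4]
      exact add_le_add (add_le_add e1 e2) e3)
  rw [hcardG] at main
  refine le_trans main ?_
  refine mul_le_mul_of_nonneg_right ?_ (by positivity)
  have : 4 / (tt n : ℝ) ≤ η / 3 := by
    rw [div_le_iff₀ ht0]
    rw [div_le_iff₀ hη] at htK'
    linarith
  linarith

end RK2

end RND40
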