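import Mathlib
import Pool.Agent.Lib_helper40.RND.Defs
import Pool.Agent.Lib_helper40.RND.RB

set_option autoImplicit false

namespace RND40

open Equiv Equiv.Perm

variable {α : Type*} [Fintype α] [DecidableEq α]

/-! ### stub of block RB -/


/-! ### block RL -/

theorem RL_exists (φ : Perm α) (p : α → Prop) (x : {x // p x}) :
    ∃ d : ℕ, 0 < d ∧ p ((φ ^ d) x) :=
  ⟨orderOf φ, orderOf_pos φ, by rw [pow_orderOf_eq_one]; exact x.2⟩

open Classical in
/-- the return time -/
noncomputable def RL_d (φ : Perm α) (p : α → Prop) (x : {x // p x}) : ℕ :=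
  Nat.find (RL_exists φ p x)

theorem RL_d_pos (φ : Perm α) (p : α → Prop) (x : {x // p x}) : 0 < RL_d φ p x := by
  classical
  exact (Nat.find_spec (RL_exists φ p x)).1

theorem RL_d_mem (φ : Perm α) (p : α → Prop) (x : {x // p x}) : p ((φ ^ (RL_d φ p x)) x) := by
  classical
  exact (Nat.find_spec (RL_exists φ p x)).2

theorem RL_d_min (φ : Perm α) (p : α → Prop) (x : {x // p x}) (i : ℕ) (hi : 0 < i)
    (hid : i < RL_d φ p x) : ¬ p ((φ ^ i) x) := by
  classical
  intro h
  exact Nat.find_min (RL_exists φ p x) hid ⟨hi, h⟩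

/-- the return map -/
noncomputable def RL_f (φ : Perm α) (p : α → Prop) (x : {x // p x}) : {x // p x} :=
  ⟨(φ ^ (RL_d φ p x)) x, RL_d_mem φ p x⟩

theorem RL_f_inj (φ : Perm α) (p : α → Prop) : Function.Injective (RL_f φ p) := by
  have key : ∀ x y : {x // p x}, RL_d φ p x ≤ RL_d φ p y →
      (φ ^ (RL_d φ p x)) (x : α) = (φ ^ (RL_d φ p y)) (y : α) → x = y := by
    intro x y hle h
    obtain ⟨e, he⟩ := Nat.exists_eq_add_of_le hle
    rw [he, pow_add, Perm.mul_apply] at h
    have h2 : (x : α) = (φ ^ e) (y : α) := (φ ^ (RL_d φ p x)).injective h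
    rcases Nat.eq_zero_or_pos e with h0 | hpos
    · rw [h0, pow_zero] at h2
      exact Subtype.ext h2
    · exfalso
      have h3 := RL_d_min φ p y e hpos (by
        have := RL_d_pos φ p x
        omega)
      rw [← h2] at h3
      exact h3 x.2
  intro x y h
  have h1 : (φ ^ (RL_d φ p x)) (x : α) = (φ ^ (RL_d φ p y)) (y : α) := congrArg Subtype.val h
  rcases le_total (RL_d φ p x) (RL_d φ p y) with hle | hle
  · exact key x y hle h1
  · exact (key y x hle h1.symm).symm

/-- the return permutation -/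
noncomputable def RL_R (φ : Perm α) (p : α → Prop) : Perm {x // p x} :=
  Equiv.ofBijective (RL_f φ p) (Finite.injective_iff_bijective.1 (RL_f_inj φ p))

theorem RL_step (φ : Perm α) (p : α → Prop) [DecidablePred p] (γ : Perm {x // p x})
    (x : {x // p x}) :
    SameCycle (Perm.ofSubtype γ * φ) (x : α) ((γ * RL_R φ p) x : {x // p x}) := by
  have h1 : ∀ i, i < RL_d φ p x → ((Perm.ofSubtype γ * φ) ^ i) (x : α) = (φ ^ i) (x : α) := by
    intro i
    induction i with
    | zero => intro _; simp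
    | succ i ih =>
      intro hi
      have h2 := ih (by omega)
      rw [pow_succ', Perm.mul_apply, h2, pow_succ', Perm.mul_apply, Perm.mul_apply]
      have h3 := RL_d_min φ p x (i + 1) (Nat.succ_pos i) hi
      rw [pow_succ', Perm.mul_apply] at h3
      exact Perm.ofSubtype_apply_of_not_mem γ h3
  obtain ⟨d, hd⟩ := Nat.exists_eq_succ_of_ne_zero (RL_d_pos φ p x).ne'
  refine ⟨(RL_d φ p x : ℕ), ?_⟩
  rw [zpow_natCast]
  have h4 : ((Perm.ofSubtype γ * φ) ^ (d + 1)) (x : α) = Perm.ofSubtype γ ((φ ^ (d + 1)) (x : α)) := by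
    rw [pow_succ', Perm.mul_apply, h1 d (by omega), Perm.mul_apply, pow_succ', Perm.mul_apply]
  have h5 : RL_d φ p x = d + 1 := hd
  have h6 := RL_d_mem φ p x
  rw [h5] at h6
  rw [h5, h4, Perm.ofSubtype_apply_of_mem γ h6, Perm.mul_apply]
  congr 2
  apply Subtype.ext
  show (φ ^ (d + 1)) (x : α) = (φ ^ (RL_d φ p x)) (x : α)
  rw [h5]

theorem RL_same (φ : Perm α) (p : α → Prop) [DecidablePred p] (γ : Perm {x // p x})
    (x y : {x // p x}) (h : SameCycle (γ * RL_R φ p) x y) :
    SameCycle (Perm.ofSubtype γ * φ) (x : α) (y : α) := by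
  obtain ⟨i, _, hi⟩ := h.exists_pow_eq'
  have h1 : ∀ j : ℕ, SameCycle (Perm.ofSubtype γ * φ) (x : α)
      (((γ * RL_R φ p) ^ j) x : {x // p x}) := by
    intro j
    induction j with
    | zero => exact SameCycle.refl _ _
    | succ j ih =>
      rw [pow_succ', Perm.mul_apply]
      exact ih.trans (RL_step φ p γ _)
  rw [← hi]
  exact h1 i

theorem RL_le (φ : Perm α) (p : α → Prop) [DecidablePred p] (γ : Perm {x // p x}) :
    Nat.card {c : Quotient (SameCycle.setoid (Perm.ofSubtype γ * φ)) //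
        ∃ x, p x ∧ Quotient.mk (SameCycle.setoid (Perm.ofSubtype γ * φ)) x = c} ≤
      ncyc (γ * RL_R φ p) := by
  classical
  unfold ncyc
  apply Nat.card_le_card_of_surjective
    (f := fun c : Quotient (SameCycle.setoid (γ * RL_R φ p)) =>
      Quotient.liftOn c (fun x => (⟨Quotient.mk _ (x : α), x, x.2, rfl⟩ :
        {c : Quotient (SameCycle.setoid (Perm.ofSubtype γ * φ)) //
        ∃ x, p x ∧ Quotient.mk (SameCycle.setoid (Perm.ofSubtype γ * φ)) x = c}))
        (fun x y hxy => Subtype.ext (Quotient.sound (RL_same φ p γ x y hxy))))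
  rintro ⟨c, x, hx, rfl⟩
  exact ⟨Quotient.mk _ ⟨x, hx⟩, rfl⟩

theorem sum_meet_le (φ : Perm α) (p : α → Prop) [DecidablePred p] :
    ∑ γ : Perm {x // p x},
      (Nat.card {c : Quotient (SameCycle.setoid (Perm.ofSubtype γ * φ)) //
        ∃ x, p x ∧ Quotient.mk (SameCycle.setoid (Perm.ofSubtype γ * φ)) x = c} : ℝ) ≤
      ((Fintype.card {x // p x}).factorial : ℝ) *
        (1 + Real.log (Fintype.card α : ℝ)) := by
  classical
  rcases Nat.eq_zero_or_pos (Fintype.card {x // p x}) with h0 | hpos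
  · have hemp : IsEmpty {x // p x} := Fintype.card_eq_zero_iff.1 h0
    have hz : ∀ γ : Perm {x // p x},
        (Nat.card {c : Quotient (SameCycle.setoid (Perm.ofSubtype γ * φ)) //
        ∃ x, p x ∧ Quotient.mk (SameCycle.setoid (Perm.ofSubtype γ * φ)) x = c} : ℝ) = 0 := by
      intro γ
      have : IsEmpty {c : Quotient (SameCycle.setoid (Perm.ofSubtype γ * φ)) //
          ∃ x, p x ∧ Quotient.mk (SameCycle.setoid (Perm.ofSubtype γ * φ)) x = c} := by
        constructor
        rintro ⟨c, x, hx, _⟩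
        exact hemp.false ⟨x, hx⟩
      simp
    simp only [hz, Finset.sum_const_zero]
    have hlog : 0 ≤ Real.log (Fintype.card α : ℝ) := Real.log_natCast_nonneg _
    positivity
  · calc ∑ γ : Perm {x // p x},
      (Nat.card {c : Quotient (SameCycle.setoid (Perm.ofSubtype γ * φ)) //
        ∃ x, p x ∧ Quotient.mk (SameCycle.setoid (Perm.ofSubtype γ * φ)) x = c} : ℝ)
        ≤ ∑ γ : Perm {x // p x}, (ncyc (γ * RL_R φ p) : ℝ) := by
          apply Finset.sum_le_sum
          intro γ _
          exact_mod_cast RL_le φ p γ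
      _ = ∑ γ : Perm {x // p x}, (ncyc γ : ℝ) :=
          Equiv.sum_comp (Equiv.mulRight (RL_R φ p)) (fun γ => (ncyc γ : ℝ))
      _ ≤ ((Fintype.card {x // p x}).factorial : ℝ) *
        (1 + Real.log (Fintype.card {x // p x} : ℝ)) := sum_ncyc_le hpos
      _ ≤ ((Fintype.card {x // p x}).factorial : ℝ) *
        (1 + Real.log (Fintype.card α : ℝ)) := by
          have h1 : (Fintype.card {x // p x} : ℝ) ≤ Fintype.card α := by
            exact_mod_cast Fintype.card_subtype_le p
          have h2 : (0 : ℝ) < Fintype.card {x // p x} := by exact_mod_cast hpos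
          gcongr

end RND40
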