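import Pool.Agent.Lib_helper40.RND.Defs

set_option autoImplicit false

/-! Block RL2: from pairs of permutations to bireversible transducers. -/

namespace RND40

open Equiv Equiv.Perm Finset

/-- number of cycles meeting `p` -/
noncomputable def meet {α : Type*} (p : α → Prop) (φ : Perm α) : ℕ :=
  Nat.card {c : Quotient (SameCycle.setoid φ) //
        ∃ x, p x ∧ Quotient.mk (SameCycle.setoid φ) x = c}

section

variable {n k : ℕ}

lemma rl2_bir_update (D : Fin k → Perm (Fin n)) (O : Fin n → Perm (Fin k)) (x0 y : Fin k)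
    (g : Perm {q : Fin n // O q x0 = y}) (hB : Bir D O) :
    Bir (Function.update D x0 (D x0 * (Perm.ofSubtype g)⁻¹)) O := by
  intro y'
  have hnot : ∀ q, O q x0 ≠ y → (Perm.ofSubtype g)⁻¹ q = q := by
    intro q hq
    rw [Perm.inv_eq_iff_eq]
    exact (Perm.ofSubtype_apply_of_not_mem g hq).symm
  by_cases hy : y' = y
  · subst hy
    have h1 : (fun q => (Function.update D x0 (D x0 * (Perm.ofSubtype g)⁻¹)) ((O q)⁻¹ y') q) =
        (fun q => D ((O q)⁻¹ y') q) ∘ ((Perm.ofSubtype g)⁻¹ : Perm (Fin n)) := by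
      funext q
      simp only [Function.comp_apply]
      by_cases hq : O q x0 = y'
      · have h2 : (O q)⁻¹ y' = x0 := by rw [← hq]; simp
        have h3 : O ((Perm.ofSubtype g)⁻¹ q) x0 = y' := by
          rw [← map_inv]
          rw [Perm.ofSubtype_apply_of_mem (g⁻¹) hq]
          exact (g⁻¹ ⟨q, hq⟩).2
        have h4 : (O ((Perm.ofSubtype g)⁻¹ q))⁻¹ y' = x0 := by
          rw [Perm.inv_eq_iff_eq]
          exact h3.symm
        rw [h2, h4, Function.update_self, Perm.mul_apply]
      · have h2 : (O q)⁻¹ y' ≠ x0 := by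
          intro h
          apply hq
          rw [← h]; simp
        rw [Function.update_of_ne h2, hnot q hq]
    rw [h1]
    exact (hB y').comp (Equiv.bijective _)
  · have h1 : (fun q => (Function.update D x0 (D x0 * (Perm.ofSubtype g)⁻¹)) ((O q)⁻¹ y') q) =
        (fun q => D ((O q)⁻¹ y') q) := by
      funext q
      by_cases h2 : (O q)⁻¹ y' = x0
      · have hq : O q x0 ≠ y := by
          intro h
          apply hy
          rw [← h, ← h2]; simp
        rw [h2, Function.update_self, Perm.mul_apply, hnot q hq]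
      · rw [Function.update_of_ne h2]
    rw [h1]
    exact hB y'

/-- the update as an equivalence -/
def rl2_upd (O : Fin n → Perm (Fin k)) (x0 y : Fin k)
    (g : Perm {q : Fin n // O q x0 = y}) : (Fin k → Perm (Fin n)) ≃ (Fin k → Perm (Fin n)) where
  toFun D := Function.update D x0 (D x0 * (Perm.ofSubtype g)⁻¹)
  invFun D := Function.update D x0 (D x0 * (Perm.ofSubtype g))
  left_inv := by
    intro D
    funext x
    by_cases hx : x = x0
    · subst hx; simp
    · simp [Function.update_of_ne hx]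
  right_inv := by
    intro D
    funext x
    by_cases hx : x = x0
    · subst hx; simp
    · simp [Function.update_of_ne hx]

open Classical in
lemma rl2_avg1 (hsum : ∀ (φ : Perm (Fin n)) (p : Fin n → Prop) [DecidablePred p],
      ∑ γ : Perm {x // p x}, (meet p (Perm.ofSubtype γ * φ) : ℝ) ≤
      ((Fintype.card {x // p x}).factorial : ℝ) * (1 + Real.log (n : ℝ)))
    (O : Fin n → Perm (Fin k)) (x0 x1 y : Fin k) (hx : x1 ≠ x0) :
    ∑ D ∈ univ.filter (fun D : Fin k → Perm (Fin n) => Bir D O),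
      (meet (fun q => O q x0 = y) ((D x0)⁻¹ * D x1) : ℝ) ≤
      ((univ.filter (fun D : Fin k → Perm (Fin n) => Bir D O)).card : ℝ) *
        (1 + Real.log (n : ℝ)) := by
  set F := univ.filter (fun D : Fin k → Perm (Fin n) => Bir D O) with hF
  set p : Fin n → Prop := fun q => O q x0 = y with hp
  set G : (Fin k → Perm (Fin n)) → ℝ := fun D => (meet p ((D x0)⁻¹ * D x1) : ℝ) with hG
  have h1 : ∀ γ : Perm {x // p x}, ∑ D ∈ F, G D = ∑ D ∈ F, G (rl2_upd O x0 y γ D) := by
    intro γ
    symm
    apply Finset.sum_equiv (rl2_upd O x0 y γ)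
    · intro D
      simp only [hF, mem_filter, mem_univ, true_and]
      constructor
      · intro h
        exact rl2_bir_update D O x0 y γ h
      · intro h
        have h2 := rl2_bir_update _ O x0 y γ⁻¹ h
        have h3 : Function.update ((rl2_upd O x0 y γ) D) x0
            ((rl2_upd O x0 y γ) D x0 * (Perm.ofSubtype γ⁻¹)⁻¹) = D := by
          rw [map_inv, inv_inv]
          exact (rl2_upd O x0 y γ).left_inv D
        rw [h3] at h2
        exact h2
    · intro D _
      rfl
  have h2 : ((Fintype.card {x // p x}).factorial : ℝ) * ∑ D ∈ F, G D =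
      ∑ D ∈ F, ∑ γ : Perm {x // p x}, (meet p (Perm.ofSubtype γ * ((D x0)⁻¹ * D x1)) : ℝ) := by
    rw [Finset.sum_comm]
    have h3 : ∀ γ : Perm {x // p x}, ∑ D ∈ F, (meet p (Perm.ofSubtype γ * ((D x0)⁻¹ * D x1)) : ℝ)
        = ∑ D ∈ F, G D := by
      intro γ
      rw [h1 γ]
      apply Finset.sum_congr rfl
      intro D _
      simp only [hG, rl2_upd, Equiv.coe_fn_mk, Function.update_self, Function.update_of_ne hx]
      rw [mul_inv_rev, inv_inv, mul_assoc]
    rw [Finset.sum_congr rfl (fun γ _ => h3 γ), Finset.sum_const, nsmul_eq_mul, Finset.card_univ,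
      Fintype.card_perm]
  have h3 : ((Fintype.card {x // p x}).factorial : ℝ) * ∑ D ∈ F, G D ≤
      ((Fintype.card {x // p x}).factorial : ℝ) * ((F.card : ℝ) * (1 + Real.log (n : ℝ))) := by
    rw [h2]
    calc ∑ D ∈ F, ∑ γ : Perm {x // p x}, (meet p (Perm.ofSubtype γ * ((D x0)⁻¹ * D x1)) : ℝ)
        ≤ ∑ _D ∈ F, ((Fintype.card {x // p x}).factorial : ℝ) * (1 + Real.log (n : ℝ)) := by
          apply Finset.sum_le_sum
          intro D _
          exact hsum _ p
      _ = _ := by
          rw [Finset.sum_const, nsmul_eq_mul]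
          ring
  have hpos : (0 : ℝ) < ((Fintype.card {x // p x}).factorial : ℝ) := by
    exact_mod_cast Nat.factorial_pos _
  exact le_of_mul_le_mul_left h3 hpos

lemma rl2_ncyc_le (φ : Perm (Fin n)) (f : Fin n → Fin k) :
    (ncyc φ : ℝ) ≤ ∑ y : Fin k, (meet (fun q => f q = y) φ : ℝ) := by
  classical
  have h1 : ncyc φ ≤ ∑ y : Fin k, meet (fun q => f q = y) φ := by
    unfold ncyc meet
    have hsig : ∑ y : Fin k, Nat.card {c : Quotient (SameCycle.setoid φ) //
        ∃ x, f x = y ∧ Quotient.mk (SameCycle.setoid φ) x = c} =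
        Nat.card (Σ y : Fin k, {c : Quotient (SameCycle.setoid φ) //
        ∃ x, f x = y ∧ Quotient.mk (SameCycle.setoid φ) x = c}) := by
      rw [Nat.card_sigma]
    rw [hsig]
    apply Nat.card_le_card_of_injective (fun c => (⟨f c.out, c, c.out, rfl, c.out_eq⟩ :
      Σ y : Fin k, {c : Quotient (SameCycle.setoid φ) //
        ∃ x, f x = y ∧ Quotient.mk (SameCycle.setoid φ) x = c}))
    intro c c' hcc
    simp only [Sigma.mk.injEq] at hcc
    obtain ⟨h1, h2⟩ := hcc
    have h3 : ∀ (y y' : Fin k) (a : {c : Quotient (SameCycle.setoid φ) //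
        ∃ x, f x = y ∧ Quotient.mk (SameCycle.setoid φ) x = c})
        (b : {c : Quotient (SameCycle.setoid φ) //
        ∃ x, f x = y' ∧ Quotient.mk (SameCycle.setoid φ) x = c}), y = y' → HEq a b → a.1 = b.1 := by
      intro y y' a b hy hab
      subst hy
      rw [eq_of_heq hab]
    exact h3 _ _ _ _ h1 h2
  exact_mod_cast h1

/-- left multiplication of all transitions -/
lemma rl2_bir_mul (D : Fin k → Perm (Fin n)) (O : Fin n → Perm (Fin k)) (π : Perm (Fin n))
    (hB : Bir D O) : Bir (fun x => π * D x) O := by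
  intro y
  have : (fun q => (π * D ((O q)⁻¹ y)) q) = π ∘ (fun q => D ((O q)⁻¹ y) q) := by
    funext q; simp
  rw [this]
  exact π.bijective.comp (hB y)

open Classical in
/-- the main theorem of the random part, from the block theorems -/
theorem rl2_main
    (hsum : ∀ (n : ℕ) (φ : Perm (Fin n)) (p : Fin n → Prop) [DecidablePred p],
      ∑ γ : Perm {x // p x}, (meet p (Perm.ofSubtype γ * φ) : ℝ) ≤
      ((Fintype.card {x // p x}).factorial : ℝ) * (1 + Real.log (n : ℝ)))
    (hgen : ∀ η : ℝ, 0 < η → ∃ n0 : ℕ, ∀ n ≥ n0, ∀ τ : Perm (Fin n),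
      ncyc τ ≤ tt n ^ 5 →
      (Nat.card {a : Perm (Fin n) //
        ¬ alternatingGroup (Fin n) ≤ Subgroup.closure ({a, τ} : Set (Perm (Fin n)))} : ℝ) ≤
      η * (n.factorial : ℝ))
    (htt : ∀ C : ℝ, ∃ n0 : ℕ, ∀ n ≥ n0, C * (1 + Real.log (n : ℝ)) ≤ (tt n : ℝ) ^ 5)
    (k : ℕ) (hk : 2 ≤ k) (ε : ℝ) (hε : 0 < ε) : ∃ n0 : ℕ, ∀ n ≥ n0,
    (Nat.card {A : (Fin k → Perm (Fin n)) × (Fin n → Perm (Fin k)) //
      Bir A.1 A.2 ∧ ¬ alternatingGroup (Fin n) ≤ Subgroup.closure (Set.range A.1)} : ℝ) ≤
      ε * (Nat.card {A : (Fin k → Perm (Fin n)) × (Fin n → Perm (Fin k)) // Bir A.1 A.2} : ℝ) := by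
  obtain ⟨n1, h1⟩ := hgen (ε / 2) (by positivity)
  obtain ⟨n2, h2⟩ := htt (2 * k / ε)
  refine ⟨max (max n1 n2) 1, fun n hn => ?_⟩
  have hn1 : n1 ≤ n := le_trans (le_max_left _ _) (le_trans (le_max_left _ _) hn)
  have hn2 : n2 ≤ n := le_trans (le_max_right _ _) (le_trans (le_max_left _ _) hn)
  have hnpos : 1 ≤ n := le_trans (le_max_right _ _) hn
  have hgn := h1 n hn1
  have htn := h2 n hn2
  set x0 : Fin k := ⟨0, by omega⟩ with hx0
  set x1 : Fin k := ⟨1, by omega⟩ with hx1
  have hx : x1 ≠ x0 := by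
    intro h
    have := congrArg Fin.val h
    simp [hx0, hx1] at this
  let T := (Fin k → Perm (Fin n)) × (Fin n → Perm (Fin k))
  set B : Finset T := univ.filter (fun A : T => Bir A.1 A.2) with hB
  set c0 : ℕ := tt n ^ 5 with hc0
  let τ : T → Perm (Fin n) := fun A => (A.1 x0)⁻¹ * A.1 x1
  set B1 : Finset T := B.filter (fun A => c0 < ncyc (τ A)) with hB1
  set B2 : Finset T := B.filter (fun A => ncyc (τ A) ≤ c0 ∧
    ¬ alternatingGroup (Fin n) ≤ Subgroup.closure ({A.1 x0, τ A} : Set (Perm (Fin n)))) with hB2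
  set Bad : Finset T := B.filter (fun A =>
    ¬ alternatingGroup (Fin n) ≤ Subgroup.closure (Set.range A.1)) with hBad
  have hcardB : (Nat.card {A : T // Bir A.1 A.2} : ℝ) = (B.card : ℝ) := by
    rw [Nat.card_eq_fintype_card, Fintype.card_subtype]
  have hcardBad : (Nat.card {A : T //
      Bir A.1 A.2 ∧ ¬ alternatingGroup (Fin n) ≤ Subgroup.closure (Set.range A.1)} : ℝ) =
      (Bad.card : ℝ) := by
    rw [Nat.card_eq_fintype_card, Fintype.card_subtype, hBad, hB, Finset.filter_filter]
  rw [hcardB, hcardBad]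
  have hsub : Bad ⊆ B1 ∪ B2 := by
    intro A hA
    replace hA := Finset.mem_filter.1 hA
    rw [mem_union]
    by_cases hc : ncyc (τ A) ≤ c0
    · right
      refine Finset.mem_filter.2 ⟨hA.1, hc, fun hle => hA.2 (le_trans hle ?_)⟩
      rw [Subgroup.closure_le]
      intro s hs
      rcases hs with hs | hs
      · rw [hs]
        exact Subgroup.subset_closure ⟨x0, rfl⟩
      · rw [hs]
        exact Subgroup.mul_mem _ (Subgroup.inv_mem _ (Subgroup.subset_closure ⟨x0, rfl⟩))
          (Subgroup.subset_closure ⟨x1, rfl⟩)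
    · left
      exact Finset.mem_filter.2 ⟨hA.1, by omega⟩
  -- first part: many cycles
  have hL : (∑ A ∈ B, (ncyc (τ A) : ℝ)) ≤ (k : ℝ) * (1 + Real.log n) * (B.card : ℝ) := by
    have e1 : ∀ F : T → ℝ, ∑ A ∈ B, F A =
        ∑ O : Fin n → Perm (Fin k), ∑ D ∈ univ.filter (fun D : Fin k → Perm (Fin n) => Bir D O),
          F (D, O) := by
      intro F
      rw [hB, Finset.sum_filter, Fintype.sum_prod_type_right]
      apply Finset.sum_congr rfl
      intro O _
      rw [Finset.sum_filter]
    have e2 : (B.card : ℝ) = ∑ O : Fin n → Perm (Fin k),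
        ((univ.filter (fun D : Fin k → Perm (Fin n) => Bir D O)).card : ℝ) := by
      have := e1 (fun _ => 1)
      simp only [Finset.sum_const, nsmul_eq_mul, mul_one] at this
      exact this
    rw [e1, e2, Finset.mul_sum]
    apply Finset.sum_le_sum
    intro O _
    calc ∑ D ∈ univ.filter (fun D : Fin k → Perm (Fin n) => Bir D O), (ncyc (τ (D, O)) : ℝ)
        ≤ ∑ D ∈ univ.filter (fun D : Fin k → Perm (Fin n) => Bir D O),
          ∑ y : Fin k, (meet (fun q => O q x0 = y) ((D x0)⁻¹ * D x1) : ℝ) := by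
          apply Finset.sum_le_sum
          intro D _
          exact rl2_ncyc_le _ (fun q => O q x0)
      _ = ∑ y : Fin k, ∑ D ∈ univ.filter (fun D : Fin k → Perm (Fin n) => Bir D O),
          (meet (fun q => O q x0 = y) ((D x0)⁻¹ * D x1) : ℝ) := Finset.sum_comm
      _ ≤ ∑ _y : Fin k, ((univ.filter (fun D : Fin k → Perm (Fin n) => Bir D O)).card : ℝ) *
          (1 + Real.log (n : ℝ)) := by
          apply Finset.sum_le_sum
          intro y _
          exact rl2_avg1 (fun φ p _ => hsum n φ p) O x0 x1 y hx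
      _ = _ := by
          rw [Finset.sum_const, nsmul_eq_mul, Finset.card_univ, Fintype.card_fin]
          ring
  have hlog : (0 : ℝ) ≤ Real.log (n : ℝ) := Real.log_natCast_nonneg n
  have hc0pos : (0 : ℝ) < (c0 : ℝ) := by
    have h3 : (0 : ℝ) < 2 * k / ε * (1 + Real.log n) := by positivity
    have h4 : (c0 : ℝ) = (tt n : ℝ) ^ 5 := by rw [hc0]; push_cast; ring
    rw [h4]; linarith
  have hP1 : (B1.card : ℝ) ≤ ε / 2 * (B.card : ℝ) := by
    have h3 : (B1.card : ℝ) * (c0 : ℝ) ≤ ∑ A ∈ B, (ncyc (τ A) : ℝ) := by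
      calc (B1.card : ℝ) * (c0 : ℝ) = ∑ _A ∈ B1, (c0 : ℝ) := by
            rw [Finset.sum_const, nsmul_eq_mul]
        _ ≤ ∑ A ∈ B1, (ncyc (τ A) : ℝ) := by
            apply Finset.sum_le_sum
            intro A hA
            rw [hB1, mem_filter] at hA
            exact_mod_cast hA.2.le
        _ ≤ ∑ A ∈ B, (ncyc (τ A) : ℝ) := by
            apply Finset.sum_le_sum_of_subset_of_nonneg (Finset.filter_subset _ _)
            intro A _ _
            positivity
    have h4 : 2 * k / ε * (1 + Real.log n) ≤ (c0 : ℝ) := by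
      have h4 : (c0 : ℝ) = (tt n : ℝ) ^ 5 := by rw [hc0]; push_cast; ring
      rw [h4]; exact htn
    have h5 : (k : ℝ) * (1 + Real.log n) ≤ ε / 2 * (c0 : ℝ) := by
      have h6 : (k : ℝ) * (1 + Real.log n) = ε / 2 * (2 * k / ε * (1 + Real.log n)) := by
        field_simp
      rw [h6]
      exact mul_le_mul_of_nonneg_left h4 (by positivity)
    have h7 : (B1.card : ℝ) * (c0 : ℝ) ≤ (ε / 2 * (B.card : ℝ)) * (c0 : ℝ) := by
      calc (B1.card : ℝ) * (c0 : ℝ) ≤ (k : ℝ) * (1 + Real.log n) * (B.card : ℝ) := h3.trans hL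
        _ ≤ (ε / 2 * (c0 : ℝ)) * (B.card : ℝ) := mul_le_mul_of_nonneg_right h5 (by positivity)
        _ = _ := by ring
    exact le_of_mul_le_mul_right h7 hc0pos
  -- second part
  have hP2 : (B2.card : ℝ) ≤ ε / 2 * (B.card : ℝ) := by
    let mulE : Perm (Fin n) → (T ≃ T) := fun π =>
      { toFun := fun A => (fun x => π * A.1 x, A.2)
        invFun := fun A => (fun x => π⁻¹ * A.1 x, A.2)
        left_inv := by intro A; simp
        right_inv := by intro A; simp }
    let P : T → Prop := fun A => ncyc (τ A) ≤ c0 ∧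
      ¬ alternatingGroup (Fin n) ≤ Subgroup.closure ({A.1 x0, τ A} : Set (Perm (Fin n)))
    have hτ : ∀ π A, τ (mulE π A) = τ A := by
      intro π A
      simp only [τ, mulE, Equiv.coe_fn_mk]
      group
    have hBm : ∀ π A, A ∈ B ↔ mulE π A ∈ B := by
      intro π A
      rw [hB, mem_filter, mem_filter]
      simp only [mem_univ, true_and]
      constructor
      · intro h; exact rl2_bir_mul A.1 A.2 π h
      · intro h
        have := rl2_bir_mul (mulE π A).1 (mulE π A).2 π⁻¹ h
        simpa [mulE] using this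
    have e1 : ∀ π : Perm (Fin n), (B2.card : ℝ) = ∑ A ∈ B, (if P (mulE π A) then (1 : ℝ) else 0) := by
      intro π
      have e2 : (B2.card : ℝ) = ∑ A ∈ B, (if P A then (1 : ℝ) else 0) := by
        rw [hB2, Finset.card_filter]
        push_cast
        rfl
      rw [e2]
      symm
      exact Finset.sum_equiv (mulE π) (fun A => hBm π A) (fun A _ => rfl)
    have e3 : ((n.factorial : ℕ) : ℝ) * (B2.card : ℝ) =
        ∑ A ∈ B, ∑ π : Perm (Fin n), (if P (mulE π A) then (1 : ℝ) else 0) := by
      rw [Finset.sum_comm]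
      rw [Finset.sum_congr rfl (fun π _ => (e1 π).symm), Finset.sum_const, nsmul_eq_mul,
        Finset.card_univ, Fintype.card_perm, Fintype.card_fin]
    have e4 : ∀ A ∈ B, ∑ π : Perm (Fin n), (if P (mulE π A) then (1 : ℝ) else 0) ≤
        ε / 2 * (n.factorial : ℝ) := by
      intro A _
      by_cases hc : ncyc (τ A) ≤ c0
      · have e5 := hgn (τ A) hc
        rw [Nat.card_eq_fintype_card, Fintype.card_subtype] at e5
        have e6 : ∑ π : Perm (Fin n), (if P (mulE π A) then (1 : ℝ) else 0) =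
            ∑ a : Perm (Fin n), (if ¬ alternatingGroup (Fin n) ≤
              Subgroup.closure ({a, τ A} : Set (Perm (Fin n))) then (1 : ℝ) else 0) := by
          apply Finset.sum_equiv (Equiv.mulRight (A.1 x0)) (by simp)
          intro π _
          have e7 : P (mulE π A) ↔ ¬ alternatingGroup (Fin n) ≤
              Subgroup.closure ({π * A.1 x0, τ A} : Set (Perm (Fin n))) := by
            simp only [P, hτ]
            constructor
            · intro h; exact h.2
            · intro h; exact ⟨hc, h⟩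
          simp only [Equiv.coe_mulRight]
          exact if_congr e7 rfl rfl
        rw [e6, Finset.sum_boole]
        exact e5
      · have e5 : ∀ π : Perm (Fin n), ¬ P (mulE π A) := by
          intro π hP
          apply hc
          have := hP.1
          rwa [hτ] at this
        simp only [e5, if_false, Finset.sum_const_zero]
        positivity
    have e8 : ((n.factorial : ℕ) : ℝ) * (B2.card : ℝ) ≤
        ((n.factorial : ℕ) : ℝ) * (ε / 2 * (B.card : ℝ)) := by
      rw [e3]
      calc _ ≤ ∑ _A ∈ B, ε / 2 * (n.factorial : ℝ) := Finset.sum_le_sum e4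
        _ = _ := by rw [Finset.sum_const, nsmul_eq_mul]; ring
    exact le_of_mul_le_mul_left e8 (by exact_mod_cast Nat.factorial_pos n)
  calc (Bad.card : ℝ) ≤ ((B1 ∪ B2).card : ℝ) := by exact_mod_cast Finset.card_le_card hsub
    _ ≤ (B1.card : ℝ) + (B2.card : ℝ) := by exact_mod_cast Finset.card_union_le _ _
    _ ≤ ε / 2 * (B.card : ℝ) + ε / 2 * (B.card : ℝ) := add_le_add hP1 hP2
    _ = ε * (B.card : ℝ) := by ring

end

end RND40
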