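import Pool.Agent.Lib_helper40.RND.Defs

set_option autoImplicit false

/-! Facts on `tt`. -/

namespace RND40

lemma tt_pow_le (n : ℕ) : tt n ^ 4 ≤ Nat.log 2 n := by
  unfold tt
  set k := Nat.log 2 n
  have h1 : Nat.sqrt (Nat.sqrt k) ^ 2 ≤ Nat.sqrt k := Nat.sqrt_le' _
  have h2 : Nat.sqrt k ^ 2 ≤ k := Nat.sqrt_le' _
  calc Nat.sqrt (Nat.sqrt k) ^ 4 = (Nat.sqrt (Nat.sqrt k) ^ 2) ^ 2 := by ring
    _ ≤ Nat.sqrt k ^ 2 := Nat.pow_le_pow_left h1 2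
    _ ≤ k := h2

lemma lt_tt_pow (n : ℕ) : Nat.log 2 n < (tt n + 1) ^ 4 := by
  unfold tt
  set k := Nat.log 2 n
  have h1 : Nat.sqrt k < (Nat.sqrt (Nat.sqrt k) + 1) ^ 2 := Nat.lt_succ_sqrt' _
  have h2 : k < (Nat.sqrt k + 1) ^ 2 := Nat.lt_succ_sqrt' _
  calc k < (Nat.sqrt k + 1) ^ 2 := h2
    _ ≤ ((Nat.sqrt (Nat.sqrt k) + 1) ^ 2) ^ 2 := Nat.pow_le_pow_left h1 2
    _ = _ := by ring

lemma tt_ge (m : ℕ) : ∃ n0 : ℕ, ∀ n ≥ n0, m ≤ tt n := by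
  refine ⟨2 ^ (m ^ 4), fun n hn => ?_⟩
  have h1 : m ^ 4 ≤ Nat.log 2 n := by
    have hn0 : n ≠ 0 := by
      have : 0 < 2 ^ (m ^ 4) := by positivity
      omega
    exact Nat.le_log_of_pow_le (by norm_num) hn
  by_contra h
  push Not at h
  have h2 := lt_tt_pow n
  have h3 : (tt n + 1) ^ 4 ≤ m ^ 4 := Nat.pow_le_pow_left h 4
  omega

/-- `log n <= log2 n + 1`, in terms of `tt` -/
lemma log_le_tt (n : ℕ) (hn : 1 ≤ n) : 1 + Real.log (n : ℝ) ≤ 2 * ((tt n : ℝ) + 1) ^ 4 := by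
  have h1 : n < 2 ^ (Nat.log 2 n + 1) := Nat.lt_pow_succ_log_self (by norm_num) n
  have h2 : Real.log (n : ℝ) ≤ (Nat.log 2 n + 1 : ℕ) * Real.log 2 := by
    rw [← Real.log_pow]
    apply Real.log_le_log
    · exact_mod_cast hn
    · exact_mod_cast h1.le
  have h3 : Real.log 2 ≤ 1 := by
    have := Real.log_two_lt_d9
    linarith
  have h4 : ((Nat.log 2 n + 1 : ℕ) : ℝ) ≤ ((tt n : ℝ) + 1) ^ 4 := by
    exact_mod_cast lt_tt_pow n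
  have h5 : (1 : ℝ) ≤ ((tt n : ℝ) + 1) ^ 4 := by
    apply one_le_pow₀
    have : (0 : ℝ) ≤ (tt n : ℝ) := by positivity
    linarith
  have h6 : ((Nat.log 2 n + 1 : ℕ) : ℝ) * Real.log 2 ≤ ((tt n : ℝ) + 1) ^ 4 * 1 := by
    apply mul_le_mul h4 h3 (Real.log_nonneg (by norm_num)) (by positivity)
  linarith

lemma tt_pow5 (C : ℝ) : ∃ n0 : ℕ, ∀ n ≥ n0, C * (1 + Real.log (n : ℝ)) ≤ (tt n : ℝ) ^ 5 := by
  obtain ⟨m, hm⟩ := exists_nat_gt (32 * |C|)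
  obtain ⟨n0, h0⟩ := tt_ge (max m 1)
  refine ⟨max n0 1, fun n hn => ?_⟩
  have h1 := h0 n (le_trans (le_max_left _ _) hn)
  have hn1 : 1 ≤ n := le_trans (le_max_right _ _) hn
  have h2 : m ≤ tt n := le_trans (le_max_left _ _) h1
  have h3 : 1 ≤ tt n := le_trans (le_max_right _ _) h1
  have h4 := log_le_tt n hn1
  have h5 : (tt n : ℝ) + 1 ≤ 2 * (tt n : ℝ) := by
    have : (1 : ℝ) ≤ (tt n : ℝ) := by exact_mod_cast h3
    linarith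
  have h6 : ((tt n : ℝ) + 1) ^ 4 ≤ (2 * (tt n : ℝ)) ^ 4 := by
    apply pow_le_pow_left₀ (by positivity) h5
  have h7 : (0 : ℝ) ≤ 1 + Real.log (n : ℝ) := by
    have := Real.log_natCast_nonneg n
    linarith
  have h8 : (m : ℝ) ≤ (tt n : ℝ) := by exact_mod_cast h2
  calc C * (1 + Real.log (n : ℝ)) ≤ |C| * (1 + Real.log (n : ℝ)) :=
        mul_le_mul_of_nonneg_right (le_abs_self C) h7
    _ ≤ |C| * (2 * (2 * (tt n : ℝ)) ^ 4) := by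
        apply mul_le_mul_of_nonneg_left _ (abs_nonneg C)
        linarith
    _ = (32 * |C|) * (tt n : ℝ) ^ 4 := by ring
    _ ≤ (tt n : ℝ) * (tt n : ℝ) ^ 4 := by
        apply mul_le_mul_of_nonneg_right _ (by positivity)
        linarith
    _ = (tt n : ℝ) ^ 5 := by ring

end RND40
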