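import Pool.Agent.Lib_helper40.RND.RA
import Pool.Agent.Lib_helper40.RND.RB
import Pool.Agent.Lib_helper40.RND.RC
import Pool.Agent.Lib_helper40.RND.RD
import Pool.Agent.Lib_helper40.RND.RE
import Pool.Agent.Lib_helper40.RND.RF
import Pool.Agent.Lib_helper40.RND.RG
import Pool.Agent.Lib_helper40.RND.RH
import Pool.Agent.Lib_helper40.RND.RJ
import Pool.Agent.Lib_helper40.RND.RK
import Pool.Agent.Lib_helper40.RND.RL
import Pool.Agent.Lib_helper40.RND.RI
import Pool.Agent.Lib_helper40.RND.RE2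
import Pool.Agent.Lib_helper40.RND.RK2
import Pool.Agent.Lib_helper40.RND.TT
import Pool.Agent.Lib_helper40.RND.RL2
import Pool.Agent.Lib_helper40.RND.Conv

set_option autoImplicit false

namespace RND40

open Equiv Equiv.Perm

/-- One random and one fixed permutation with few cycles generate at least the alternating
group. -/
theorem generic_pair (η : ℝ) (hη : 0 < η) : ∃ n0 : ℕ, ∀ n ≥ n0, ∀ τ : Perm (Fin n),
    ncyc τ ≤ tt n ^ 5 →
    (Nat.card {a : Perm (Fin n) //
      ¬ alternatingGroup (Fin n) ≤ Subgroup.closure ({a, τ} : Set (Perm (Fin n)))} : ℝ) ≤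
      η * (n.factorial : ℝ) :=
  RK2_generic_pair two_small card_not_primitive (fun _ => position)
    (fun _ => isThreeCycle_commutator) (fun _ => exists_long) η hη

theorem generic_bir (k : ℕ) (hk : 2 ≤ k) (ε : ℝ) (hε : 0 < ε) : ∃ n0 : ℕ, ∀ n ≥ n0,
    (Nat.card {A : (Fin k → Perm (Fin n)) × (Fin n → Perm (Fin k)) //
      Bir A.1 A.2 ∧ ¬ alternatingGroup (Fin n) ≤ Subgroup.closure (Set.range A.1)} : ℝ) ≤
      ε * (Nat.card {A : (Fin k → Perm (Fin n)) × (Fin n → Perm (Fin k)) // Bir A.1 A.2} : ℝ) := by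
  refine rl2_main ?_ generic_pair tt_pow5 k hk ε hε
  intro n φ p _
  have := sum_meet_le φ p
  rw [Fintype.card_fin] at this
  exact this

/-- For every fixed alphabet, asymptotically almost all bireversible transducers have a
transition group containing the alternating group. -/
theorem generic_transducers (k : ℕ) (hk : 2 ≤ k) (ε : ℝ) (hε : 0 < ε) : ∃ n0 : ℕ, ∀ n ≥ n0,
    (Nat.card {A : (Fin n → Fin k → Fin n) × (Fin n → Fin k → Fin k) //
      BirT A.1 A.2 ∧ ¬ alternatingGroup (Fin n) ≤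
        Subgroup.closure {σ : Perm (Fin n) | ∃ x, ∀ q, σ q = A.1 q x}} : ℝ) ≤
      ε * (Nat.card {A : (Fin n → Fin k → Fin n) × (Fin n → Fin k → Fin k) //
        BirT A.1 A.2} : ℝ) := by
  obtain ⟨n0, h0⟩ := generic_bir k hk ε hε
  exact ⟨n0, fun n hn => conv_main k n ε hε.le (h0 n hn)⟩

end RND40


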