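import Mathlib
import Pool.Agent.Lib_helper40.RND.Defs
import Pool.Agent.Lib_helper40.RND.RC
import Pool.Agent.Lib_helper40.RND.RD
import Pool.Agent.Lib_helper40.RND.RE

set_option autoImplicit false

namespace RND40

open Equiv Equiv.Perm

section general

variable {α : Type*} [Fintype α] [DecidableEq α]

/-! ### stubs of the blocks RC, RD, RE -/




end general

/-! ### block RE2 -/

theorem RE2_tt_le (n : ℕ) : tt n ^ 4 ≤ Nat.log 2 n := by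
  unfold tt
  have h1 := Nat.sqrt_le' (Nat.sqrt (Nat.log 2 n))
  have h2 := Nat.sqrt_le' (Nat.log 2 n)
  calc (Nat.sqrt (Nat.sqrt (Nat.log 2 n))) ^ 4 = ((Nat.sqrt (Nat.sqrt (Nat.log 2 n))) ^ 2) ^ 2 := by
        ring
    _ ≤ (Nat.sqrt (Nat.log 2 n)) ^ 2 := Nat.pow_le_pow_left h1 2
    _ ≤ Nat.log 2 n := h2

theorem RE2_lt_tt (n : ℕ) : Nat.log 2 n < (tt n + 1) ^ 4 := by
  unfold tt
  have h1 := Nat.lt_succ_sqrt' (Nat.sqrt (Nat.log 2 n))
  have h2 := Nat.lt_succ_sqrt' (Nat.log 2 n)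
  calc Nat.log 2 n < (Nat.sqrt (Nat.log 2 n)).succ ^ 2 := h2
    _ ≤ ((Nat.sqrt (Nat.sqrt (Nat.log 2 n))).succ ^ 2) ^ 2 := Nat.pow_le_pow_left h1 2
    _ = (Nat.sqrt (Nat.sqrt (Nat.log 2 n)) + 1) ^ 4 := by rw [← pow_mul]

theorem RE2_le_tt (n t : ℕ) (h : t ^ 4 ≤ Nat.log 2 n) : t ≤ tt n := by
  unfold tt
  rw [Nat.le_sqrt', Nat.le_sqrt']
  calc (t ^ 2) ^ 2 = t ^ 4 := by ring
    _ ≤ _ := h

/-- private cycles give powers with small support -/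
theorem RE2_small {n : ℕ} (s : Perm (Fin n)) (L : Finset ℕ) (q : ℕ → ℕ) (w z : ℕ)
    (hz : ∀ l ∈ L, 1 ≤ l ∧ l ≤ z) (hq : ∀ l ∈ L, (q l).Prime ∧ w ≤ q l ∧ q l ∣ l)
    (h : ∃ x y, ¬ SameCycle s x y ∧ Priv s L q x ∧ Priv s L q y) : TwoSmall w z s := by
  obtain ⟨x, y, hxy, hx, hy⟩ := h
  have key : ∀ x, Priv s L q x → ∃ N : ℕ, (∀ y, (s ^ N) y ≠ y ↔ SameCycle s x y) ∧
      w ≤ (s ^ N).support.card ∧ (s ^ N).support.card ≤ z := by
    intro x hx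
    obtain ⟨hp, hwp, hpd⟩ := hq _ hx.1
    obtain ⟨hl1, hlz⟩ := hz _ hx.1
    obtain ⟨N, hN⟩ := exists_pow s x (q (len s x)) hp hpd hx.2
    have hcard : (s ^ N).support.card = len s x := by
      classical
      rw [← card_sameCycle s x, Nat.card_eq_fintype_card, Fintype.card_subtype]
      congr 1
      ext y
      rw [Perm.mem_support, Finset.mem_filter, hN]
      simp
    refine ⟨N, hN, ?_, ?_⟩
    · rw [hcard]
      exact hwp.trans (Nat.le_of_dvd (by omega) hpd)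
    · rw [hcard]
      exact hlz
  obtain ⟨N, hN, h1, h2⟩ := key x hx
  obtain ⟨N', hN', h3, h4⟩ := key y hy
  refine ⟨N, N', ?_, h1, h2, h3, h4⟩
  rw [Finset.disjoint_left]
  intro u hu hu'
  rw [Perm.mem_support] at hu hu'
  exact hxy (((hN u).1 hu).trans ((hN' u).1 hu').symm)

theorem two_small (η : ℝ) (hη : 0 < η) : ∃ n0 : ℕ, ∀ n ≥ n0,
    (Nat.card {s : Perm (Fin n) // ¬ TwoSmall (tt n ^ 6) (2 ^ (Nat.log 2 n / 8)) s} : ℝ) ≤
      η * (n.factorial : ℝ) := by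
  classical
  -- asymptotics in t
  have hA : ∀ᶠ t : ℕ in Filter.atTop, (t : ℝ) ^ 3 + 8 ≤ ((t : ℝ) ^ 4 / 8 - 1) * Real.log 2 -
      2 * (t : ℝ) ^ 3 := by
    have hlog : (1 : ℝ) / 2 ≤ Real.log 2 := by
      have := Real.log_two_gt_d9
      linarith
    filter_upwards [Filter.eventually_ge_atTop 100] with t ht
    have ht' : (100 : ℝ) ≤ t := by exact_mod_cast ht
    have h1 : (100 : ℝ) ^ 3 ≤ (t : ℝ) ^ 3 := by gcongr
    have h2 : (t : ℝ) ^ 4 = t * (t : ℝ) ^ 3 := by ring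
    have h3 : 100 * (t : ℝ) ^ 3 ≤ (t : ℝ) ^ 4 := by
      rw [h2]
      gcongr
    have h4 : (0 : ℝ) ≤ (t : ℝ) ^ 4 / 8 - 1 := by nlinarith
    nlinarith
  have hB : ∀ᶠ t : ℕ in Filter.atTop, 4 / ((t : ℝ) ^ 3 + 8) ≤ η / 2 := by
    obtain ⟨m, hm⟩ := exists_nat_ge (8 / η)
    filter_upwards [Filter.eventually_ge_atTop (m + 1)] with t ht
    have ht' : (m : ℝ) + 1 ≤ t := by exact_mod_cast ht
    have hm0 : (0 : ℝ) ≤ m := Nat.cast_nonneg m
    have h1 : (t : ℝ) ≤ (t : ℝ) ^ 3 := by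
      have : (1 : ℝ) ≤ t := by linarith
      nlinarith [sq_nonneg ((t : ℝ) - 1), mul_pos (by linarith : (0 : ℝ) < t) (by linarith : (0 : ℝ) < t)]
    rw [div_le_iff₀ (by positivity)]
    rw [div_le_iff₀ hη] at hm
    nlinarith
  have hC : ∀ᶠ t : ℕ in Filter.atTop, 4 * (2 + ((t : ℝ) + 1) ^ 4) / (t : ℝ) ^ 6 ≤ η / 2 := by
    obtain ⟨m, hm⟩ := exists_nat_ge (200 / η)
    filter_upwards [Filter.eventually_ge_atTop (m + 1)] with t ht
    have ht' : (m : ℝ) + 1 ≤ t := by exact_mod_cast ht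
    have hm0 : (0 : ℝ) ≤ m := Nat.cast_nonneg m
    have ht1 : (1 : ℝ) ≤ t := by linarith
    have h1 : (t : ℝ) + 1 ≤ 2 * t := by linarith
    have h2 : ((t : ℝ) + 1) ^ 4 ≤ (2 * t) ^ 4 := by gcongr
    have h3 : (1 : ℝ) ≤ (t : ℝ) ^ 4 := one_le_pow₀ ht1
    have h4 : 4 * (2 + ((t : ℝ) + 1) ^ 4) ≤ 100 * (t : ℝ) ^ 4 := by nlinarith
    have h5 : (t : ℝ) ≤ (t : ℝ) ^ 2 := by nlinarith
    have h6 : 200 / η ≤ (t : ℝ) ^ 2 := by linarith
    rw [div_le_iff₀ hη] at h6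
    rw [div_le_iff₀ (by positivity)]
    refine h4.trans ?_
    have h7 : η / 2 * (t : ℝ) ^ 6 = (t : ℝ) ^ 4 * ((t : ℝ) ^ 2 * η) / 2 := by ring
    rw [h7]
    nlinarith [mul_le_mul_of_nonneg_left h6 (by positivity : (0 : ℝ) ≤ (t : ℝ) ^ 4)]
  obtain ⟨t1, ht1⟩ := Filter.eventually_atTop.1 hA
  obtain ⟨t2, ht2⟩ := Filter.eventually_atTop.1 hB
  obtain ⟨t3, ht3⟩ := Filter.eventually_atTop.1 hC
  set t0 : ℕ := t1 + t2 + t3 + 1 with ht0
  refine ⟨2 ^ (t0 ^ 4), fun n hn => ?_⟩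
  have hn1 : 1 ≤ n := le_trans Nat.one_le_two_pow hn
  set K : ℕ := Nat.log 2 n with hK
  have hK0 : t0 ^ 4 ≤ K := Nat.le_log_of_pow_le one_lt_two hn
  have hpow1 : 2 ^ K ≤ n := Nat.pow_log_le_self 2 (by omega)
  have hpow2 : n < 2 ^ (K + 1) := Nat.lt_pow_succ_log_self one_lt_two n
  set t : ℕ := tt n with ht
  have htt0 : t0 ≤ t := RE2_le_tt n t0 hK0
  have htK : t ^ 4 ≤ K := RE2_tt_le n
  have hKt : K < (t + 1) ^ 4 := RE2_lt_tt n
  have ht1' : 1 ≤ t := by omega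
  set w : ℕ := t ^ 6 with hw
  set z : ℕ := 2 ^ (K / 8) with hz
  have hw1 : 1 ≤ w := Nat.one_le_pow _ _ (by omega)
  have hz1 : 1 ≤ z := Nat.one_le_two_pow
  have hzn : z ≤ n := (Nat.pow_le_pow_right (by norm_num) (Nat.div_le_self K 8)).trans hpow1
  set L : Finset ℕ := (Finset.Icc 1 z).filter (fun l => ∃ p, p.Prime ∧ w ≤ p ∧ p ∣ l) with hL
  set q : ℕ → ℕ := fun l => if h : ∃ p, p.Prime ∧ w ≤ p ∧ p ∣ l then h.choose else 0 with hq
  have hqL : ∀ l ∈ L, (q l).Prime ∧ w ≤ q l ∧ q l ∣ l := by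
    intro l hl
    rw [hL, Finset.mem_filter] at hl
    have h1 : q l = hl.2.choose := by
      simp only [hq]
      rw [dif_pos hl.2]
    rw [h1]
    exact hl.2.choose_spec
  have hLz : ∀ l ∈ L, 1 ≤ l ∧ l ≤ z := by
    intro l hl
    rw [hL, Finset.mem_filter, Finset.mem_Icc] at hl
    exact hl.1
  set μ : ℝ := ∑ l ∈ L, (1 : ℝ) / (l : ℝ) with hμ
  have hμ1 : (t : ℝ) ^ 3 + 8 ≤ μ := by
    have h1 := euler_bound w z hw1 hz1
    have h2 : Real.log (z : ℝ) = (K / 8 : ℕ) * Real.log 2 := by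
      rw [hz]
      push_cast
      rw [Real.log_pow]
    have h3 : Real.sqrt (w : ℝ) = (t : ℝ) ^ 3 := by
      rw [hw]
      push_cast
      have : (t : ℝ) ^ 6 = ((t : ℝ) ^ 3) ^ 2 := by ring
      rw [this, Real.sqrt_sq (by positivity)]
    rw [h2, h3] at h1
    have h4 := ht1 t (by omega)
    have h5 : (t : ℝ) ^ 4 / 8 - 1 ≤ ((K / 8 : ℕ) : ℝ) := by
      have h6 : K < 8 * (K / 8 + 1) := by omega
      have h7 : (K : ℝ) < 8 * (((K / 8 : ℕ) : ℝ) + 1) := by exact_mod_cast h6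
      have h8 : (t : ℝ) ^ 4 ≤ K := by exact_mod_cast htK
      linarith
    have h9 : ((t : ℝ) ^ 4 / 8 - 1) * Real.log 2 ≤ ((K / 8 : ℕ) : ℝ) * Real.log 2 :=
      mul_le_mul_of_nonneg_right h5 (Real.log_nonneg (by norm_num))
    have h10 : μ = ∑ l ∈ (Finset.Icc 1 z).filter (fun l => ∃ p, p.Prime ∧ w ≤ p ∧ p ∣ l),
        (1 : ℝ) / (l : ℝ) := rfl
    have h11 : ∑ l ∈ (Finset.Icc 1 z).filter (fun l => ∃ p, p.Prime ∧ w ≤ p ∧ p ∣ l),
        (1 : ℝ) / (l : ℝ) ≤ μ := by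
      rw [h10]
    refine le_trans ?_ (le_trans h1 ?_)
    · linarith
    · convert h11
  have hcount := two_private (α := Fin n) L (fun l hl => ⟨(hLz l hl).1, by
    rw [Fintype.card_fin]; exact (hLz l hl).2.trans hzn⟩) q w hw1 (fun l hl => (hqL l hl).2.1) μ hμ
    (by
      have : (0 : ℝ) ≤ (t : ℝ) ^ 3 := by positivity
      linarith)
  rw [Fintype.card_fin] at hcount
  have hmono : (Nat.card {s : Perm (Fin n) // ¬ TwoSmall (tt n ^ 6) (2 ^ (Nat.log 2 n / 8)) s} : ℝ) ≤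
      (Nat.card {s : Perm (Fin n) // ¬ ∃ x y, ¬ SameCycle s x y ∧ Priv s L q x ∧ Priv s L q y} : ℝ) := by
    have h1 : Nat.card {s : Perm (Fin n) // ¬ TwoSmall (tt n ^ 6) (2 ^ (Nat.log 2 n / 8)) s} ≤
        Nat.card {s : Perm (Fin n) // ¬ ∃ x y, ¬ SameCycle s x y ∧ Priv s L q x ∧ Priv s L q y} := by
      apply Nat.card_le_card_of_injective
        (fun s => (⟨s.1, fun h => s.2 (RE2_small s.1 L q w z hLz hqL h)⟩ :
          {s : Perm (Fin n) // ¬ ∃ x y, ¬ SameCycle s x y ∧ Priv s L q x ∧ Priv s L q y}))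
      intro s s' h
      simp only [Subtype.mk.injEq] at h
      exact Subtype.ext h
    exact_mod_cast h1
  refine hmono.trans (hcount.trans ?_)
  rw [mul_comm η]
  apply mul_le_mul_of_nonneg_left _ (by positivity)
  have hμ0 : (0 : ℝ) < (t : ℝ) ^ 3 + 8 := by positivity
  have e1 : 4 / μ ≤ η / 2 := by
    refine le_trans ?_ (ht2 t (by omega))
    gcongr
  have e2 : 4 * (1 + Real.log (n : ℝ)) / (w : ℝ) ≤ η / 2 := by
    refine le_trans ?_ (ht3 t (by omega))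
    have hw' : (w : ℝ) = (t : ℝ) ^ 6 := by rw [hw]; push_cast; ring
    rw [hw']
    have h1 : Real.log (n : ℝ) ≤ ((t : ℝ) + 1) ^ 4 + 1 := by
      have h2 : Real.log (n : ℝ) ≤ Real.log ((2 : ℝ) ^ (K + 1)) := by
        apply Real.log_le_log
        · exact_mod_cast hn1
        · exact_mod_cast hpow2.le
      rw [Real.log_pow] at h2
      have h3 : Real.log 2 ≤ 1 := by
        have := Real.log_two_lt_d9
        linarith
      have h4 : ((K + 1 : ℕ) : ℝ) * Real.log 2 ≤ ((K + 1 : ℕ) : ℝ) * 1 := by gcongr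
      have h5 : ((K + 1 : ℕ) : ℝ) ≤ ((t : ℝ) + 1) ^ 4 + 1 := by
        have h6 : K + 1 ≤ (t + 1) ^ 4 + 1 := by omega
        exact_mod_cast h6
      linarith
    have h7 : 4 * (1 + Real.log (n : ℝ)) ≤ 4 * (2 + ((t : ℝ) + 1) ^ 4) := by linarith
    exact div_le_div_of_nonneg_right h7 (by positivity)
  linarith

end RND40
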